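import Mathlib

/-! Clifford quadruples of skew operators on an eight dimensional Euclidean space. -/

set_option linter.unusedSimpArgs false

namespace Pool.Agent.Q185.SR

open scoped RealInnerProductSpace

variable {E : Type*} [NormedAddCommGroup E] [InnerProductSpace ℝ E]

/-- Four skew operators with the Clifford relations. -/
structure IsCl (A : Fin 4 → E →L[ℝ] E) : Prop where
  skew : ∀ k x y, ⟪A k x, y⟫ = - ⟪x, A k y⟫
  rel : ∀ i j x, A i (A j x) + A j (A i x) = if i = j then (-2 : ℝ) • x else 0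

/-- The product of the four operators. -/
noncomputable def om (A : Fin 4 → E →L[ℝ] E) : E →L[ℝ] E :=
  (A 0).comp ((A 1).comp ((A 2).comp (A 3)))

theorem om_apply (A : Fin 4 → E →L[ℝ] E) (x : E) : om A x = A 0 (A 1 (A 2 (A 3 x))) := rfl

namespace IsCl

variable {A : Fin 4 → E →L[ℝ] E}

theorem sq (h : IsCl A) (k : Fin 4) (x : E) : A k (A k x) = - x := by
  have h1 := h.rel k k x
  rw [if_pos rfl] at h1
  have h2 : (2 : ℝ) • A k (A k x) = (2 : ℝ) • (- x) := by
    rw [two_smul, h1]; module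
  exact smul_right_injective E (two_ne_zero) h2

theorem anti (h : IsCl A) {i j : Fin 4} (hij : i ≠ j) (x : E) : A i (A j x) = - A j (A i x) := by
  have h1 := h.rel i j x
  rw [if_neg hij] at h1
  exact eq_neg_of_add_eq_zero_left h1

theorem s10 (h : IsCl A) (x : E) : A 1 (A 0 x) = - A 0 (A 1 x) := h.anti (by decide) x
theorem s20 (h : IsCl A) (x : E) : A 2 (A 0 x) = - A 0 (A 2 x) := h.anti (by decide) x
theorem s30 (h : IsCl A) (x : E) : A 3 (A 0 x) = - A 0 (A 3 x) := h.anti (by decide) x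
theorem s21 (h : IsCl A) (x : E) : A 2 (A 1 x) = - A 1 (A 2 x) := h.anti (by decide) x
theorem s31 (h : IsCl A) (x : E) : A 3 (A 1 x) = - A 1 (A 3 x) := h.anti (by decide) x
theorem s32 (h : IsCl A) (x : E) : A 3 (A 2 x) = - A 2 (A 3 x) := h.anti (by decide) x

theorem om_sq (h : IsCl A) (x : E) : om A (om A x) = x := by
  simp only [om_apply, h.s10, h.s20, h.s30, h.s21, h.s31, h.s32, map_neg, h.sq, neg_neg]

theorem om_anti (h : IsCl A) (k : Fin 4) (x : E) : om A (A k x) = - A k (om A x) := by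
  fin_cases k <;>
  simp [om_apply, h.s10, h.s20, h.s30, h.s21, h.s31, h.s32, map_neg, h.sq]

theorem inner_self (h : IsCl A) (k : Fin 4) (x : E) : ⟪x, A k x⟫ = 0 := by
  have h1 := h.skew k x x
  rw [real_inner_comm] at h1
  linarith

theorem isom (h : IsCl A) (k : Fin 4) (x y : E) : ⟪A k x, A k y⟫ = ⟪x, y⟫ := by
  rw [h.skew, h.sq, inner_neg_right, neg_neg]

theorem norm_eq (h : IsCl A) (k : Fin 4) (x : E) : ‖A k x‖ = ‖x‖ := by
  have h1 := h.isom k x x
  rw [real_inner_self_eq_norm_sq, real_inner_self_eq_norm_sq] at h1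
  exact (sq_eq_sq₀ (norm_nonneg _) (norm_nonneg _)).1 h1

theorem om_symm (h : IsCl A) (x y : E) : ⟪om A x, y⟫ = ⟪x, om A y⟫ := by
  simp only [om_apply, h.skew, h.s10, h.s20, h.s30, h.s21, h.s31, h.s32, map_neg, neg_neg,
    inner_neg_right]

theorem cross (h : IsCl A) {i j : Fin 4} (hij : i ≠ j) (x : E) : ⟪A i x, A j x⟫ = 0 := by
  have h1 : ⟪A i x, A j x⟫ = - ⟪x, A i (A j x)⟫ := h.skew _ _ _
  have h2 : ⟪A j x, A i x⟫ = - ⟪x, A j (A i x)⟫ := h.skew _ _ _
  rw [h.anti hij, inner_neg_right] at h1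
  rw [real_inner_comm] at h2
  linarith

theorem exists_fix (h : IsCl A) [Nontrivial E] : ∃ e : E, ‖e‖ = 1 ∧ om A e = e := by
  have key : ∃ x : E, x ≠ 0 ∧ om A x = x := by
    obtain ⟨x, hx⟩ := exists_ne (0 : E)
    by_cases h1 : x + om A x = 0
    · refine ⟨A 0 x, ?_, ?_⟩
      · intro h2
        apply hx
        have h3 := h.sq 0 x
        rw [h2, map_zero] at h3
        exact neg_eq_zero.1 h3.symm
      · have h2 : om A x = - x := eq_neg_of_add_eq_zero_right h1
        rw [h.om_anti, h2, map_neg, neg_neg]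
    · exact ⟨x + om A x, h1, by rw [map_add, h.om_sq, add_comm]⟩
  obtain ⟨x, hx, hx2⟩ := key
  refine ⟨(‖x‖)⁻¹ • x, ?_, ?_⟩
  · rw [norm_smul, norm_inv, norm_norm, inv_mul_cancel₀ (norm_ne_zero_iff.2 hx)]
  · rw [map_smul, hx2]

/-- The eight vectors. -/
noncomputable def bv (A : Fin 4 → E →L[ℝ] E) (e : E) : Fin 8 → E :=
  ![e, A 0 (A 1 e), A 0 (A 2 e), A 0 (A 3 e), A 0 e, A 1 e, A 2 e, A 3 e]

theorem r23 (h : IsCl A) {e : E} (he : om A e = e) : A 2 (A 3 e) = - A 0 (A 1 e) := by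
  have h1 : A 1 (A 0 (om A e)) = A 1 (A 0 e) := by rw [he]
  rw [om_apply, h.sq, map_neg, h.sq, neg_neg, h.s10] at h1
  exact h1

theorem r12 (h : IsCl A) {e : E} (he : om A e = e) : A 1 (A 2 e) = - A 0 (A 3 e) := by
  have h1 : A 3 (A 0 (om A e)) = A 3 (A 0 e) := by rw [he]
  simp only [om_apply, h.sq, map_neg, h.s10, h.s20, h.s30, h.s21, h.s31, h.s32, neg_neg] at h1
  exact h1

theorem r13 (h : IsCl A) {e : E} (he : om A e = e) : A 1 (A 3 e) = A 0 (A 2 e) := by
  have h1 : A 2 (A 0 (om A e)) = A 2 (A 0 e) := by rw [he]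
  simp only [om_apply, h.sq, map_neg, h.s10, h.s20, h.s30, h.s21, h.s31, h.s32, neg_neg] at h1
  rw [neg_inj] at h1
  exact h1

end IsCl

end Pool.Agent.Q185.SR
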