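import Pool.Agent.Q185.SR.Alg0

/-! An adapted orthonormal basis of a Clifford quadruple. -/

set_option linter.unusedSimpArgs false
set_option linter.style.haveILetI false

namespace Pool.Agent.Q185.SR

open scoped RealInnerProductSpace

variable {E : Type*} [NormedAddCommGroup E] [InnerProductSpace ℝ E]

/-- The action of the quadruple on an adapted basis. -/
structure Tab (A : Fin 4 → E →L[ℝ] E) (b : OrthonormalBasis (Fin 8) ℝ E) : Prop where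
  a00 : A 0 (b 0) =  b 4
  a01 : A 0 (b 1) = - b 5
  a02 : A 0 (b 2) = - b 6
  a03 : A 0 (b 3) = - b 7
  a04 : A 0 (b 4) = - b 0
  a05 : A 0 (b 5) =  b 1
  a06 : A 0 (b 6) =  b 2
  a07 : A 0 (b 7) =  b 3
  a10 : A 1 (b 0) =  b 5
  a11 : A 1 (b 1) =  b 4
  a12 : A 1 (b 2) = - b 7
  a13 : A 1 (b 3) =  b 6
  a14 : A 1 (b 4) = - b 1
  a15 : A 1 (b 5) = - b 0
  a16 : A 1 (b 6) = - b 3
  a17 : A 1 (b 7) =  b 2
  a20 : A 2 (b 0) =  b 6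
  a21 : A 2 (b 1) =  b 7
  a22 : A 2 (b 2) =  b 4
  a23 : A 2 (b 3) = - b 5
  a24 : A 2 (b 4) = - b 2
  a25 : A 2 (b 5) =  b 3
  a26 : A 2 (b 6) = - b 0
  a27 : A 2 (b 7) = - b 1
  a30 : A 3 (b 0) =  b 7
  a31 : A 3 (b 1) = - b 6
  a32 : A 3 (b 2) =  b 5
  a33 : A 3 (b 3) =  b 4
  a34 : A 3 (b 4) = - b 3
  a35 : A 3 (b 5) = - b 2
  a36 : A 3 (b 6) =  b 1
  a37 : A 3 (b 7) = - b 0

theorem IsCl.orthonormal_bv {A : Fin 4 → E →L[ℝ] E} (h : IsCl A) {e : E} (he : om A e = e)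
    (hn : ‖e‖ = 1) : Orthonormal ℝ (IsCl.bv A e) := by
  have h0 : ⟪e, e⟫ = 1 := by rw [real_inner_self_eq_norm_sq, hn]; norm_num
  have h1 : ∀ k, ⟪e, A k e⟫ = 0 := fun k => h.inner_self k e
  have h2 : ∀ k, k ≠ 0 → ⟪e, A 0 (A k e)⟫ = 0 := by
    intro k hk
    have h3 := h.cross (Ne.symm hk) e
    rw [h.skew] at h3
    linarith
  have h21 := h2 1 (by decide)
  have h22 := h2 2 (by decide)
  have h23 := h2 3 (by decide)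
  rw [orthonormal_iff_ite]
  intro i j
  fin_cases i <;> fin_cases j <;>
  simp [IsCl.bv, h.skew, h.s10, h.s20, h.s30, h.s21, h.s31, h.s32, map_neg, h.sq, h0, h1, h21, h22,
    h23, h.r12 he, h.r13 he, h.r23 he, h.norm_eq, hn]

theorem IsCl.exists_tab {A : Fin 4 → E →L[ℝ] E} (h : IsCl A) (h8 : Module.finrank ℝ E = 8) :
    ∃ b : OrthonormalBasis (Fin 8) ℝ E, Tab A b := by
  haveI : Nontrivial E := Module.nontrivial_of_finrank_pos (R := ℝ) (by rw [h8]; norm_num)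
  haveI : FiniteDimensional ℝ E := FiniteDimensional.of_finrank_pos (by rw [h8]; norm_num)
  obtain ⟨e, hn, he⟩ := h.exists_fix
  have ho := h.orthonormal_bv he hn
  have hsp : ⊤ ≤ Submodule.span ℝ (Set.range (IsCl.bv A e)) := by
    rw [ho.linearIndependent.span_eq_top_of_card_eq_finrank (by rw [h8]; simp)]
  let b := OrthonormalBasis.mk ho hsp
  have hb : ∀ i, b i = IsCl.bv A e i := fun i => by
    rw [OrthonormalBasis.coe_mk]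
  refine ⟨b, ?_⟩
  constructor <;> rw [hb, hb] <;>
  simp [IsCl.bv, h.s10, h.s20, h.s30, h.s21, h.s31, h.s32, map_neg, h.sq, h.r12 he, h.r13 he,
    h.r23 he]

namespace Tab

variable {A : Fin 4 → E →L[ℝ] E} {b : OrthonormalBasis (Fin 8) ℝ E}

theorem c00 (t : Tab A b) (h : IsCl A) (x : E) : ⟪b 0, A 0 x⟫ = - ⟪b 4, x⟫ := by
  have h1 := h.skew 0 (b 0) x
  rw [t.a00] at h1
  linarith

theorem c01 (t : Tab A b) (h : IsCl A) (x : E) : ⟪b 1, A 0 x⟫ = ⟪b 5, x⟫ := by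
  have h1 := h.skew 0 (b 1) x
  rw [t.a01] at h1
  rw [inner_neg_left] at h1
  linarith

theorem c02 (t : Tab A b) (h : IsCl A) (x : E) : ⟪b 2, A 0 x⟫ = ⟪b 6, x⟫ := by
  have h1 := h.skew 0 (b 2) x
  rw [t.a02] at h1
  rw [inner_neg_left] at h1
  linarith

theorem c03 (t : Tab A b) (h : IsCl A) (x : E) : ⟪b 3, A 0 x⟫ = ⟪b 7, x⟫ := by
  have h1 := h.skew 0 (b 3) x
  rw [t.a03] at h1
  rw [inner_neg_left] at h1
  linarith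

theorem c04 (t : Tab A b) (h : IsCl A) (x : E) : ⟪b 4, A 0 x⟫ = ⟪b 0, x⟫ := by
  have h1 := h.skew 0 (b 4) x
  rw [t.a04] at h1
  rw [inner_neg_left] at h1
  linarith

theorem c05 (t : Tab A b) (h : IsCl A) (x : E) : ⟪b 5, A 0 x⟫ = - ⟪b 1, x⟫ := by
  have h1 := h.skew 0 (b 5) x
  rw [t.a05] at h1
  linarith

theorem c06 (t : Tab A b) (h : IsCl A) (x : E) : ⟪b 6, A 0 x⟫ = - ⟪b 2, x⟫ := by
  have h1 := h.skew 0 (b 6) x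
  rw [t.a06] at h1
  linarith

theorem c07 (t : Tab A b) (h : IsCl A) (x : E) : ⟪b 7, A 0 x⟫ = - ⟪b 3, x⟫ := by
  have h1 := h.skew 0 (b 7) x
  rw [t.a07] at h1
  linarith

theorem c10 (t : Tab A b) (h : IsCl A) (x : E) : ⟪b 0, A 1 x⟫ = - ⟪b 5, x⟫ := by
  have h1 := h.skew 1 (b 0) x
  rw [t.a10] at h1
  linarith

theorem c11 (t : Tab A b) (h : IsCl A) (x : E) : ⟪b 1, A 1 x⟫ = - ⟪b 4, x⟫ := by
  have h1 := h.skew 1 (b 1) x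
  rw [t.a11] at h1
  linarith

theorem c12 (t : Tab A b) (h : IsCl A) (x : E) : ⟪b 2, A 1 x⟫ = ⟪b 7, x⟫ := by
  have h1 := h.skew 1 (b 2) x
  rw [t.a12] at h1
  rw [inner_neg_left] at h1
  linarith

theorem c13 (t : Tab A b) (h : IsCl A) (x : E) : ⟪b 3, A 1 x⟫ = - ⟪b 6, x⟫ := by
  have h1 := h.skew 1 (b 3) x
  rw [t.a13] at h1
  linarith

theorem c14 (t : Tab A b) (h : IsCl A) (x : E) : ⟪b 4, A 1 x⟫ = ⟪b 1, x⟫ := by
  have h1 := h.skew 1 (b 4) x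
  rw [t.a14] at h1
  rw [inner_neg_left] at h1
  linarith

theorem c15 (t : Tab A b) (h : IsCl A) (x : E) : ⟪b 5, A 1 x⟫ = ⟪b 0, x⟫ := by
  have h1 := h.skew 1 (b 5) x
  rw [t.a15] at h1
  rw [inner_neg_left] at h1
  linarith

theorem c16 (t : Tab A b) (h : IsCl A) (x : E) : ⟪b 6, A 1 x⟫ = ⟪b 3, x⟫ := by
  have h1 := h.skew 1 (b 6) x
  rw [t.a16] at h1
  rw [inner_neg_left] at h1
  linarith

theorem c17 (t : Tab A b) (h : IsCl A) (x : E) : ⟪b 7, A 1 x⟫ = - ⟪b 2, x⟫ := by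
  have h1 := h.skew 1 (b 7) x
  rw [t.a17] at h1
  linarith

theorem c20 (t : Tab A b) (h : IsCl A) (x : E) : ⟪b 0, A 2 x⟫ = - ⟪b 6, x⟫ := by
  have h1 := h.skew 2 (b 0) x
  rw [t.a20] at h1
  linarith

theorem c21 (t : Tab A b) (h : IsCl A) (x : E) : ⟪b 1, A 2 x⟫ = - ⟪b 7, x⟫ := by
  have h1 := h.skew 2 (b 1) x
  rw [t.a21] at h1
  linarith

theorem c22 (t : Tab A b) (h : IsCl A) (x : E) : ⟪b 2, A 2 x⟫ = - ⟪b 4, x⟫ := by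
  have h1 := h.skew 2 (b 2) x
  rw [t.a22] at h1
  linarith

theorem c23 (t : Tab A b) (h : IsCl A) (x : E) : ⟪b 3, A 2 x⟫ = ⟪b 5, x⟫ := by
  have h1 := h.skew 2 (b 3) x
  rw [t.a23] at h1
  rw [inner_neg_left] at h1
  linarith

theorem c24 (t : Tab A b) (h : IsCl A) (x : E) : ⟪b 4, A 2 x⟫ = ⟪b 2, x⟫ := by
  have h1 := h.skew 2 (b 4) x
  rw [t.a24] at h1
  rw [inner_neg_left] at h1
  linarith

theorem c25 (t : Tab A b) (h : IsCl A) (x : E) : ⟪b 5, A 2 x⟫ = - ⟪b 3, x⟫ := by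
  have h1 := h.skew 2 (b 5) x
  rw [t.a25] at h1
  linarith

theorem c26 (t : Tab A b) (h : IsCl A) (x : E) : ⟪b 6, A 2 x⟫ = ⟪b 0, x⟫ := by
  have h1 := h.skew 2 (b 6) x
  rw [t.a26] at h1
  rw [inner_neg_left] at h1
  linarith

theorem c27 (t : Tab A b) (h : IsCl A) (x : E) : ⟪b 7, A 2 x⟫ = ⟪b 1, x⟫ := by
  have h1 := h.skew 2 (b 7) x
  rw [t.a27] at h1
  rw [inner_neg_left] at h1
  linarith

theorem c30 (t : Tab A b) (h : IsCl A) (x : E) : ⟪b 0, A 3 x⟫ = - ⟪b 7, x⟫ := by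
  have h1 := h.skew 3 (b 0) x
  rw [t.a30] at h1
  linarith

theorem c31 (t : Tab A b) (h : IsCl A) (x : E) : ⟪b 1, A 3 x⟫ = ⟪b 6, x⟫ := by
  have h1 := h.skew 3 (b 1) x
  rw [t.a31] at h1
  rw [inner_neg_left] at h1
  linarith

theorem c32 (t : Tab A b) (h : IsCl A) (x : E) : ⟪b 2, A 3 x⟫ = - ⟪b 5, x⟫ := by
  have h1 := h.skew 3 (b 2) x
  rw [t.a32] at h1
  linarith

theorem c33 (t : Tab A b) (h : IsCl A) (x : E) : ⟪b 3, A 3 x⟫ = - ⟪b 4, x⟫ := by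
  have h1 := h.skew 3 (b 3) x
  rw [t.a33] at h1
  linarith

theorem c34 (t : Tab A b) (h : IsCl A) (x : E) : ⟪b 4, A 3 x⟫ = ⟪b 3, x⟫ := by
  have h1 := h.skew 3 (b 4) x
  rw [t.a34] at h1
  rw [inner_neg_left] at h1
  linarith

theorem c35 (t : Tab A b) (h : IsCl A) (x : E) : ⟪b 5, A 3 x⟫ = ⟪b 2, x⟫ := by
  have h1 := h.skew 3 (b 5) x
  rw [t.a35] at h1
  rw [inner_neg_left] at h1
  linarith

theorem c36 (t : Tab A b) (h : IsCl A) (x : E) : ⟪b 6, A 3 x⟫ = - ⟪b 1, x⟫ := by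
  have h1 := h.skew 3 (b 6) x
  rw [t.a36] at h1
  linarith

theorem c37 (t : Tab A b) (h : IsCl A) (x : E) : ⟪b 7, A 3 x⟫ = ⟪b 0, x⟫ := by
  have h1 := h.skew 3 (b 7) x
  rw [t.a37] at h1
  rw [inner_neg_left] at h1
  linarith

theorem w0 (t : Tab A b) (h : IsCl A) (x : E) : ⟪b 0, om A x⟫ = ⟪b 0, x⟫ := by
  simp only [om_apply, t.c00 h, t.c01 h, t.c02 h, t.c03 h, t.c04 h, t.c05 h, t.c06 h, t.c07 h,
    t.c10 h, t.c11 h, t.c12 h, t.c13 h, t.c14 h, t.c15 h, t.c16 h, t.c17 h,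
    t.c20 h, t.c21 h, t.c22 h, t.c23 h, t.c24 h, t.c25 h, t.c26 h, t.c27 h,
    t.c30 h, t.c31 h, t.c32 h, t.c33 h, t.c34 h, t.c35 h, t.c36 h, t.c37 h, neg_neg]

theorem w1 (t : Tab A b) (h : IsCl A) (x : E) : ⟪b 1, om A x⟫ = ⟪b 1, x⟫ := by
  simp only [om_apply, t.c00 h, t.c01 h, t.c02 h, t.c03 h, t.c04 h, t.c05 h, t.c06 h, t.c07 h,
    t.c10 h, t.c11 h, t.c12 h, t.c13 h, t.c14 h, t.c15 h, t.c16 h, t.c17 h,
    t.c20 h, t.c21 h, t.c22 h, t.c23 h, t.c24 h, t.c25 h, t.c26 h, t.c27 h,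
    t.c30 h, t.c31 h, t.c32 h, t.c33 h, t.c34 h, t.c35 h, t.c36 h, t.c37 h, neg_neg]

theorem w2 (t : Tab A b) (h : IsCl A) (x : E) : ⟪b 2, om A x⟫ = ⟪b 2, x⟫ := by
  simp only [om_apply, t.c00 h, t.c01 h, t.c02 h, t.c03 h, t.c04 h, t.c05 h, t.c06 h, t.c07 h,
    t.c10 h, t.c11 h, t.c12 h, t.c13 h, t.c14 h, t.c15 h, t.c16 h, t.c17 h,
    t.c20 h, t.c21 h, t.c22 h, t.c23 h, t.c24 h, t.c25 h, t.c26 h, t.c27 h,
    t.c30 h, t.c31 h, t.c32 h, t.c33 h, t.c34 h, t.c35 h, t.c36 h, t.c37 h, neg_neg]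

theorem w3 (t : Tab A b) (h : IsCl A) (x : E) : ⟪b 3, om A x⟫ = ⟪b 3, x⟫ := by
  simp only [om_apply, t.c00 h, t.c01 h, t.c02 h, t.c03 h, t.c04 h, t.c05 h, t.c06 h, t.c07 h,
    t.c10 h, t.c11 h, t.c12 h, t.c13 h, t.c14 h, t.c15 h, t.c16 h, t.c17 h,
    t.c20 h, t.c21 h, t.c22 h, t.c23 h, t.c24 h, t.c25 h, t.c26 h, t.c27 h,
    t.c30 h, t.c31 h, t.c32 h, t.c33 h, t.c34 h, t.c35 h, t.c36 h, t.c37 h, neg_neg]

theorem w4 (t : Tab A b) (h : IsCl A) (x : E) : ⟪b 4, om A x⟫ = - ⟪b 4, x⟫ := by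
  simp only [om_apply, t.c00 h, t.c01 h, t.c02 h, t.c03 h, t.c04 h, t.c05 h, t.c06 h, t.c07 h,
    t.c10 h, t.c11 h, t.c12 h, t.c13 h, t.c14 h, t.c15 h, t.c16 h, t.c17 h,
    t.c20 h, t.c21 h, t.c22 h, t.c23 h, t.c24 h, t.c25 h, t.c26 h, t.c27 h,
    t.c30 h, t.c31 h, t.c32 h, t.c33 h, t.c34 h, t.c35 h, t.c36 h, t.c37 h, neg_neg]

theorem w5 (t : Tab A b) (h : IsCl A) (x : E) : ⟪b 5, om A x⟫ = - ⟪b 5, x⟫ := by
  simp only [om_apply, t.c00 h, t.c01 h, t.c02 h, t.c03 h, t.c04 h, t.c05 h, t.c06 h, t.c07 h,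
    t.c10 h, t.c11 h, t.c12 h, t.c13 h, t.c14 h, t.c15 h, t.c16 h, t.c17 h,
    t.c20 h, t.c21 h, t.c22 h, t.c23 h, t.c24 h, t.c25 h, t.c26 h, t.c27 h,
    t.c30 h, t.c31 h, t.c32 h, t.c33 h, t.c34 h, t.c35 h, t.c36 h, t.c37 h, neg_neg]

theorem w6 (t : Tab A b) (h : IsCl A) (x : E) : ⟪b 6, om A x⟫ = - ⟪b 6, x⟫ := by
  simp only [om_apply, t.c00 h, t.c01 h, t.c02 h, t.c03 h, t.c04 h, t.c05 h, t.c06 h, t.c07 h,
    t.c10 h, t.c11 h, t.c12 h, t.c13 h, t.c14 h, t.c15 h, t.c16 h, t.c17 h,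
    t.c20 h, t.c21 h, t.c22 h, t.c23 h, t.c24 h, t.c25 h, t.c26 h, t.c27 h,
    t.c30 h, t.c31 h, t.c32 h, t.c33 h, t.c34 h, t.c35 h, t.c36 h, t.c37 h, neg_neg]

theorem w7 (t : Tab A b) (h : IsCl A) (x : E) : ⟪b 7, om A x⟫ = - ⟪b 7, x⟫ := by
  simp only [om_apply, t.c00 h, t.c01 h, t.c02 h, t.c03 h, t.c04 h, t.c05 h, t.c06 h, t.c07 h,
    t.c10 h, t.c11 h, t.c12 h, t.c13 h, t.c14 h, t.c15 h, t.c16 h, t.c17 h,
    t.c20 h, t.c21 h, t.c22 h, t.c23 h, t.c24 h, t.c25 h, t.c26 h, t.c27 h,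
    t.c30 h, t.c31 h, t.c32 h, t.c33 h, t.c34 h, t.c35 h, t.c36 h, t.c37 h, neg_neg]

end Tab

end Pool.Agent.Q185.SR
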