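import Pool.Agent.Q185.SR.Alg1

/-! Polynomial identities in an adapted basis. -/

set_option linter.unusedSimpArgs false

namespace Pool.Agent.Q185.SR

open scoped RealInnerProductSpace

variable {E : Type*} [NormedAddCommGroup E] [InnerProductSpace ℝ E]

theorem inner_coord (b : OrthonormalBasis (Fin 8) ℝ E) (x y : E) :
    ⟪x, y⟫ = ⟪b 0, x⟫ * ⟪b 0, y⟫ + ⟪b 1, x⟫ * ⟪b 1, y⟫ + ⟪b 2, x⟫ * ⟪b 2, y⟫ +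
      ⟪b 3, x⟫ * ⟪b 3, y⟫ + ⟪b 4, x⟫ * ⟪b 4, y⟫ + ⟪b 5, x⟫ * ⟪b 5, y⟫ +
      ⟪b 6, x⟫ * ⟪b 6, y⟫ + ⟪b 7, x⟫ * ⟪b 7, y⟫ := by
  rw [← b.sum_inner_mul_inner x y, Fin.sum_univ_eight]
  rw [real_inner_comm x (b 0), real_inner_comm x (b 1), real_inner_comm x (b 2),
    real_inner_comm x (b 3), real_inner_comm x (b 4), real_inner_comm x (b 5),
    real_inner_comm x (b 6), real_inner_comm x (b 7)]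

theorem ext_coord (b : OrthonormalBasis (Fin 8) ℝ E) {x y : E}
    (h : ∀ i, ⟪b i, x⟫ = ⟪b i, y⟫) : x = y := by
  apply b.repr.injective
  ext i
  rw [b.repr_apply_apply, b.repr_apply_apply, h i]

namespace Tab

variable {A : Fin 4 → E →L[ℝ] E} {b : OrthonormalBasis (Fin 8) ℝ E}

theorem om_expand (t : Tab A b) (h : IsCl A) (y : E) :
    ‖y‖ ^ 2 • om A y = ⟪om A y, y⟫ • y + (⟪om A y, A 0 y⟫ • A 0 y + ⟪om A y, A 1 y⟫ • A 1 y +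
      ⟪om A y, A 2 y⟫ • A 2 y + ⟪om A y, A 3 y⟫ • A 3 y) := by
  rw [← real_inner_self_eq_norm_sq]
  refine ext_coord b fun i => ?_
  rw [inner_coord b y y, inner_coord b (om A y) y, inner_coord b (om A y) (A 0 y),
    inner_coord b (om A y) (A 1 y), inner_coord b (om A y) (A 2 y),
    inner_coord b (om A y) (A 3 y)]
  fin_cases i <;>
  simp only [Fin.zero_eta, Fin.mk_one, Fin.reduceFinMk, inner_smul_right, inner_add_right,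
    t.c00 h, t.c01 h, t.c02 h, t.c03 h, t.c04 h, t.c05 h, t.c06 h, t.c07 h, t.c10 h, t.c11 h,
    t.c12 h, t.c13 h, t.c14 h, t.c15 h, t.c16 h, t.c17 h, t.c20 h, t.c21 h, t.c22 h, t.c23 h,
    t.c24 h, t.c25 h, t.c26 h, t.c27 h, t.c30 h, t.c31 h, t.c32 h, t.c33 h, t.c34 h, t.c35 h,
    t.c36 h, t.c37 h,
    t.w0 h, t.w1 h, t.w2 h, t.w3 h, t.w4 h, t.w5 h, t.w6 h, t.w7 h] <;> ring

theorem span_minus (t : Tab A b) (h : IsCl A) {x z : E} (hx : om A x = x) (hz : om A z = - z) :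
    ‖x‖ ^ 2 • z = ⟪z, A 0 x⟫ • A 0 x + ⟪z, A 1 x⟫ • A 1 x +
      ⟪z, A 2 x⟫ • A 2 x + ⟪z, A 3 x⟫ • A 3 x := by
  have x4 : ⟪b 4, x⟫ = 0 := by have h1 := t.w4 h x; rw [hx] at h1; linarith
  have x5 : ⟪b 5, x⟫ = 0 := by have h1 := t.w5 h x; rw [hx] at h1; linarith
  have x6 : ⟪b 6, x⟫ = 0 := by have h1 := t.w6 h x; rw [hx] at h1; linarith
  have x7 : ⟪b 7, x⟫ = 0 := by have h1 := t.w7 h x; rw [hx] at h1; linarith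
  have z0 : ⟪b 0, z⟫ = 0 := by have h1 := t.w0 h z; rw [hz, inner_neg_right] at h1; linarith
  have z1 : ⟪b 1, z⟫ = 0 := by have h1 := t.w1 h z; rw [hz, inner_neg_right] at h1; linarith
  have z2 : ⟪b 2, z⟫ = 0 := by have h1 := t.w2 h z; rw [hz, inner_neg_right] at h1; linarith
  have z3 : ⟪b 3, z⟫ = 0 := by have h1 := t.w3 h z; rw [hz, inner_neg_right] at h1; linarith
  rw [← real_inner_self_eq_norm_sq]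
  refine ext_coord b fun i => ?_
  rw [inner_coord b x x, inner_coord b z (A 0 x),
    inner_coord b z (A 1 x), inner_coord b z (A 2 x),
    inner_coord b z (A 3 x)]
  fin_cases i <;>
  simp only [Fin.zero_eta, Fin.mk_one, Fin.reduceFinMk, inner_smul_right, inner_add_right,
    t.c00 h, t.c01 h, t.c02 h, t.c03 h, t.c04 h, t.c05 h, t.c06 h, t.c07 h, t.c10 h, t.c11 h,
    t.c12 h, t.c13 h, t.c14 h, t.c15 h, t.c16 h, t.c17 h, t.c20 h, t.c21 h, t.c22 h, t.c23 h,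
    t.c24 h, t.c25 h, t.c26 h, t.c27 h, t.c30 h, t.c31 h, t.c32 h, t.c33 h, t.c34 h, t.c35 h,
    t.c36 h, t.c37 h, x4, x5, x6, x7, z0, z1, z2, z3] <;> ring

theorem span_plus (t : Tab A b) (h : IsCl A) {x z : E} (hx : om A x = - x) (hz : om A z = z) :
    ‖x‖ ^ 2 • z = ⟪z, A 0 x⟫ • A 0 x + ⟪z, A 1 x⟫ • A 1 x +
      ⟪z, A 2 x⟫ • A 2 x + ⟪z, A 3 x⟫ • A 3 x := by
  have x4 : ⟪b 4, z⟫ = 0 := by have h1 := t.w4 h z; rw [hz] at h1; linarith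
  have x5 : ⟪b 5, z⟫ = 0 := by have h1 := t.w5 h z; rw [hz] at h1; linarith
  have x6 : ⟪b 6, z⟫ = 0 := by have h1 := t.w6 h z; rw [hz] at h1; linarith
  have x7 : ⟪b 7, z⟫ = 0 := by have h1 := t.w7 h z; rw [hz] at h1; linarith
  have z0 : ⟪b 0, x⟫ = 0 := by have h1 := t.w0 h x; rw [hx, inner_neg_right] at h1; linarith
  have z1 : ⟪b 1, x⟫ = 0 := by have h1 := t.w1 h x; rw [hx, inner_neg_right] at h1; linarith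
  have z2 : ⟪b 2, x⟫ = 0 := by have h1 := t.w2 h x; rw [hx, inner_neg_right] at h1; linarith
  have z3 : ⟪b 3, x⟫ = 0 := by have h1 := t.w3 h x; rw [hx, inner_neg_right] at h1; linarith
  rw [← real_inner_self_eq_norm_sq]
  refine ext_coord b fun i => ?_
  rw [inner_coord b x x, inner_coord b z (A 0 x),
    inner_coord b z (A 1 x), inner_coord b z (A 2 x),
    inner_coord b z (A 3 x)]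
  fin_cases i <;>
  simp only [Fin.zero_eta, Fin.mk_one, Fin.reduceFinMk, inner_smul_right, inner_add_right,
    t.c00 h, t.c01 h, t.c02 h, t.c03 h, t.c04 h, t.c05 h, t.c06 h, t.c07 h, t.c10 h, t.c11 h,
    t.c12 h, t.c13 h, t.c14 h, t.c15 h, t.c16 h, t.c17 h, t.c20 h, t.c21 h, t.c22 h, t.c23 h,
    t.c24 h, t.c25 h, t.c26 h, t.c27 h, t.c30 h, t.c31 h, t.c32 h, t.c33 h, t.c34 h, t.c35 h,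
    t.c36 h, t.c37 h, x4, x5, x6, x7, z0, z1, z2, z3] <;> ring

theorem param (t : Tab A b) (h : IsCl A) {y z : E} (hy : y ≠ 0) (h0 : ⟪z, y⟫ = 0)
    (hk : ∀ k, ⟪z, A k y⟫ = 0) : ∃ q1 q2 q3 : ℝ,
    ⟪b 0, z⟫ = q1 * (-⟪b 1, y⟫) + q2 * (-⟪b 2, y⟫) + q3 * (-⟪b 3, y⟫) ∧
    ⟪b 1, z⟫ = q1 * (⟪b 0, y⟫) + q2 * (⟪b 3, y⟫) + q3 * (-⟪b 2, y⟫) ∧
    ⟪b 2, z⟫ = q1 * (-⟪b 3, y⟫) + q2 * (⟪b 0, y⟫) + q3 * (⟪b 1, y⟫) ∧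
    ⟪b 3, z⟫ = q1 * (⟪b 2, y⟫) + q2 * (-⟪b 1, y⟫) + q3 * (⟪b 0, y⟫) ∧
    ⟪b 4, z⟫ = q1 * (-⟪b 5, y⟫) + q2 * (-⟪b 6, y⟫) + q3 * (-⟪b 7, y⟫) ∧
    ⟪b 5, z⟫ = q1 * (⟪b 4, y⟫) + q2 * (-⟪b 7, y⟫) + q3 * (⟪b 6, y⟫) ∧
    ⟪b 6, z⟫ = q1 * (⟪b 7, y⟫) + q2 * (⟪b 4, y⟫) + q3 * (-⟪b 5, y⟫) ∧
    ⟪b 7, z⟫ = q1 * (-⟪b 6, y⟫) + q2 * (⟪b 5, y⟫) + q3 * (⟪b 4, y⟫) := by
  have k0 := hk 0
  have k1 := hk 1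
  have k2 := hk 2
  have k3 := hk 3
  rw [inner_coord b z y] at h0
  rw [inner_coord b z (A 0 y)] at k0
  rw [inner_coord b z (A 1 y)] at k1
  rw [inner_coord b z (A 2 y)] at k2
  rw [inner_coord b z (A 3 y)] at k3
  simp only [t.c00 h, t.c01 h, t.c02 h, t.c03 h, t.c04 h, t.c05 h, t.c06 h, t.c07 h, t.c10 h, t.c11 h,
    t.c12 h, t.c13 h, t.c14 h, t.c15 h, t.c16 h, t.c17 h, t.c20 h, t.c21 h, t.c22 h, t.c23 h,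
    t.c24 h, t.c25 h, t.c26 h, t.c27 h, t.c30 h, t.c31 h, t.c32 h, t.c33 h, t.c34 h, t.c35 h,
    t.c36 h, t.c37 h] at k0 k1 k2 k3
  have hn : ⟪b 0, y⟫ ^ 2 + ⟪b 1, y⟫ ^ 2 + ⟪b 2, y⟫ ^ 2 + ⟪b 3, y⟫ ^ 2 + ⟪b 4, y⟫ ^ 2 + ⟪b 5, y⟫ ^ 2 + ⟪b 6, y⟫ ^ 2 + ⟪b 7, y⟫ ^ 2 ≠ 0 := by
    intro hn
    apply hy
    have h1 : ⟪y, y⟫ = 0 := by rw [inner_coord b y y]; linarith
    exact inner_self_eq_zero.1 h1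
  set n := ⟪b 0, y⟫ ^ 2 + ⟪b 1, y⟫ ^ 2 + ⟪b 2, y⟫ ^ 2 + ⟪b 3, y⟫ ^ 2 + ⟪b 4, y⟫ ^ 2 + ⟪b 5, y⟫ ^ 2 + ⟪b 6, y⟫ ^ 2 + ⟪b 7, y⟫ ^ 2 with hndef
  refine ⟨(⟪b 0, z⟫ * (-⟪b 1, y⟫) + ⟪b 1, z⟫ * (⟪b 0, y⟫) + ⟪b 2, z⟫ * (-⟪b 3, y⟫) + ⟪b 3, z⟫ * (⟪b 2, y⟫) + ⟪b 4, z⟫ * (-⟪b 5, y⟫) + ⟪b 5, z⟫ * (⟪b 4, y⟫) + ⟪b 6, z⟫ * (⟪b 7, y⟫) + ⟪b 7, z⟫ * (-⟪b 6, y⟫)) / n,
    (⟪b 0, z⟫ * (-⟪b 2, y⟫) + ⟪b 1, z⟫ * (⟪b 3, y⟫) + ⟪b 2, z⟫ * (⟪b 0, y⟫) + ⟪b 3, z⟫ * (-⟪b 1, y⟫) + ⟪b 4, z⟫ * (-⟪b 6, y⟫) + ⟪b 5, z⟫ * (-⟪b 7, y⟫) + ⟪b 6, z⟫ * (⟪b 4, y⟫) + ⟪b 7, z⟫ * (⟪b 5, y⟫)) / n,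
    (⟪b 0, z⟫ * (-⟪b 3, y⟫) + ⟪b 1, z⟫ * (-⟪b 2, y⟫) + ⟪b 2, z⟫ * (⟪b 1, y⟫) + ⟪b 3, z⟫ * (⟪b 0, y⟫) + ⟪b 4, z⟫ * (-⟪b 7, y⟫) + ⟪b 5, z⟫ * (⟪b 6, y⟫) + ⟪b 6, z⟫ * (-⟪b 5, y⟫) + ⟪b 7, z⟫ * (⟪b 4, y⟫)) / n, ?_, ?_, ?_, ?_, ?_, ?_, ?_, ?_⟩
  · field_simp
    rw [hndef]
    linear_combination ⟪b 0, y⟫ * h0 + (-⟪b 4, y⟫) * k0 + (-⟪b 5, y⟫) * k1 + (-⟪b 6, y⟫) * k2 + (-⟪b 7, y⟫) * k3
  · field_simp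
    rw [hndef]
    linear_combination ⟪b 1, y⟫ * h0 + (⟪b 5, y⟫) * k0 + (-⟪b 4, y⟫) * k1 + (-⟪b 7, y⟫) * k2 + (⟪b 6, y⟫) * k3
  · field_simp
    rw [hndef]
    linear_combination ⟪b 2, y⟫ * h0 + (⟪b 6, y⟫) * k0 + (⟪b 7, y⟫) * k1 + (-⟪b 4, y⟫) * k2 + (-⟪b 5, y⟫) * k3
  · field_simp
    rw [hndef]
    linear_combination ⟪b 3, y⟫ * h0 + (⟪b 7, y⟫) * k0 + (-⟪b 6, y⟫) * k1 + (⟪b 5, y⟫) * k2 + (-⟪b 4, y⟫) * k3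
  · field_simp
    rw [hndef]
    linear_combination ⟪b 4, y⟫ * h0 + (⟪b 0, y⟫) * k0 + (⟪b 1, y⟫) * k1 + (⟪b 2, y⟫) * k2 + (⟪b 3, y⟫) * k3
  · field_simp
    rw [hndef]
    linear_combination ⟪b 5, y⟫ * h0 + (-⟪b 1, y⟫) * k0 + (⟪b 0, y⟫) * k1 + (-⟪b 3, y⟫) * k2 + (⟪b 2, y⟫) * k3
  · field_simp
    rw [hndef]
    linear_combination ⟪b 6, y⟫ * h0 + (-⟪b 2, y⟫) * k0 + (⟪b 3, y⟫) * k1 + (⟪b 0, y⟫) * k2 + (-⟪b 1, y⟫) * k3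
  · field_simp
    rw [hndef]
    linear_combination ⟪b 7, y⟫ * h0 + (-⟪b 3, y⟫) * k0 + (-⟪b 2, y⟫) * k1 + (⟪b 1, y⟫) * k2 + (⟪b 0, y⟫) * k3

theorem keyN (t : Tab A b) (h : IsCl A) {y z : E} (hy : y ≠ 0) (h0 : ⟪z, y⟫ = 0)
    (hk : ∀ k, ⟪z, A k y⟫ = 0) :
    ‖y‖ ^ 2 * (⟪z, A 0 (A 1 y)⟫ ^ 2 + ⟪z, A 0 (A 2 y)⟫ ^ 2 + ⟪z, A 0 (A 3 y)⟫ ^ 2 + ⟪z, A 1 (A 2 y)⟫ ^ 2 + ⟪z, A 1 (A 3 y)⟫ ^ 2 + ⟪z, A 2 (A 3 y)⟫ ^ 2) =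
      ((‖y‖ ^ 2) ^ 2 + ⟪om A y, y⟫ ^ 2) * ‖z‖ ^ 2 := by
  obtain ⟨q1, q2, q3, e0, e1, e2, e3, e4, e5, e6, e7⟩ := t.param h hy h0 hk
  rw [← real_inner_self_eq_norm_sq, ← real_inner_self_eq_norm_sq]
  have hz : ⟪z, z⟫ = ⟪y, y⟫ * (q1 ^ 2 + q2 ^ 2 + q3 ^ 2) := by
    rw [inner_coord b z z, inner_coord b y y, e0, e1, e2, e3, e4, e5, e6, e7]
    ring
  have hS : ⟪z, A 0 (A 1 y)⟫ ^ 2 + ⟪z, A 0 (A 2 y)⟫ ^ 2 + ⟪z, A 0 (A 3 y)⟫ ^ 2 + ⟪z, A 1 (A 2 y)⟫ ^ 2 + ⟪z, A 1 (A 3 y)⟫ ^ 2 + ⟪z, A 2 (A 3 y)⟫ ^ 2 = (⟪y, y⟫ ^ 2 + ⟪om A y, y⟫ ^ 2) * (q1 ^ 2 + q2 ^ 2 + q3 ^ 2) := by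
    rw [inner_coord b y y, inner_coord b (om A y) y,
    inner_coord b z (A 0 (A 1 y)),
    inner_coord b z (A 0 (A 2 y)),
    inner_coord b z (A 0 (A 3 y)),
    inner_coord b z (A 1 (A 2 y)),
    inner_coord b z (A 1 (A 3 y)),
    inner_coord b z (A 2 (A 3 y))]
    simp only [t.c00 h, t.c01 h, t.c02 h, t.c03 h, t.c04 h, t.c05 h, t.c06 h, t.c07 h, t.c10 h, t.c11 h,
    t.c12 h, t.c13 h, t.c14 h, t.c15 h, t.c16 h, t.c17 h, t.c20 h, t.c21 h, t.c22 h, t.c23 h,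
    t.c24 h, t.c25 h, t.c26 h, t.c27 h, t.c30 h, t.c31 h, t.c32 h, t.c33 h, t.c34 h, t.c35 h,
    t.c36 h, t.c37 h,
    t.w0 h, t.w1 h, t.w2 h, t.w3 h, t.w4 h, t.w5 h, t.w6 h, t.w7 h]
    rw [e0, e1, e2, e3, e4, e5, e6, e7]
    ring
  rw [hS, hz]
  ring

theorem keyP (t : Tab A b) (h : IsCl A) {y z : E} (hy : y ≠ 0) (h0 : ⟪z, y⟫ = 0)
    (hk : ∀ k, ⟪z, A k y⟫ = 0) :
    ⟪z, A 0 (A 1 y)⟫ * ⟪z, A 2 (A 3 y)⟫ - ⟪z, A 0 (A 2 y)⟫ * ⟪z, A 1 (A 3 y)⟫ + ⟪z, A 0 (A 3 y)⟫ * ⟪z, A 1 (A 2 y)⟫ =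
      - (⟪om A y, y⟫ * ‖z‖ ^ 2) := by
  obtain ⟨q1, q2, q3, e0, e1, e2, e3, e4, e5, e6, e7⟩ := t.param h hy h0 hk
  rw [← real_inner_self_eq_norm_sq]
  have hz : ⟪z, z⟫ = ⟪y, y⟫ * (q1 ^ 2 + q2 ^ 2 + q3 ^ 2) := by
    rw [inner_coord b z z, inner_coord b y y, e0, e1, e2, e3, e4, e5, e6, e7]
    ring
  rw [hz, inner_coord b y y, inner_coord b (om A y) y,
    inner_coord b z (A 0 (A 1 y)),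
    inner_coord b z (A 0 (A 2 y)),
    inner_coord b z (A 0 (A 3 y)),
    inner_coord b z (A 1 (A 2 y)),
    inner_coord b z (A 1 (A 3 y)),
    inner_coord b z (A 2 (A 3 y))]
  simp only [t.c00 h, t.c01 h, t.c02 h, t.c03 h, t.c04 h, t.c05 h, t.c06 h, t.c07 h, t.c10 h, t.c11 h,
    t.c12 h, t.c13 h, t.c14 h, t.c15 h, t.c16 h, t.c17 h, t.c20 h, t.c21 h, t.c22 h, t.c23 h,
    t.c24 h, t.c25 h, t.c26 h, t.c27 h, t.c30 h, t.c31 h, t.c32 h, t.c33 h, t.c34 h, t.c35 h,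
    t.c36 h, t.c37 h,
    t.w0 h, t.w1 h, t.w2 h, t.w3 h, t.w4 h, t.w5 h, t.w6 h, t.w7 h]
  rw [e0, e1, e2, e3, e4, e5, e6, e7]
  ring

end Tab

end Pool.Agent.Q185.SR
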