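import Mathlib

/-! The trivializable sub-Riemannian seven-sphere. -/

namespace Pool.Agent.Q185.SR

open scoped Manifold ContDiff

/-- Euclidean eight-space. -/
abbrev E8 : Type := EuclideanSpace ℝ (Fin 8)

/-- The unit sphere, with the smooth structure of Mathlib. -/
abbrev S7 : Set E8 := Metric.sphere (0 : E8) 1

instance fact_finrank_E8 : Fact (Module.finrank ℝ E8 = 7 + 1) := ⟨by simp⟩

/-- Four real skew-symmetric eight by eight matrices with the Clifford relations. -/
structure CliffordQuadruple (A : Fin 4 → Matrix (Fin 8) (Fin 8) ℝ) : Prop where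
  skew : ∀ k, (A k).transpose = - A k
  rel : ∀ i j, A i * A j + A j * A i = if i = j then (-2 : ℝ) • (1 : Matrix (Fin 8) (Fin 8) ℝ) else 0

/-- The action of a matrix on Euclidean space (matrix times column vector). -/
noncomputable def act (M : Matrix (Fin 8) (Fin 8) ℝ) : E8 →L[ℝ] E8 :=
  Matrix.toEuclideanCLM (𝕜 := ℝ) M

/-- The vector of `ℝ^8` which a tangent vector of the sphere is: its image under the differential
of the inclusion of the sphere. -/
noncomputable def ambient (x : S7) (ξ : TangentSpace (𝓡 7) x) : E8 :=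
  mvfderiv (𝓡 7) (Subtype.val : S7 → E8) x ξ

/-- The tangent vector `ξ` at `x` lies in the span of `X(A_1), ..., X(A_4)`, where
`X(A_k)` at `x` is `A_k x`. -/
def IsHorizontal (A : Fin 4 → Matrix (Fin 8) (Fin 8) ℝ) (x : S7) (ξ : TangentSpace (𝓡 7) x) :
    Prop :=
  ∃ c : Fin 4 → ℝ, ambient x ξ = ∑ k, c k • act (A k) (x : E8)

/-- The smooth diffeomorphisms of the sphere. -/
abbrev Diff7 : Type := S7 ≃ₘ^∞⟮𝓡 7, 𝓡 7⟯ S7

/-- Sub-Riemannian isometries: diffeomorphisms whose differential maps horizontal vectors to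
horizontal vectors of the same length (the sub-Riemannian metric is the restriction of the round
metric). -/
def IsSRIsometry (A : Fin 4 → Matrix (Fin 8) (Fin 8) ℝ) (φ : Diff7) : Prop :=
  ∀ (x : S7) (ξ : TangentSpace (𝓡 7) x), IsHorizontal A x ξ →
    IsHorizontal A (φ x) (mfderiv (𝓡 7) (𝓡 7) φ x ξ) ∧
    ‖ambient (φ x) (mfderiv (𝓡 7) (𝓡 7) φ x ξ)‖ = ‖ambient x ξ‖

/-- The linear isometries `O` of `ℝ^8` which normalise the span of the quadruple. -/
def Normaliser (A : Fin 4 → Matrix (Fin 8) (Fin 8) ℝ) : Set (E8 →L[ℝ] E8) :=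
  {O | (∀ x, ‖O x‖ = ‖x‖) ∧
    ∀ k, ∃ c : Fin 4 → ℝ, ∀ x, O (act (A k) x) = ∑ l, c l • act (A l) (O x)}

/-- A continuous one-parameter group of sub-Riemannian isometries. -/
structure IsOneParam (A : Fin 4 → Matrix (Fin 8) (Fin 8) ℝ) (Θ : ℝ → Diff7) :
    Prop where
  isom : ∀ t, IsSRIsometry A (Θ t)
  zero : ∀ x, Θ 0 x = x
  add : ∀ s t x, Θ (s + t) x = Θ s (Θ t x)
  cont : ∀ x, Continuous fun t => Θ t x

end Pool.Agent.Q185.SR
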