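import Pool.Agent.Q185.SR.Lie2

/-! Exponentials of the Lie algebra. -/

set_option linter.unusedSimpArgs false

namespace Pool.Agent.Q185.SR

open scoped RealInnerProductSpace ContDiff Topology
open NormedSpace (exp)

variable {E : Type*} [NormedAddCommGroup E] [InnerProductSpace ℝ E] [CompleteSpace E]

section

variable {A : Fin 4 → E →L[ℝ] E}

theorem hasDerivAt_exp_apply (B : E →L[ℝ] E) (t : ℝ) (x : E) :
    HasDerivAt (fun u : ℝ => exp (u • B) x) (B (exp (t • B) x)) t := by
  have h1 : HasDerivAt (fun u : ℝ => exp (u • B)) (B * exp (t • B)) t :=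
    hasDerivAt_exp_smul_const' B t
  have h2 := h1.clm_apply (hasDerivAt_const t x)
  simpa using h2

theorem exp_smul_add (B : E →L[ℝ] E) (u v : ℝ) :
    exp ((u + v) • B) = exp (u • B) * exp (v • B) := by
  rw [add_smul]
  have hr : ∀ x : E →L[ℝ] E, x ∈ Metric.eball (0 : E →L[ℝ] E)
      (NormedSpace.expSeries ℝ (E →L[ℝ] E)).radius := fun x => by
    rw [NormedSpace.expSeries_radius_eq_top]
    exact edist_lt_top _ _
  exact NormedSpace.exp_add_of_commute_of_mem_ball (𝕂 := ℝ)
    (((Commute.refl B).smul_left u).smul_right v) (hr _) (hr _)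

omit [CompleteSpace E] in
theorem exp_zero_apply (B : E →L[ℝ] E) (x : E) : exp ((0 : ℝ) • B) x = x := by
  rw [zero_smul, NormedSpace.exp_zero]
  rfl

theorem norm_exp {B : E →L[ℝ] E} (hB : ∀ x, ⟪B x, x⟫ = 0) (t : ℝ) (x : E) :
    ‖exp (t • B) x‖ = ‖x‖ := by
  have h1 : ∀ u : ℝ, HasDerivAt (fun u : ℝ => ⟪exp (u • B) x, exp (u • B) x⟫) 0 u := by
    intro u
    have h2 := (hasDerivAt_exp_apply B u x).inner ℝ (hasDerivAt_exp_apply B u x)
    refine h2.congr_deriv ?_
    rw [hB, real_inner_comm, hB, add_zero]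
  have h3 := is_const_of_deriv_eq_zero (fun u => (h1 u).differentiableAt)
    (fun u => (h1 u).deriv) t 0
  rw [exp_zero_apply, real_inner_self_eq_norm_sq, real_inner_self_eq_norm_sq] at h3
  exact (sq_eq_sq₀ (norm_nonneg _) (norm_nonneg _)).1 h3

theorem exp_mem (h : IsCl A) {B : E →L[ℝ] E} (hB : B ∈ gAlg A) {e : E} (he : ‖e‖ = 1) (t : ℝ) :
    exp (t • B) ∈ GSet A := by
  refine ⟨norm_exp hB.1 t, fun k => ?_⟩
  -- the coefficient matrix as an operator
  let c : (Fin 4 → ℝ) →L[ℝ] (Fin 4 → ℝ) :=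
    LinearMap.toContinuousLinearMap
      { toFun := fun a l => ∑ m, cc A e B l m * a m
        map_add' := by
          intro a b
          funext l
          simp only [Pi.add_apply, mul_add, Finset.sum_add_distrib]
        map_smul' := by
          intro r a
          funext l
          simp only [Pi.smul_apply, smul_eq_mul, RingHom.id_apply, Finset.mul_sum]
          exact Finset.sum_congr rfl fun m _ => by ring }
  have hc : ∀ a l, c a l = ∑ m, cc A e B l m * a m := fun a l => rfl
  have hlin : ∀ a x, B (lin A a x) - lin A a (B x) = lin A (c a) x := by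
    intro a x
    rw [lin_apply, lin_apply, lin_apply, map_sum, ← Finset.sum_sub_distrib]
    have h1 : ∀ m, B (a m • A m x) - a m • A m (B x) = ∑ l, (cc A e B l m * a m) • A l x := by
      intro m
      rw [map_smul, ← smul_sub, cc_eq h hB he m x, Finset.smul_sum]
      exact Finset.sum_congr rfl fun l _ => by rw [smul_smul, mul_comm]
    rw [Finset.sum_congr rfl fun m _ => h1 m, Finset.sum_comm]
    refine Finset.sum_congr rfl fun l _ => ?_
    rw [hc, Finset.sum_smul]
  set a0 : Fin 4 → ℝ := Pi.single k 1 with ha0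
  have hA0 : ∀ x, lin A a0 x = A k x := by
    intro x
    rw [lin_apply, Finset.sum_eq_single k]
    · rw [ha0, Pi.single_eq_same, one_smul]
    · intro m _ hm
      rw [ha0, Pi.single_eq_of_ne hm, zero_smul]
    · intro hk
      exact absurd (Finset.mem_univ k) hk
  have hca : ∀ u : ℝ, HasDerivAt (fun u : ℝ => exp (u • c) a0) (c (exp (u • c) a0)) u := by
    intro u
    have h1 : HasDerivAt (fun u : ℝ => exp (u • c)) (c * exp (u • c)) u :=
      hasDerivAt_exp_smul_const' c u
    have h2 := h1.clm_apply (hasDerivAt_const u a0)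
    simpa using h2
  refine ⟨exp (t • c) a0, fun x => ?_⟩
  -- D(u) = exp(-uB) (lin A (exp (uc) a0)) (exp(uB) x)
  have hlind : ∀ u : ℝ, HasDerivAt (fun u : ℝ => lin A (exp (u • c) a0) (exp (u • B) x))
      (B (lin A (exp (u • c) a0) (exp (u • B) x))) u := by
    intro u
    have h1 : HasDerivAt (fun u : ℝ => ∑ l, (exp (u • c) a0) l • A l (exp (u • B) x))
        (∑ l, ((exp (u • c) a0) l • A l (B (exp (u • B) x)) +
          (c (exp (u • c) a0)) l • A l (exp (u • B) x))) u := by
      refine HasDerivAt.fun_sum fun l _ => ?_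
      exact ((hasDerivAt_pi.1 (hca u)) l).smul
        ((A l).hasFDerivAt.comp_hasDerivAt u (hasDerivAt_exp_apply B u x))
    have h2 : B (lin A (exp (u • c) a0) (exp (u • B) x)) =
        ∑ l, ((exp (u • c) a0) l • A l (B (exp (u • B) x)) +
          (c (exp (u • c) a0)) l • A l (exp (u • B) x)) := by
      have h3 := hlin (exp (u • c) a0) (exp (u • B) x)
      rw [sub_eq_iff_eq_add] at h3
      rw [h3, Finset.sum_add_distrib, ← lin_apply, ← lin_apply, add_comm]
    rw [h2]
    have h4 : (fun u : ℝ => lin A (exp (u • c) a0) (exp (u • B) x)) =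
        fun u : ℝ => ∑ l, (exp (u • c) a0) l • A l (exp (u • B) x) := by
      funext u
      rw [lin_apply]
    rw [h4]
    exact h1
  have hD : ∀ u : ℝ, HasDerivAt (fun u : ℝ => exp ((-u) • B)
      (lin A (exp (u • c) a0) (exp (u • B) x))) 0 u := by
    intro u
    have h1 : HasDerivAt (fun u : ℝ => exp ((-u) • B)) (-(exp ((-u) • B) * B)) u := by
      have h2 : HasDerivAt (fun u : ℝ => exp (u • B)) (exp ((-u) • B) * B) (-u) :=
        hasDerivAt_exp_smul_const B (-u)
      have h3 := h2.scomp u (hasDerivAt_neg u)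
      have h4 : (fun u : ℝ => exp (u • B)) ∘ Neg.neg = fun u : ℝ => exp ((-u) • B) := rfl
      rw [h4] at h3
      refine h3.congr_deriv ?_
      rw [neg_smul, one_smul]
    have h5 := h1.clm_apply (hlind u)
    refine h5.congr_deriv ?_
    rw [neg_apply, mul_apply_eq_comp, neg_add_cancel]
  have h6 := is_const_of_deriv_eq_zero (fun u => (hD u).differentiableAt)
    (fun u => (hD u).deriv) t 0
  have h7 : exp ((-(0 : ℝ)) • B) (lin A (exp ((0 : ℝ) • c) a0) (exp ((0 : ℝ) • B) x)) = A k x := by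
    rw [neg_zero, exp_zero_apply, exp_zero_apply]
    have : exp ((0 : ℝ) • c) a0 = a0 := by
      rw [zero_smul, NormedSpace.exp_zero]; rfl
    rw [this, hA0]
  rw [h7] at h6
  have h8 : exp (t • B) (exp ((-t) • B) (lin A (exp (t • c) a0) (exp (t • B) x))) =
      lin A (exp (t • c) a0) (exp (t • B) x) := by
    have h9 : exp (t • B) * exp ((-t) • B) = 1 := by
      rw [← exp_smul_add, add_neg_cancel, zero_smul, NormedSpace.exp_zero]
    have h10 := congrArg (fun L : E →L[ℝ] E => L (lin A (exp (t • c) a0) (exp (t • B) x))) h9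
    exact h10
  rw [← h6, h8, lin_apply]

theorem mem_of_exp (h : IsCl A) {B : E →L[ℝ] E} {e : E} (he : ‖e‖ = 1)
    (hB : ∀ t : ℝ, exp (t • B) ∈ GSet A) : B ∈ gAlg A := by
  refine ⟨fun x => ?_, fun k => ?_⟩
  · have h1 := (hasDerivAt_exp_apply B 0 x).inner ℝ (hasDerivAt_exp_apply B 0 x)
    have h2 : (fun u : ℝ => ⟪exp (u • B) x, exp (u • B) x⟫) = fun _ => ⟪x, x⟫ := by
      funext u
      rw [real_inner_self_eq_norm_sq, real_inner_self_eq_norm_sq, (hB u).1]
    have h3 : HasDerivAt (fun u : ℝ => ⟪exp (u • B) x, exp (u • B) x⟫) 0 0 := by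
      rw [h2]; exact hasDerivAt_const _ _
    have h4 := h1.unique h3
    rw [exp_zero_apply, real_inner_comm] at h4
    linarith
  · -- coefficients as differentiable functions
    have hco : ∀ (t : ℝ) (x : E), exp (t • B) (A k x) =
        ∑ l, ⟪A l (exp (t • B) e), exp (t • B) (A k e)⟫ • A l (exp (t • B) x) := by
      intro t x
      obtain ⟨c, hc⟩ := (hB t).2 k
      have h1 : ∀ l, ⟪A l (exp (t • B) e), exp (t • B) (A k e)⟫ = c l := by
        intro l
        rw [hc, inner_sum]
        simp only [inner_smul_right, h.inner_ite, mul_ite, mul_zero, Finset.sum_ite_eq,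
          Finset.mem_univ, if_true, (hB t).1, he]
        norm_num
      simp only [h1]
      exact hc x
    refine ⟨fun l => ⟪A l e, B (A k e)⟫ + ⟪A l (B e), A k e⟫, fun x => ?_⟩
    have h1 := hasDerivAt_exp_apply B 0 (A k x)
    have h2 : HasDerivAt (fun t : ℝ =>
        ∑ l, ⟪A l (exp (t • B) e), exp (t • B) (A k e)⟫ • A l (exp (t • B) x))
        (∑ l, (⟪A l (exp ((0 : ℝ) • B) e), exp ((0 : ℝ) • B) (A k e)⟫ •
          A l (B (exp ((0 : ℝ) • B) x)) +
          (⟪A l (exp ((0 : ℝ) • B) e), B (exp ((0 : ℝ) • B) (A k e))⟫ +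
            ⟪A l (B (exp ((0 : ℝ) • B) e)), exp ((0 : ℝ) • B) (A k e)⟫) •
            A l (exp ((0 : ℝ) • B) x))) 0 := by
      refine HasDerivAt.fun_sum fun l _ => ?_
      exact (((A l).hasFDerivAt.comp_hasDerivAt 0 (hasDerivAt_exp_apply B 0 e)).inner ℝ
        (hasDerivAt_exp_apply B 0 (A k e))).smul
        ((A l).hasFDerivAt.comp_hasDerivAt 0 (hasDerivAt_exp_apply B 0 x))
    have h3 : (fun u : ℝ => exp (u • B) (A k x)) = fun t : ℝ =>
        ∑ l, ⟪A l (exp (t • B) e), exp (t • B) (A k e)⟫ • A l (exp (t • B) x) := by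
      funext t
      exact hco t x
    rw [h3] at h1
    have h4 := h1.unique h2
    simp only [exp_zero_apply, h.inner_ite, he, one_pow] at h4
    rw [h4, Finset.sum_add_distrib]
    have h5 : ∑ l, (if l = k then (1 : ℝ) else 0) • A l (B x) = A k (B x) := by
      simp
    rw [h5]
    abel

theorem mem_gAlg_iff_exp (h : IsCl A) {B : E →L[ℝ] E} {e : E} (he : ‖e‖ = 1) :
    B ∈ gAlg A ↔ ∀ t : ℝ, exp (t • B) ∈ GSet A :=
  ⟨fun hB t => exp_mem h hB he t, mem_of_exp h he⟩

end

end Pool.Agent.Q185.SR
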