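import Mathlib

/-! Continuous one-parameter groups in a Banach algebra are exponential. -/

namespace Pool.Agent.Q185.SR

open scoped Topology
open NormedSpace (exp)

theorem one_param {𝔸 : Type*} [NormedRing 𝔸] [NormedAlgebra ℝ 𝔸] [CompleteSpace 𝔸] {f : ℝ → 𝔸}
    (hf : Continuous f) (h0 : f 0 = 1) (hadd : ∀ s t, f (s + t) = f s * f t) :
    ∃ B : 𝔸, ∀ t : ℝ, f t = exp (t • B) := by
  set F : ℝ → 𝔸 := fun t => ∫ s in (0 : ℝ)..t, f s with hF
  have hFd : ∀ t, HasDerivAt F (f t) t := fun t => (hf.integral_hasStrictDerivAt 0 t).hasDerivAt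
  have hF0 : F 0 = 0 := by simp [hF]
  -- invertibility
  obtain ⟨δ, hδ, hunit⟩ : ∃ δ : ℝ, δ ≠ 0 ∧ ∃ N : 𝔸, F δ * N = 1 := by
    have h1 := (hFd 0).tendsto_slope
    rw [h0] at h1
    have h2 : ∀ᶠ δ in 𝓝[≠] (0 : ℝ), ‖1 - slope F 0 δ‖ < 1 := by
      have h3 : Filter.Tendsto (fun δ => ‖1 - slope F 0 δ‖) (𝓝[≠] (0 : ℝ)) (𝓝 ‖(1 : 𝔸) - 1‖) :=
        (tendsto_const_nhds.sub h1).norm
      rw [sub_self, norm_zero] at h3
      exact h3.eventually (gt_mem_nhds one_pos)
    obtain ⟨δ, h4, h5⟩ := (h2.and self_mem_nhdsWithin).exists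
    have hδ : δ ≠ 0 := h5
    refine ⟨δ, hδ, ?_⟩
    have h6 := isUnit_one_sub_of_norm_lt_one h4
    rw [sub_sub_cancel] at h6
    obtain ⟨u, hu⟩ := h6
    have h7 : slope F 0 δ = δ⁻¹ • F δ := by
      rw [slope_def_module, hF0]; simp
    refine ⟨δ⁻¹ • (↑u⁻¹ : 𝔸), ?_⟩
    rw [mul_smul_comm, ← smul_mul_assoc, ← h7, ← hu, Units.mul_inv]
  obtain ⟨N, hN⟩ := hunit
  have key : ∀ t d, f t * F d = F (t + d) - F t := by
    intro t d
    have h1 : ∀ d, HasDerivAt (fun d => f t * F d - (F (t + d) - F t)) 0 d := by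
      intro d
      have e1 : HasDerivAt (fun d => f t * F d) (f t * f d) d := (hFd d).const_mul (f t)
      have e2 : HasDerivAt (fun d => F (t + d)) (f (t + d)) d :=
        HasDerivAt.comp_const_add t d (hFd (t + d))
      have e3 := e1.sub (e2.sub_const (F t))
      refine e3.congr_deriv ?_
      rw [hadd, sub_self]
    have h2 := is_const_of_deriv_eq_zero (fun d => (h1 d).differentiableAt)
      (fun d => (h1 d).deriv) d 0
    rw [hF0, mul_zero, add_zero, sub_self, sub_self] at h2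
    exact sub_eq_zero.1 h2
  have hfe : ∀ t, f t = (F (t + δ) - F t) * N := by
    intro t
    rw [← key t δ, mul_assoc, hN, mul_one]
  set B := (f δ - 1) * N with hB
  have hfd : ∀ t, HasDerivAt f (f t * B) t := by
    intro t
    have e2 : HasDerivAt (fun d => F (d + δ)) (f (t + δ)) t :=
      HasDerivAt.comp_add_const t δ (hFd (t + δ))
    have e3 : HasDerivAt (fun t => (F (t + δ) - F t) * N) ((f (t + δ) - f t) * N) t :=
      (e2.sub (hFd t)).mul_const N
    have e4 : f = fun t => (F (t + δ) - F t) * N := funext hfe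
    have e5 : (f (t + δ) - f t) * N = f t * B := by
      rw [hadd, hB, ← mul_assoc, mul_sub, mul_one]
    rw [← e5]
    exact e3.congr_of_eventuallyEq (Filter.Eventually.of_forall fun x => hfe x)
  refine ⟨B, fun t => ?_⟩
  have hE : ∀ t : ℝ, HasDerivAt (fun u : ℝ => exp ((-u) • B)) (-(B * exp ((-t) • B))) t := by
    intro t
    have h2 : HasDerivAt (fun u : ℝ => exp (u • B)) (B * exp ((-t) • B)) (-t) :=
      hasDerivAt_exp_smul_const' B (-t)
    have h3 := h2.scomp t (hasDerivAt_neg t)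
    have h4 : (fun u : ℝ => exp (u • B)) ∘ Neg.neg = fun u : ℝ => exp ((-u) • B) := rfl
    rw [h4] at h3
    refine h3.congr_deriv ?_
    rw [neg_smul, one_smul]
  have hg : ∀ t : ℝ, HasDerivAt (fun u : ℝ => f u * exp ((-u) • B)) 0 t := by
    intro t
    have h1 := (hfd t).mul (hE t)
    refine h1.congr_deriv ?_
    rw [mul_neg, mul_assoc, add_neg_cancel]
  have h2 := is_const_of_deriv_eq_zero (fun d => (hg d).differentiableAt)
    (fun d => (hg d).deriv) t 0
  rw [h0, neg_zero, zero_smul, NormedSpace.exp_zero, mul_one] at h2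
  have hr : ∀ x : 𝔸, x ∈ Metric.eball (0 : 𝔸)
      (NormedSpace.expSeries ℝ 𝔸).radius := fun x => by
    rw [NormedSpace.expSeries_radius_eq_top]
    exact edist_lt_top _ _
  have h3 : exp ((-t) • B) * exp (t • B) = 1 := by
    rw [← NormedSpace.exp_add_of_commute_of_mem_ball (𝕂 := ℝ)
      (((Commute.refl B).smul_left (-t)).smul_right t) (hr _) (hr _), ← add_smul, neg_add_cancel,
      zero_smul, NormedSpace.exp_zero]
  calc f t = f t * (exp ((-t) • B) * exp (t • B)) := by rw [h3, mul_one]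
    _ = exp (t • B) := by rw [← mul_assoc, h2, one_mul]

theorem exp_inj {𝔸 : Type*} [NormedRing 𝔸] [NormedAlgebra ℝ 𝔸] [CompleteSpace 𝔸] {B C : 𝔸}
    (h : ∀ t : ℝ, exp (t • B) = exp (t • C)) : B = C := by
  have h1 : HasDerivAt (fun u : ℝ => exp (u • B)) (exp ((0 : ℝ) • B) * B) 0 :=
    hasDerivAt_exp_smul_const B 0
  have h2 : HasDerivAt (fun u : ℝ => exp (u • C)) (exp ((0 : ℝ) • C) * C) 0 :=
    hasDerivAt_exp_smul_const C 0
  have h3 : (fun u : ℝ => exp (u • B)) = fun u : ℝ => exp (u • C) := funext h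
  rw [h3] at h1
  have h4 := h1.unique h2
  rwa [zero_smul, zero_smul, NormedSpace.exp_zero, one_mul, one_mul] at h4

end Pool.Agent.Q185.SR
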