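import Pool.Agent.Q185.SR.Defs
import Pool.Agent.Q185.SR.Lie3
import Pool.Agent.Q185.SR.Lie4

/-! Homogeneous extension of a map of the sphere. -/

namespace Pool.Agent.Q185.SR

open scoped RealInnerProductSpace ContDiff Topology Manifold

/-- the operators of a quadruple form a Clifford system -/
theorem isCl_act {A : Fin 4 → Matrix (Fin 8) (Fin 8) ℝ} (hA : CliffordQuadruple A) :
    IsCl (fun k => act (A k)) := by
  refine ⟨fun k x y => ?_, fun i j x => ?_⟩
  · have h1 : ContinuousLinearMap.adjoint (act (A k)) = act (A k).transpose := by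
      unfold act
      rw [← ContinuousLinearMap.star_eq_adjoint, ← map_star, Matrix.star_eq_conjTranspose]
      congr 1
    have h2 : act (A k).transpose = - act (A k) := by
      rw [hA.skew, act, map_neg]; rfl
    rw [← ContinuousLinearMap.adjoint_inner_right, h1, h2, neg_apply, inner_neg_right]
  · have h1 : ∀ M N : Matrix (Fin 8) (Fin 8) ℝ, ∀ x, act M (act N x) = act (M * N) x := by
      intro M N x
      unfold act
      rw [map_mul]
      rfl
    simp only [h1]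
    have h2 : act (A i * A j) x + act (A j * A i) x = act (A i * A j + A j * A i) x := by
      unfold act
      rw [map_add]; rfl
    rw [h2, hA.rel]
    split_ifs
    · unfold act
      rw [map_smul, map_one]
      rfl
    · unfold act
      rw [map_zero]
      rfl

theorem finrank_E8 : Module.finrank ℝ E8 = 8 := by simp

/-- normalisation -/
noncomputable def nrm (y : E8) : S7 :=
  if h : y = 0 then ⟨EuclideanSpace.single 0 1, by simp⟩
  else ⟨‖y‖⁻¹ • y, by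
    rw [mem_sphere_zero_iff_norm, norm_smul, norm_inv, norm_norm,
      inv_mul_cancel₀ (norm_ne_zero_iff.2 h)]⟩

theorem nrm_coe {y : E8} (h : y ≠ 0) : (nrm y : E8) = ‖y‖⁻¹ • y := by
  unfold nrm
  rw [dif_neg h]

theorem nrm_self (x : S7) : nrm (x : E8) = x := by
  have hx : ‖(x : E8)‖ = 1 := by simp
  have h : (x : E8) ≠ 0 := by rw [← norm_ne_zero_iff, hx]; exact one_ne_zero
  apply Subtype.ext
  rw [nrm_coe h, hx, inv_one, one_smul]

theorem nrm_smul {y : E8} {r : ℝ} (hr : 0 < r) : nrm (r • y) = nrm y := by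
  by_cases h : y = 0
  · rw [h, smul_zero]
  · have h2 : r • y ≠ 0 := smul_ne_zero hr.ne' h
    apply Subtype.ext
    rw [nrm_coe h, nrm_coe h2, norm_smul, Real.norm_of_nonneg hr.le, smul_smul]
    congr 1
    field_simp

/-- the homogeneous extension -/
noncomputable def ext (φ : S7 → S7) (y : E8) : E8 := ‖y‖ • (φ (nrm y) : E8)

theorem ext_coe (φ : S7 → S7) (x : S7) : ext φ (x : E8) = φ x := by
  unfold ext
  rw [nrm_self]
  have hx : ‖(x : E8)‖ = 1 := by simp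
  rw [hx, one_smul]

theorem ext_norm (φ : S7 → S7) (y : E8) : ‖ext φ y‖ = ‖y‖ := by
  unfold ext
  rw [norm_smul, norm_norm]
  have hx : ‖(φ (nrm y) : E8)‖ = 1 := by simp
  rw [hx, mul_one]

theorem ext_homog (φ : S7 → S7) {r : ℝ} (hr : 0 < r) (y : E8) : ext φ (r • y) = r • ext φ y := by
  unfold ext
  rw [nrm_smul hr, norm_smul, Real.norm_of_nonneg hr.le, smul_smul]

/-- the complement of the origin -/
def U0 : TopologicalSpace.Opens E8 := ⟨{0}ᶜ, isOpen_compl_singleton⟩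

theorem ext_smooth (φ : S7 ≃ₘ^∞⟮𝓡 7, 𝓡 7⟯ S7) {y : E8} (hy : y ≠ 0) :
    ContDiffAt ℝ ∞ (ext φ) y := by
  have hn : ContDiffAt ℝ ∞ (fun y : E8 => ‖y‖) y := contDiffAt_norm ℝ hy
  refine hn.smul ?_
  rw [← contMDiffAt_iff_contDiffAt]
  have hsph : ∀ z : U0, ‖(z : E8)‖⁻¹ • (z : E8) ∈ Metric.sphere (0 : E8) 1 := by
    intro z
    have hz : (z : E8) ≠ 0 := z.2
    rw [mem_sphere_zero_iff_norm, norm_smul, norm_inv, norm_norm,
      inv_mul_cancel₀ (norm_ne_zero_iff.2 hz)]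
  have hf : ContMDiff 𝓘(ℝ, E8) 𝓘(ℝ, E8) ∞ (fun z : U0 => ‖(z : E8)‖⁻¹ • (z : E8)) := by
    intro z
    have hz : (z : E8) ≠ 0 := z.2
    have h1 : ContMDiffAt 𝓘(ℝ, E8) 𝓘(ℝ, E8) ∞ (fun z : E8 => ‖z‖⁻¹ • z) (z : E8) := by
      rw [contMDiffAt_iff_contDiffAt]
      exact ((contDiffAt_norm ℝ hz).inv (norm_ne_zero_iff.2 hz)).smul contDiffAt_id
    exact contMDiffAt_subtype_iff.2 h1
  have hg : ContMDiff 𝓘(ℝ, E8) (𝓡 7) ∞
      (Set.codRestrict (fun z : U0 => ‖(z : E8)‖⁻¹ • (z : E8)) _ hsph : U0 → S7) :=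
    hf.codRestrict_sphere (n := 7) hsph
  have hcomp : ContMDiff 𝓘(ℝ, E8) 𝓘(ℝ, E8) ∞
      (fun z : U0 => ((φ (Set.codRestrict (fun z : U0 => ‖(z : E8)‖⁻¹ • (z : E8)) _ hsph z) : S7) :
        E8)) :=
    contMDiff_coe_sphere.comp (φ.contMDiff.comp hg)
  have heq : (fun z : U0 => ((φ (Set.codRestrict (fun z : U0 => ‖(z : E8)‖⁻¹ • (z : E8)) _ hsph z) :
      S7) : E8)) = fun z : U0 => (fun y : E8 => ((φ (nrm y) : S7) : E8)) z := by
    funext z
    have hz : (z : E8) ≠ 0 := z.2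
    have : Set.codRestrict (fun z : U0 => ‖(z : E8)‖⁻¹ • (z : E8)) _ hsph z = nrm z := by
      apply Subtype.ext
      rw [nrm_coe hz]
      rfl
    simp only [this]
  rw [heq] at hcomp
  exact (contMDiffAt_subtype_iff (U := U0) (f := fun y : E8 => ((φ (nrm y) : S7) : E8))
    (x := (⟨y, hy⟩ : U0))).1 (hcomp ⟨y, hy⟩)

theorem ext_D (φ : S7 ≃ₘ^∞⟮𝓡 7, 𝓡 7⟯ S7) (x : S7) (ξ : TangentSpace (𝓡 7) x) :
    fderiv ℝ (ext φ) (x : E8) (ambient x ξ) = ambient (φ x) (mfderiv (𝓡 7) (𝓡 7) φ x ξ) := by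
  have hx : (x : E8) ≠ 0 := by
    rw [← norm_ne_zero_iff]; simp
  have h1 : (ext φ) ∘ (Subtype.val : S7 → E8) = (Subtype.val : S7 → E8) ∘ φ := by
    funext z
    exact ext_coe φ z
  have d1 : MDifferentiableAt 𝓘(ℝ, E8) 𝓘(ℝ, E8) (ext φ) (x : E8) :=
    ((ext_smooth φ hx).differentiableAt (by simp)).mdifferentiableAt
  have d2 : MDifferentiableAt (𝓡 7) 𝓘(ℝ, E8) (Subtype.val : S7 → E8) x :=
    (contMDiff_coe_sphere (m := 1)).mdifferentiable one_ne_zero x
  have d3 : MDifferentiableAt (𝓡 7) (𝓡 7) φ x := φ.mdifferentiable (by simp) x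
  have d4 : MDifferentiableAt (𝓡 7) 𝓘(ℝ, E8) (Subtype.val : S7 → E8) (φ x) :=
    (contMDiff_coe_sphere (m := 1)).mdifferentiable one_ne_zero (φ x)
  have e1 := mfderiv_comp_apply x d1 d2 ξ
  have e2 := mfderiv_comp_apply x d4 d3 ξ
  rw [h1] at e1
  have e3 := e1.symm.trans e2
  rw [mfderiv_eq_fderiv] at e3
  exact e3

end Pool.Agent.Q185.SR
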