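import Pool.Agent.Q185.SR.Alg2

/-! Homogeneous horizontal isometric maps: first consequences. -/

namespace Pool.Agent.Q185.SR

open scoped RealInnerProductSpace ContDiff Topology

variable {E : Type*} [NormedAddCommGroup E] [InnerProductSpace ℝ E]

theorem IsCl.inner_ite {A : Fin 4 → E →L[ℝ] E} (h : IsCl A) (l m : Fin 4) (x : E) :
    ⟪A l x, A m x⟫ = if l = m then ‖x‖ ^ 2 else 0 := by
  split_ifs with hlm
  · rw [hlm, h.isom, real_inner_self_eq_norm_sq]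
  · exact h.cross hlm x

/-- Degree one homogeneous extensions of horizontal isometric maps. -/
structure SRHom (A : Fin 4 → E →L[ℝ] E) (Φ : E → E) : Prop where
  smooth : ∀ y, y ≠ 0 → ContDiffAt ℝ ∞ Φ y
  homog : ∀ r : ℝ, 0 < r → ∀ y, Φ (r • y) = r • Φ y
  norm : ∀ y, ‖Φ y‖ = ‖y‖
  hor : ∀ y, y ≠ 0 → ∀ k, ∃ c : Fin 4 → ℝ, fderiv ℝ Φ y (A k y) = ∑ l, c l • A l (Φ y)
  iso : ∀ y, y ≠ 0 → ∀ a : Fin 4 → ℝ,
    ‖fderiv ℝ Φ y (∑ k, a k • A k y)‖ = ‖∑ k, a k • A k y‖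

/-- The matrix of the differential on the horizontal space. -/
noncomputable def Rm (A : Fin 4 → E →L[ℝ] E) (Φ : E → E) (y : E) : Matrix (Fin 4) (Fin 4) ℝ :=
  fun l k => ⟪A l (Φ y), fderiv ℝ Φ y (A k y)⟫ / ‖y‖ ^ 2

namespace SRHom

variable {A : Fin 4 → E →L[ℝ] E} {Φ : E → E}

theorem ne_zero (s : SRHom A Φ) {y : E} (hy : y ≠ 0) : Φ y ≠ 0 := by
  rw [← norm_ne_zero_iff, s.norm]
  exact norm_ne_zero_iff.2 hy

theorem hor' (s : SRHom A Φ) (h : IsCl A) {y : E} (hy : y ≠ 0) (k : Fin 4) :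
    fderiv ℝ Φ y (A k y) = ∑ l, Rm A Φ y l k • A l (Φ y) := by
  obtain ⟨c, hc⟩ := s.hor y hy k
  have hn : ‖y‖ ^ 2 ≠ 0 := pow_ne_zero 2 (norm_ne_zero_iff.2 hy)
  have h1 : ∀ l, Rm A Φ y l k = c l := by
    intro l
    unfold Rm
    rw [hc, inner_sum]
    simp only [inner_smul_right, h.inner_ite, mul_ite, mul_zero, Finset.sum_ite_eq,
      Finset.mem_univ, if_true]
    rw [s.norm, mul_div_assoc, div_self hn, mul_one]
  rw [hc]
  exact Finset.sum_congr rfl fun l _ => by rw [h1]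

theorem inner_D (s : SRHom A Φ) {y : E} (hy : y ≠ 0) (i j : Fin 4) :
    ⟪fderiv ℝ Φ y (A i y), fderiv ℝ Φ y (A j y)⟫ = ⟪A i y, A j y⟫ := by
  have key : ∀ a : Fin 4 → ℝ, ⟪fderiv ℝ Φ y (∑ k, a k • A k y), fderiv ℝ Φ y (∑ k, a k • A k y)⟫ =
      ⟪∑ k, a k • A k y, ∑ k, a k • A k y⟫ := by
    intro a
    rw [real_inner_self_eq_norm_sq, real_inner_self_eq_norm_sq, s.iso y hy a]
  have h1 : ∀ i : Fin 4, ∑ k, (Pi.single i (1 : ℝ) : Fin 4 → ℝ) k • A k y = A i y := by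
    intro i
    rw [Finset.sum_eq_single i]
    · rw [Pi.single_eq_same, one_smul]
    · intro k _ hk
      rw [Pi.single_eq_of_ne hk, zero_smul]
    · intro hi
      exact absurd (Finset.mem_univ i) hi
  have h2 : ∑ k, (Pi.single i (1 : ℝ) + Pi.single j (1 : ℝ) : Fin 4 → ℝ) k • A k y =
      A i y + A j y := by
    simp only [Pi.add_apply, add_smul, Finset.sum_add_distrib, h1]
  have ki := key (Pi.single i 1)
  have kj := key (Pi.single j 1)
  have kij := key (Pi.single i 1 + Pi.single j 1)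
  rw [h1] at ki kj
  rw [h2, map_add, inner_add_left, inner_add_right, inner_add_right, inner_add_left,
    inner_add_right, inner_add_right, ki, kj] at kij
  have c1 : ⟪fderiv ℝ Φ y (A j y), fderiv ℝ Φ y (A i y)⟫ =
    ⟪fderiv ℝ Φ y (A i y), fderiv ℝ Φ y (A j y)⟫ := real_inner_comm _ _
  have c2 : ⟪A j y, A i y⟫ = ⟪A i y, A j y⟫ := real_inner_comm _ _
  rw [c1, c2] at kij
  linarith

theorem orth (s : SRHom A Φ) (h : IsCl A) {y : E} (hy : y ≠ 0) :
    (Rm A Φ y).transpose * Rm A Φ y = 1 := by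
  ext i j
  have h1 := s.inner_D hy i j
  have hn : ‖y‖ ^ 2 ≠ 0 := pow_ne_zero 2 (norm_ne_zero_iff.2 hy)
  rw [s.hor' h hy i, s.hor' h hy j, h.inner_ite, sum_inner] at h1
  simp only [inner_sum, inner_smul_left, inner_smul_right, h.inner_ite, mul_ite, mul_zero,
    Finset.sum_ite_eq, Finset.mem_univ, if_true, RCLike.conj_to_real, s.norm] at h1
  rw [Matrix.mul_apply]
  simp only [Matrix.transpose_apply]
  have h2 : (∑ l, Rm A Φ y l i * Rm A Φ y l j) * ‖y‖ ^ 2 = if i = j then ‖y‖ ^ 2 else 0 := by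
    rw [← h1, Finset.sum_mul]
    exact Finset.sum_congr rfl fun l _ => by ring
  rw [Matrix.one_apply]
  split_ifs at h2 ⊢ with hij
  · exact mul_right_cancel₀ hn (by rw [h2, one_mul])
  · exact mul_right_cancel₀ hn (by rw [h2, zero_mul])

theorem orth' (s : SRHom A Φ) (h : IsCl A) {y : E} (hy : y ≠ 0) :
    Rm A Φ y * (Rm A Φ y).transpose = 1 :=
  mul_eq_one_comm.1 (s.orth h hy)

theorem euler (s : SRHom A Φ) {y : E} (hy : y ≠ 0) : fderiv ℝ Φ y y = Φ y := by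
  have h1 : HasFDerivAt Φ (fderiv ℝ Φ y) y := ((s.smooth y hy).differentiableAt (by simp)).hasFDerivAt
  have h2 : HasDerivAt (fun r : ℝ => r • y) y 1 := by
    simpa using (hasDerivAt_id (1 : ℝ)).smul_const y
  have h3 : HasDerivAt (fun r : ℝ => Φ (r • y)) (fderiv ℝ Φ y y) 1 := by
    have h4 : HasFDerivAt Φ (fderiv ℝ Φ y) ((fun r : ℝ => r • y) 1) := by
      simpa using h1
    exact h4.comp_hasDerivAt 1 h2
  have h5 : HasDerivAt (fun r : ℝ => r • Φ y) (Φ y) 1 := by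
    simpa using (hasDerivAt_id (1 : ℝ)).smul_const (Φ y)
  have h6 : (fun r : ℝ => Φ (r • y)) =ᶠ[𝓝 1] fun r : ℝ => r • Φ y := by
    filter_upwards [lt_mem_nhds (zero_lt_one : (0 : ℝ) < 1)] with r hr
    exact s.homog r hr y
  exact (h3.congr_of_eventuallyEq h6.symm).unique h5

theorem smooth_fderiv (s : SRHom A Φ) {y : E} (hy : y ≠ 0) : ContDiffAt ℝ ∞ (fderiv ℝ Φ) y :=
  (s.smooth y hy).fderiv_right (by simp)

theorem smooth_R (s : SRHom A Φ) {y : E} (hy : y ≠ 0) (l k : Fin 4) :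
    DifferentiableAt ℝ (fun y => Rm A Φ y l k) y := by
  unfold Rm
  have hn : ‖y‖ ^ 2 ≠ 0 := pow_ne_zero 2 (norm_ne_zero_iff.2 hy)
  have h1 : DifferentiableAt ℝ Φ y := (s.smooth y hy).differentiableAt (by simp)
  have h2 : DifferentiableAt ℝ (fderiv ℝ Φ) y := (s.smooth_fderiv hy).differentiableAt (by simp)
  simp only [div_eq_mul_inv]
  refine DifferentiableAt.mul ?_ ?_
  · refine DifferentiableAt.inner ℝ ?_ ?_
    · exact (A l).differentiableAt.comp y h1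
    · exact h2.clm_apply (A k).differentiableAt
  · exact DifferentiableAt.inv (differentiableAt_id.norm_sq ℝ) hn

theorem bracket (s : SRHom A Φ) (h : IsCl A) {y : E} (hy : y ≠ 0) {v : E} (hv : ⟪v, Φ y⟫ = 0)
    (hvk : ∀ k, ⟪v, A k (Φ y)⟫ = 0) {i j : Fin 4} (hij : i ≠ j) :
    ⟪v, fderiv ℝ Φ y (A i (A j y))⟫ =
      ∑ l, ∑ m, Rm A Φ y l i * Rm A Φ y m j * ⟪v, A l (A m (Φ y))⟫ := by
  have hΦ : HasFDerivAt Φ (fderiv ℝ Φ y) y :=
    ((s.smooth y hy).differentiableAt (by simp)).hasFDerivAt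
  have hD : HasFDerivAt (fderiv ℝ Φ) (fderiv ℝ (fderiv ℝ Φ) y) y :=
    ((s.smooth_fderiv hy).differentiableAt (by simp)).hasFDerivAt
  have hsym : IsSymmSndFDerivAt ℝ Φ y :=
    (s.smooth y hy).isSymmSndFDerivAt (by simp; exact WithTop.coe_le_coe.2 le_top)
  -- the derivative of both sides of the horizontality relation
  have key : ∀ i j : Fin 4, ⟪v, fderiv ℝ (fderiv ℝ Φ) y (A i y) (A j y)⟫ +
      ⟪v, fderiv ℝ Φ y (A j (A i y))⟫ =
      ∑ l, ∑ m, Rm A Φ y l j * Rm A Φ y m i * ⟪v, A l (A m (Φ y))⟫ := by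
    intro i j
    have hF : HasFDerivAt (fun y' => fderiv ℝ Φ y' (A j y'))
        (((fderiv ℝ Φ y).comp (A j)) + (fderiv ℝ (fderiv ℝ Φ) y).flip (A j y)) y :=
      hD.clm_apply (A j).hasFDerivAt
    have hG : HasFDerivAt (fun y' => ∑ l, Rm A Φ y' l j • A l (Φ y'))
        (∑ l, (Rm A Φ y l j • ((A l).comp (fderiv ℝ Φ y)) +
          (fderiv ℝ (fun y' => Rm A Φ y' l j) y).smulRight (A l (Φ y)))) y := by
      refine HasFDerivAt.fun_sum fun l _ => ?_
      exact (s.smooth_R hy l j).hasFDerivAt.smul ((A l).hasFDerivAt.comp y hΦ)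
    have hFG : (fun y' => fderiv ℝ Φ y' (A j y')) =ᶠ[𝓝 y]
        (fun y' => ∑ l, Rm A Φ y' l j • A l (Φ y')) := by
      filter_upwards [isOpen_ne.mem_nhds hy] with y' hy'
      exact s.hor' h hy' j
    have h1 := (hG.congr_of_eventuallyEq hFG).unique hF
    have h2 := congrArg (fun L : E →L[ℝ] E => ⟪v, L (A i y)⟫) h1
    simp only [sum_apply, add_apply, smul_apply, ContinuousLinearMap.comp_apply,
      ContinuousLinearMap.smulRight_apply, ContinuousLinearMap.flip_apply, inner_sum,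
      inner_add_right, inner_smul_right, hvk, mul_zero, add_zero] at h2
    rw [add_comm, ← h2]
    refine Finset.sum_congr rfl fun l _ => ?_
    rw [s.hor' h hy i, map_sum, inner_sum, Finset.mul_sum]
    refine Finset.sum_congr rfl fun m _ => ?_
    rw [map_smul, inner_smul_right]
    ring
  have hanti : ∀ l m, ⟪v, A l (A m (Φ y))⟫ = - ⟪v, A m (A l (Φ y))⟫ := by
    intro l m
    by_cases hlm : l = m
    · rw [hlm, h.sq, inner_neg_right, hv]; simp
    · rw [h.anti hlm, inner_neg_right]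
  have k1 := key i j
  have k2 := key j i
  have hs : fderiv ℝ (fderiv ℝ Φ) y (A j y) (A i y) = fderiv ℝ (fderiv ℝ Φ) y (A i y) (A j y) :=
    hsym (A j y) (A i y)
  rw [hs] at k2
  have h3 : ⟪v, fderiv ℝ Φ y (A j (A i y))⟫ = - ⟪v, fderiv ℝ Φ y (A i (A j y))⟫ := by
    rw [h.anti hij.symm, map_neg, inner_neg_right]
  have h4 : ∑ l, ∑ m, Rm A Φ y l j * Rm A Φ y m i * ⟪v, A l (A m (Φ y))⟫ =
      - ∑ l, ∑ m, Rm A Φ y l i * Rm A Φ y m j * ⟪v, A l (A m (Φ y))⟫ := by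
    rw [Finset.sum_comm, ← Finset.sum_neg_distrib]
    refine Finset.sum_congr rfl fun l _ => ?_
    rw [← Finset.sum_neg_distrib]
    refine Finset.sum_congr rfl fun m _ => ?_
    rw [hanti m l]
    ring
  rw [h3, h4] at k1
  linarith

end SRHom

end Pool.Agent.Q185.SR
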