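import Pool.Agent.Q185.SR.Hom1

/-! The Levi form determines the function `⟪om y, y⟫` up to a global sign. -/

set_option linter.unusedSimpArgs false

namespace Pool.Agent.Q185.SR

open scoped RealInnerProductSpace ContDiff Topology

/-- half of the squared Frobenius norm of a skew matrix -/
def qf (B : Matrix (Fin 4) (Fin 4) ℝ) : ℝ :=
  B 0 1 ^ 2 + B 0 2 ^ 2 + B 0 3 ^ 2 + B 1 2 ^ 2 + B 1 3 ^ 2 + B 2 3 ^ 2

/-- the Pfaffian -/
def pf (B : Matrix (Fin 4) (Fin 4) ℝ) : ℝ := B 0 1 * B 2 3 - B 0 2 * B 1 3 + B 0 3 * B 1 2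

theorem skew_entries {B : Matrix (Fin 4) (Fin 4) ℝ} (hB : B.transpose = -B) :
    B 0 0 = 0 ∧ B 1 1 = 0 ∧ B 2 2 = 0 ∧ B 3 3 = 0 ∧ B 1 0 = - B 0 1 ∧ B 2 0 = - B 0 2 ∧
    B 3 0 = - B 0 3 ∧ B 2 1 = - B 1 2 ∧ B 3 1 = - B 1 3 ∧ B 3 2 = - B 2 3 := by
  have h : ∀ i j, B j i = - B i j := fun i j => by
    have := congrFun (congrFun hB i) j
    simpa using this
  refine ⟨?_, ?_, ?_, ?_, h _ _, h _ _, h _ _, h _ _, h _ _, h _ _⟩
  · have := h 0 0; linarith
  · have := h 1 1; linarith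
  · have := h 2 2; linarith
  · have := h 3 3; linarith

theorem trace_skew {B : Matrix (Fin 4) (Fin 4) ℝ} (hB : B.transpose = -B) :
    (B.transpose * B).trace = 2 * qf B := by
  obtain ⟨h00, h11, h22, h33, h10, h20, h30, h21, h31, h32⟩ := skew_entries hB
  simp only [Matrix.trace, Matrix.diag, Matrix.mul_apply, Matrix.transpose_apply,
    Fin.sum_univ_four, h00, h11, h22, h33, h10, h20, h30, h21, h31, h32, qf]
  ring

theorem qf_conj {B R : Matrix (Fin 4) (Fin 4) ℝ} (hB : B.transpose = -B)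
    (hR : R * R.transpose = 1) : qf (R.transpose * B * R) = qf B := by
  have hB' : (R.transpose * B * R).transpose = - (R.transpose * B * R) := by
    rw [Matrix.transpose_mul, Matrix.transpose_mul, Matrix.transpose_transpose, hB]
    simp only [Matrix.mul_neg, Matrix.neg_mul, Matrix.mul_assoc]
  have h1 := trace_skew hB'
  have h2 := trace_skew hB
  have h3 : ((R.transpose * B * R).transpose * (R.transpose * B * R)).trace =
      (B.transpose * B).trace := by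
    have e : (R.transpose * B * R).transpose * (R.transpose * B * R) =
        R.transpose * (B.transpose * B * R) := by
      rw [Matrix.transpose_mul, Matrix.transpose_mul, Matrix.transpose_transpose]
      calc R.transpose * (B.transpose * R) * (R.transpose * B * R)
          = R.transpose * B.transpose * (R * R.transpose) * B * R := by
            simp only [Matrix.mul_assoc]
        _ = R.transpose * (B.transpose * B * R) := by
            rw [hR, Matrix.mul_one]; simp only [Matrix.mul_assoc]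
    rw [e, Matrix.trace_mul_comm, Matrix.mul_assoc, hR, Matrix.mul_one]
  linarith

theorem pf_conj {B : Matrix (Fin 4) (Fin 4) ℝ} (R : Matrix (Fin 4) (Fin 4) ℝ)
    (hB : B.transpose = -B) : pf (R.transpose * B * R) = R.det * pf B := by
  obtain ⟨h00, h11, h22, h33, h10, h20, h30, h21, h31, h32⟩ := skew_entries hB
  have hd : R.det =
      R 0 0 * (R 1 1 * (R 2 2 * R 3 3 - R 2 3 * R 3 2) - R 1 2 * (R 2 1 * R 3 3 - R 2 3 * R 3 1)
        + R 1 3 * (R 2 1 * R 3 2 - R 2 2 * R 3 1)) -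
      R 0 1 * (R 1 0 * (R 2 2 * R 3 3 - R 2 3 * R 3 2) - R 1 2 * (R 2 0 * R 3 3 - R 2 3 * R 3 0)
        + R 1 3 * (R 2 0 * R 3 2 - R 2 2 * R 3 0)) +
      R 0 2 * (R 1 0 * (R 2 1 * R 3 3 - R 2 3 * R 3 1) - R 1 1 * (R 2 0 * R 3 3 - R 2 3 * R 3 0)
        + R 1 3 * (R 2 0 * R 3 1 - R 2 1 * R 3 0)) -
      R 0 3 * (R 1 0 * (R 2 1 * R 3 2 - R 2 2 * R 3 1) - R 1 1 * (R 2 0 * R 3 2 - R 2 2 * R 3 0)
        + R 1 2 * (R 2 0 * R 3 1 - R 2 1 * R 3 0)) := by
    rw [Matrix.det_succ_row_zero]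
    simp [Fin.sum_univ_succ, Matrix.det_fin_three, Fin.succAbove, Matrix.submatrix_apply]
    ring
  rw [hd]
  simp only [pf, Matrix.mul_apply, Matrix.transpose_apply,
    Fin.sum_univ_four, h00, h11, h22, h33, h10, h20, h30, h21, h31, h32]
  ring

theorem solve_sign {n f g d a c S P : ℝ} (hc : 0 < c) (hd : d ^ 2 = 1)
    (hf : |f| ≤ n) (hg : |g| ≤ n) (h1 : n * S = (n ^ 2 + f ^ 2) * a)
    (h2 : n * S = (n ^ 2 + g ^ 2) * c) (h3 : d * P = - (f * a)) (h4 : P = - (g * c)) :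
    g = d * f := by
  have e1 : f * a = d * g * c := by rw [h4] at h3; linarith
  have e2 : (n ^ 2 + f ^ 2) * a = (n ^ 2 + g ^ 2) * c := by rw [← h1, h2]
  have e3 : f * ((n ^ 2 + g ^ 2) * c) = d * g * c * (n ^ 2 + f ^ 2) := by
    rw [← e2, ← e1]; ring
  have e4 : f * (n ^ 2 + g ^ 2) = d * g * (n ^ 2 + f ^ 2) := by
    apply mul_right_cancel₀ hc.ne'
    linarith
  have e5 : (f - d * g) * (n ^ 2 - d * f * g) = 0 := by
    linear_combination e4 + f * g ^ 2 * (hd)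
  have e6 : f = d * g := by
    rcases mul_eq_zero.1 e5 with h | h
    · linarith
    · have hf2 : f ^ 2 ≤ n ^ 2 := by
        rw [← sq_abs f]; exact pow_le_pow_left₀ (abs_nonneg _) hf 2
      have hg2 : g ^ 2 ≤ n ^ 2 := by
        rw [← sq_abs g]; exact pow_le_pow_left₀ (abs_nonneg _) hg 2
      have h5 : (f - d * g) ^ 2 = f ^ 2 + g ^ 2 - 2 * (d * f * g) := by
        linear_combination g ^ 2 * hd
      have h6 : (f - d * g) ^ 2 ≤ 0 := by rw [h5]; linarith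
      have h7 : f - d * g = 0 := by
        apply pow_eq_zero_iff (two_ne_zero) |>.1
        exact le_antisymm h6 (sq_nonneg _)
      linarith
  rw [e6, ← mul_assoc, ← sq, hd, one_mul]

variable {E : Type*} [NormedAddCommGroup E] [InnerProductSpace ℝ E]

theorem IsCl.om_norm {A : Fin 4 → E →L[ℝ] E} (h : IsCl A) (x : E) : ‖om A x‖ = ‖x‖ := by
  rw [om_apply, h.norm_eq, h.norm_eq, h.norm_eq, h.norm_eq]

theorem IsCl.f_le {A : Fin 4 → E →L[ℝ] E} (h : IsCl A) (x : E) : |⟪om A x, x⟫| ≤ ‖x‖ ^ 2 := by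
  have h1 := abs_real_inner_le_norm (om A x) x
  rw [h.om_norm] at h1
  rw [pow_two]
  exact h1

theorem Tab.exists_V {A : Fin 4 → E →L[ℝ] E} {b : OrthonormalBasis (Fin 8) ℝ E} (t : Tab A b)
    (h : IsCl A) (x : E) : ∃ v : E, ‖v‖ = ‖x‖ ∧ ⟪v, x⟫ = 0 ∧ ∀ k, ⟪v, A k x⟫ = 0 := by
  let w : EuclideanSpace ℝ (Fin 8) := WithLp.toLp 2 ![- ⟪b 1, x⟫, ⟪b 0, x⟫, - ⟪b 3, x⟫, ⟪b 2, x⟫,
    - ⟪b 5, x⟫, ⟪b 4, x⟫, ⟪b 7, x⟫, - ⟪b 6, x⟫]
  have hw : ∀ i, ⟪b i, b.repr.symm w⟫ = w i := by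
    intro i
    rw [← b.repr_apply_apply, LinearIsometryEquiv.apply_symm_apply]
  have w0 : ⟪b 0, b.repr.symm w⟫ = - ⟪b 1, x⟫ := hw 0
  have w1 : ⟪b 1, b.repr.symm w⟫ = ⟪b 0, x⟫ := hw 1
  have w2 : ⟪b 2, b.repr.symm w⟫ = - ⟪b 3, x⟫ := hw 2
  have w3 : ⟪b 3, b.repr.symm w⟫ = ⟪b 2, x⟫ := hw 3
  have w4 : ⟪b 4, b.repr.symm w⟫ = - ⟪b 5, x⟫ := hw 4
  have w5 : ⟪b 5, b.repr.symm w⟫ = ⟪b 4, x⟫ := hw 5
  have w6 : ⟪b 6, b.repr.symm w⟫ = ⟪b 7, x⟫ := hw 6
  have w7 : ⟪b 7, b.repr.symm w⟫ = - ⟪b 6, x⟫ := hw 7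
  refine ⟨b.repr.symm w, ?_, ?_, ?_⟩
  · have h1 : ⟪b.repr.symm w, b.repr.symm w⟫ = ⟪x, x⟫ := by
      rw [inner_coord b, inner_coord b x x, w0, w1, w2, w3, w4, w5, w6, w7]
      ring
    rw [real_inner_self_eq_norm_sq, real_inner_self_eq_norm_sq] at h1
    exact (sq_eq_sq₀ (norm_nonneg _) (norm_nonneg _)).1 h1
  · rw [inner_coord b, w0, w1, w2, w3, w4, w5, w6, w7]
    ring
  · intro k
    rw [inner_coord b, w0, w1, w2, w3, w4, w5, w6, w7]
    fin_cases k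
    · simp only [Fin.zero_eta, t.c00 h, t.c01 h, t.c02 h, t.c03 h, t.c04 h, t.c05 h, t.c06 h, t.c07 h]
      ring
    · simp only [Fin.mk_one, t.c10 h, t.c11 h, t.c12 h, t.c13 h, t.c14 h, t.c15 h, t.c16 h, t.c17 h]
      ring
    · simp only [Fin.reduceFinMk, t.c20 h, t.c21 h, t.c22 h, t.c23 h, t.c24 h, t.c25 h, t.c26 h, t.c27 h]
      ring
    · simp only [Fin.reduceFinMk, t.c30 h, t.c31 h, t.c32 h, t.c33 h, t.c34 h, t.c35 h, t.c36 h, t.c37 h]
      ring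

namespace SRHom

variable {A : Fin 4 → E →L[ℝ] E} {Φ : E → E} {b : OrthonormalBasis (Fin 8) ℝ E}

theorem sign (s : SRHom A Φ) (h : IsCl A) (t : Tab A b) {y : E} (hy : y ≠ 0) :
    ⟪om A (Φ y), Φ y⟫ = (Rm A Φ y).det * ⟪om A y, y⟫ := by
  have : FiniteDimensional ℝ E := b.toBasis.finiteDimensional_of_finite
  have : CompleteSpace E := FiniteDimensional.complete ℝ E
  obtain ⟨v, hvn, hv0, hvk⟩ := t.exists_V h (Φ y)
  set D := fderiv ℝ Φ y with hD
  set z := ContinuousLinearMap.adjoint D v with hz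
  have hzin : ∀ η, ⟪z, η⟫ = ⟪v, D η⟫ := fun η => ContinuousLinearMap.adjoint_inner_left D η v
  have hz0 : ⟪z, y⟫ = 0 := by rw [hzin, hD, s.euler hy, hv0]
  have hzk : ∀ k, ⟪z, A k y⟫ = 0 := by
    intro k
    rw [hzin, hD, s.hor' h hy k, inner_sum]
    exact Finset.sum_eq_zero fun l _ => by rw [inner_smul_right, hvk, mul_zero]
  have hΦ : Φ y ≠ 0 := s.ne_zero hy
  have hv : 0 < ‖v‖ ^ 2 := by rw [hvn]; exact pow_pos (norm_pos_iff.2 hΦ) 2
  set B : Matrix (Fin 4) (Fin 4) ℝ := fun l m => ⟪v, A l (A m (Φ y))⟫ with hB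
  have hBs : B.transpose = - B := by
    ext l m
    simp only [Matrix.transpose_apply, Matrix.neg_apply, hB]
    by_cases hlm : l = m
    · rw [hlm, h.sq, inner_neg_right, hv0]; simp
    · rw [h.anti (Ne.symm hlm), inner_neg_right]
  have hbr : ∀ i j, i ≠ j → ⟪z, A i (A j y)⟫ =
      ((Rm A Φ y).transpose * B * (Rm A Φ y)) i j := by
    intro i j hij
    rw [hzin, hD, s.bracket h hy hv0 hvk hij, Matrix.mul_apply]
    simp only [Matrix.mul_apply, Matrix.transpose_apply, hB, Finset.sum_mul]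
    rw [Finset.sum_comm]
    refine Finset.sum_congr rfl fun m _ => Finset.sum_congr rfl fun l _ => ?_
    ring
  have hR := s.orth' h hy
  have hq := qf_conj hBs hR
  have hp := pf_conj (Rm A Φ y) hBs
  have n1 := t.keyN h hy hz0 hzk
  have n2 := t.keyN h hΦ hv0 hvk
  have p1 := t.keyP h hy hz0 hzk
  have p2 := t.keyP h hΦ hv0 hvk
  rw [hbr 0 1 (by decide), hbr 0 2 (by decide), hbr 0 3 (by decide), hbr 1 2 (by decide),
    hbr 1 3 (by decide), hbr 2 3 (by decide)] at n1 p1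
  have n1' : ‖y‖ ^ 2 * qf ((Rm A Φ y).transpose * B * (Rm A Φ y)) =
      ((‖y‖ ^ 2) ^ 2 + ⟪om A y, y⟫ ^ 2) * ‖z‖ ^ 2 := n1
  have p1' : pf ((Rm A Φ y).transpose * B * (Rm A Φ y)) = - (⟪om A y, y⟫ * ‖z‖ ^ 2) := p1
  have n2' : ‖Φ y‖ ^ 2 * qf B =
      ((‖Φ y‖ ^ 2) ^ 2 + ⟪om A (Φ y), Φ y⟫ ^ 2) * ‖v‖ ^ 2 := n2
  have p2' : pf B = - (⟪om A (Φ y), Φ y⟫ * ‖v‖ ^ 2) := p2
  rw [hq] at n1'
  rw [hp] at p1'
  rw [s.norm] at n2'
  have hdet : (Rm A Φ y).det ^ 2 = 1 := by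
    have h1 := congrArg Matrix.det hR
    rw [Matrix.det_mul, Matrix.det_transpose, Matrix.det_one, ← sq] at h1
    exact h1
  have hf := h.f_le y
  have hg := h.f_le (Φ y)
  rw [s.norm] at hg
  exact solve_sign hv hdet hf hg n1' n2' p1' p2'

theorem sign_const (s : SRHom A Φ) (h : IsCl A) (t : Tab A b) :
    (∀ y, ⟪om A (Φ y), Φ y⟫ = ⟪om A y, y⟫) ∨ (∀ y, ⟪om A (Φ y), Φ y⟫ = - ⟪om A y, y⟫) := by
  have : FiniteDimensional ℝ E := b.toBasis.finiteDimensional_of_finite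
  have hrank : 1 < Module.rank ℝ E := by
    have h8 : Module.finrank ℝ E = 8 := by
      rw [Module.finrank_eq_card_basis b.toBasis]; simp
    rw [← Module.finrank_eq_rank, h8]
    norm_num
  have hpc : IsPreconnected ({(0 : E)}ᶜ) :=
    (isPathConnected_compl_singleton_of_one_lt_rank hrank 0).isConnected.isPreconnected
  have hcont : ContinuousOn (fun y => (Rm A Φ y).det) ({(0 : E)}ᶜ) := by
    intro y hy
    apply ContinuousAt.continuousWithinAt
    have h1 : ContinuousAt (fun y => Rm A Φ y) y :=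
      continuousAt_pi.2 (fun i => continuousAt_pi.2 (fun j => (s.smooth_R hy i j).continuousAt))
    exact (Continuous.matrix_det continuous_id).continuousAt.comp h1
  have hsq : Set.EqOn ((fun y => (Rm A Φ y).det) ^ 2) ((fun _ => (1 : ℝ)) ^ 2) ({(0 : E)}ᶜ) := by
    intro y hy
    have h1 := congrArg Matrix.det (s.orth' h hy)
    rw [Matrix.det_mul, Matrix.det_transpose, Matrix.det_one, ← sq] at h1
    simpa using h1
  have h0 : Φ 0 = 0 := norm_eq_zero.1 (by rw [s.norm, norm_zero])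
  rcases hpc.eq_or_eq_neg_of_sq_eq hcont continuousOn_const hsq (fun _ => one_ne_zero) with h1 | h1
  · left
    intro y
    by_cases hy : y = 0
    · rw [hy, h0]
    · rw [s.sign h t hy]
      have h2 : (Rm A Φ y).det = 1 := h1 hy
      rw [h2, one_mul]
  · right
    intro y
    by_cases hy : y = 0
    · rw [hy, h0]; simp
    · rw [s.sign h t hy]
      have h2 : (Rm A Φ y).det = -1 := h1 hy
      rw [h2]; ring

end SRHom

end Pool.Agent.Q185.SR
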