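import Pool.Agent.Q185.SR.Hom2

/-! Commutation with the linear flow of `om`. -/

set_option linter.unusedSimpArgs false

namespace Pool.Agent.Q185.SR

open scoped RealInnerProductSpace ContDiff Topology

variable {E : Type*} [NormedAddCommGroup E] [InnerProductSpace ℝ E]

/-- The combination of the four operators. -/
noncomputable def lin (A : Fin 4 → E →L[ℝ] E) (a : Fin 4 → ℝ) : E →L[ℝ] E := ∑ k, a k • A k

theorem lin_apply (A : Fin 4 → E →L[ℝ] E) (a : Fin 4 → ℝ) (x : E) :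
    lin A a x = ∑ k, a k • A k x := by
  unfold lin
  rw [sum_apply]
  rfl

namespace IsCl

variable {A : Fin 4 → E →L[ℝ] E}

theorem om_lin (h : IsCl A) (a : Fin 4 → ℝ) (x : E) : om A (lin A a x) = - lin A a (om A x) := by
  simp only [lin_apply, map_sum, map_smul, h.om_anti, smul_neg, Finset.sum_neg_distrib]

theorem lin_inner (h : IsCl A) (a : Fin 4 → ℝ) (x y : E) :
    ⟪lin A a x, lin A a y⟫ = (∑ k, a k ^ 2) * ⟪x, y⟫ := by
  have h1 : ∀ x : E, lin A a (lin A a x) = - ((∑ k, a k ^ 2) • x) := by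
    intro x
    simp only [lin_apply, Fin.sum_univ_four, map_add, map_smul, h.sq, h.s10, h.s20, h.s30, h.s21,
      h.s31, h.s32]
    module
  have h2 : ⟪lin A a x, lin A a y⟫ = - ⟪x, lin A a (lin A a y)⟫ := by
    have h3 : ∀ u v : E, ⟪lin A a u, v⟫ = - ⟪u, lin A a v⟫ := by
      intro u v
      rw [lin_apply, lin_apply, sum_inner, inner_sum, ← Finset.sum_neg_distrib]
      refine Finset.sum_congr rfl fun k _ => ?_
      rw [inner_smul_left, inner_smul_right, h.skew, RCLike.conj_to_real]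
      ring
    exact h3 _ _
  rw [h2, h1, inner_neg_right, neg_neg, inner_smul_right]

theorem lin_norm (h : IsCl A) (a : Fin 4 → ℝ) (x : E) :
    ‖lin A a x‖ ^ 2 = (∑ k, a k ^ 2) * ‖x‖ ^ 2 := by
  rw [← real_inner_self_eq_norm_sq, h.lin_inner, real_inner_self_eq_norm_sq]

theorem om_lin_inner (h : IsCl A) (a : Fin 4 → ℝ) (x : E) :
    ⟪om A (lin A a x), lin A a x⟫ = - ((∑ k, a k ^ 2) * ⟪om A x, x⟫) := by
  rw [h.om_lin, inner_neg_left, h.lin_inner]

end IsCl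

/-- The linear flow. -/
noncomputable def Tt (A : Fin 4 → E →L[ℝ] E) (t : ℝ) : E →L[ℝ] E :=
  Real.cosh t • ContinuousLinearMap.id ℝ E + Real.sinh t • om A

theorem Tt_apply (A : Fin 4 → E →L[ℝ] E) (t : ℝ) (x : E) :
    Tt A t x = Real.cosh t • x + Real.sinh t • om A x := rfl

theorem IsCl.Tt_neg {A : Fin 4 → E →L[ℝ] E} (h : IsCl A) (t : ℝ) (x : E) :
    Tt A (-t) (Tt A t x) = x := by
  rw [Tt_apply, Tt_apply, map_add, map_smul, map_smul, h.om_sq, Real.cosh_neg, Real.sinh_neg]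
  have h1 := Real.cosh_sq_sub_sinh_sq t
  have h2 : Real.cosh t • (Real.cosh t • x + Real.sinh t • om A x) +
      -Real.sinh t • (Real.cosh t • om A x + Real.sinh t • x) =
      (Real.cosh t ^ 2 - Real.sinh t ^ 2) • x := by module
  rw [h2, h1, one_smul]

theorem IsCl.lin_Tt {A : Fin 4 → E →L[ℝ] E} (h : IsCl A) (a : Fin 4 → ℝ) (t : ℝ) (x : E) :
    Tt A t (lin A a x) = lin A a (Tt A (-t) x) := by
  rw [Tt_apply, Tt_apply, h.om_lin, map_add, map_smul, map_smul, Real.cosh_neg, Real.sinh_neg]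
  module

theorem IsCl.Tt_ne {A : Fin 4 → E →L[ℝ] E} (h : IsCl A) (t : ℝ) {x : E} (hx : x ≠ 0) :
    Tt A t x ≠ 0 := by
  intro h0
  apply hx
  rw [← h.Tt_neg t x, h0, map_zero]

theorem quad_zero {p q r : ℝ} (H : ∀ t : ℝ, Real.exp t * p + q + Real.exp (-t) * r = 0) :
    p = 0 ∧ r = 0 := by
  have h1 := H 0
  have h2 := H (Real.log 2)
  have h3 := H (Real.log 3)
  rw [Real.exp_neg, Real.exp_log (by norm_num)] at h2 h3
  rw [neg_zero, Real.exp_zero] at h1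
  constructor <;> linarith

namespace SRHom

variable {A : Fin 4 → E →L[ℝ] E} {Φ : E → E} {b : OrthonormalBasis (Fin 8) ℝ E}

theorem hasFDerivAt (s : SRHom A Φ) {y : E} (hy : y ≠ 0) : HasFDerivAt Φ (fderiv ℝ Φ y) y :=
  ((s.smooth y hy).differentiableAt (by simp)).hasFDerivAt

theorem D_om (s : SRHom A Φ) (h : IsCl A) (t : Tab A b)
    (hp : ∀ y, ⟪om A (Φ y), Φ y⟫ = ⟪om A y, y⟫) {y : E} (hy : y ≠ 0) :
    fderiv ℝ Φ y (om A y) = om A (Φ y) := by
  have hΦ := s.hasFDerivAt hy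
  have h1 : ∀ k, ⟪om A y, A k y⟫ = ∑ l, Rm A Φ y l k * ⟪om A (Φ y), A l (Φ y)⟫ := by
    intro k
    have e1 : HasFDerivAt (fun y => ⟪om A (Φ y), Φ y⟫) _ y :=
      ((om A).hasFDerivAt.comp y hΦ).inner ℝ hΦ
    have e2 : HasFDerivAt (fun y => ⟪om A y, y⟫) _ y :=
      (om A).hasFDerivAt.inner ℝ (hasFDerivAt_id y)
    have e3 : (fun y => ⟪om A (Φ y), Φ y⟫) = (fun y => ⟪om A y, y⟫) := funext hp
    rw [e3] at e1
    have e4 := congrArg (fun L : E →L[ℝ] ℝ => L (A k y)) (e1.unique e2)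
    simp only [ContinuousLinearMap.comp_apply, ContinuousLinearMap.prod_apply,
      fderivInnerCLM_apply, ContinuousLinearMap.id_apply, Function.comp_apply] at e4
    rw [h.om_symm (fderiv ℝ Φ y (A k y)), h.om_symm (A k y),
      real_inner_comm (om A (Φ y)) (fderiv ℝ Φ y (A k y)),
      real_inner_comm (om A y) (A k y)] at e4
    have e5 : ⟪om A y, A k y⟫ = ⟪om A (Φ y), fderiv ℝ Φ y (A k y)⟫ := by linarith
    rw [e5, s.hor' h hy k, inner_sum]
    exact Finset.sum_congr rfl fun l _ => by rw [inner_smul_right]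
  have hn : ‖y‖ ^ 2 ≠ 0 := pow_ne_zero 2 (norm_ne_zero_iff.2 hy)
  have x1 : ‖y‖ ^ 2 • om A y = ⟪om A y, y⟫ • y + ∑ k, ⟪om A y, A k y⟫ • A k y := by
    rw [t.om_expand h y, Fin.sum_univ_four]
  have x2 : ‖Φ y‖ ^ 2 • om A (Φ y) = ⟪om A (Φ y), Φ y⟫ • Φ y +
      ∑ k, ⟪om A (Φ y), A k (Φ y)⟫ • A k (Φ y) := by
    rw [t.om_expand h (Φ y), Fin.sum_univ_four]
  have hR := s.orth' h hy
  have x3 : ∑ k, ⟪om A y, A k y⟫ • fderiv ℝ Φ y (A k y) =
      ∑ l, ⟪om A (Φ y), A l (Φ y)⟫ • A l (Φ y) := by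
    have : ∀ k, ⟪om A y, A k y⟫ • fderiv ℝ Φ y (A k y) =
        ∑ l, (⟪om A y, A k y⟫ * Rm A Φ y l k) • A l (Φ y) := by
      intro k
      rw [s.hor' h hy k, Finset.smul_sum]
      exact Finset.sum_congr rfl fun l _ => by rw [smul_smul]
    rw [Finset.sum_congr rfl fun k _ => this k, Finset.sum_comm]
    refine Finset.sum_congr rfl fun l _ => ?_
    rw [← Finset.sum_smul]
    congr 1
    have e6 : ∑ k, ⟪om A y, A k y⟫ * Rm A Φ y l k =
        ∑ m, (Rm A Φ y * (Rm A Φ y).transpose) l m * ⟪om A (Φ y), A m (Φ y)⟫ := by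
      simp only [h1, Matrix.mul_apply, Matrix.transpose_apply, Finset.sum_mul]
      rw [Finset.sum_comm]
      refine Finset.sum_congr rfl fun m _ => Finset.sum_congr rfl fun k _ => ?_
      ring
    rw [e6, hR]
    simp only [Matrix.one_apply, ite_mul, one_mul, zero_mul, Finset.sum_ite_eq, Finset.mem_univ,
      if_true]
  have x4 : ‖y‖ ^ 2 • fderiv ℝ Φ y (om A y) = ‖y‖ ^ 2 • om A (Φ y) := by
    rw [← map_smul, x1, map_add, map_smul, map_sum]
    simp only [map_smul]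
    rw [x3, s.euler hy]
    rw [s.norm] at x2
    rw [x2, hp]
  exact smul_right_injective E hn x4

theorem flow (s : SRHom A Φ) (h : IsCl A) (t : Tab A b)
    (hp : ∀ y, ⟪om A (Φ y), Φ y⟫ = ⟪om A y, y⟫) {y : E} (hy : y ≠ 0) (τ : ℝ) :
    Φ (Tt A τ y) = Tt A τ (Φ y) := by
  have hc : ∀ r : ℝ, HasDerivAt (fun r => Tt A r y) (om A (Tt A r y)) r := by
    intro r
    have h1 : HasDerivAt (fun r => Real.cosh r • y + Real.sinh r • om A y)
        (Real.sinh r • y + Real.cosh r • om A y) r :=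
      ((Real.hasDerivAt_cosh r).smul_const y).add ((Real.hasDerivAt_sinh r).smul_const (om A y))
    have h2 : om A (Tt A r y) = Real.sinh r • y + Real.cosh r • om A y := by
      rw [Tt_apply, map_add, map_smul, map_smul, h.om_sq, add_comm]
    rw [h2]
    exact h1
  have hg : ∀ r : ℝ, HasDerivAt (fun r => Tt A (-r) (Φ (Tt A r y))) 0 r := by
    intro r
    have hne := h.Tt_ne r hy
    have h1 : HasDerivAt (fun r => Φ (Tt A r y)) (om A (Φ (Tt A r y))) r := by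
      rw [← s.D_om h t hp hne]
      exact (s.hasFDerivAt hne).comp_hasDerivAt r (hc r)
    have h2 : HasDerivAt (fun r => Real.cosh r • Φ (Tt A r y)) _ r :=
      (Real.hasDerivAt_cosh r).smul h1
    have h3 : HasDerivAt (fun r => om A (Φ (Tt A r y))) (om A (om A (Φ (Tt A r y)))) r :=
      (om A).hasFDerivAt.comp_hasDerivAt r h1
    have h4 : HasDerivAt (fun r => Real.sinh r • om A (Φ (Tt A r y))) _ r :=
      (Real.hasDerivAt_sinh r).smul h3
    have h5 := h2.sub h4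
    have e1 : (fun r => Tt A (-r) (Φ (Tt A r y))) =
        (fun r => Real.cosh r • Φ (Tt A r y)) - (fun r => Real.sinh r • om A (Φ (Tt A r y))) := by
      funext r
      rw [Tt_apply, Real.cosh_neg, Real.sinh_neg, Pi.sub_apply]
      module
    rw [e1]
    refine h5.congr_deriv ?_
    rw [h.om_sq]
    module
  have h1 := is_const_of_deriv_eq_zero (fun r => (hg r).differentiableAt)
    (fun r => (hg r).deriv) τ 0
  have h0 : Tt A (-0) (Φ (Tt A 0 y)) = Φ y := by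
    simp [Tt_apply]
  rw [h0] at h1
  have h2 : Tt A τ (Tt A (-τ) (Φ (Tt A τ y))) = Φ (Tt A τ y) := by
    have := h.Tt_neg (-τ) (Φ (Tt A τ y))
    rwa [neg_neg] at this
  rw [← h2, h1]

theorem flow_D (s : SRHom A Φ) (h : IsCl A) (t : Tab A b)
    (hp : ∀ y, ⟪om A (Φ y), Φ y⟫ = ⟪om A y, y⟫) {y : E} (hy : y ≠ 0) (τ : ℝ) (η : E) :
    fderiv ℝ Φ (Tt A τ y) (Tt A τ η) = Tt A τ (fderiv ℝ Φ y η) := by
  have h1 : HasFDerivAt (fun y => Φ (Tt A τ y)) ((fderiv ℝ Φ (Tt A τ y)).comp (Tt A τ)) y :=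
    (s.hasFDerivAt (h.Tt_ne τ hy)).comp y (Tt A τ).hasFDerivAt
  have h2 : HasFDerivAt (fun y => Tt A τ (Φ y)) ((Tt A τ).comp (fderiv ℝ Φ y)) y :=
    (Tt A τ).hasFDerivAt.comp y (s.hasFDerivAt hy)
  have h3 : (fun y => Φ (Tt A τ y)) =ᶠ[𝓝 y] (fun y => Tt A τ (Φ y)) := by
    filter_upwards [isOpen_ne.mem_nhds hy] with y' hy'
    exact s.flow h t hp hy' τ
  have h4 := h1.unique (h2.congr_of_eventuallyEq h3)
  exact congrArg (fun L : E →L[ℝ] E => L η) h4

/-- The two quadratic forms agree along the flow. -/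
theorem flow_quad (s : SRHom A Φ) (h : IsCl A) (t : Tab A b)
    (hp : ∀ y, ⟪om A (Φ y), Φ y⟫ = ⟪om A y, y⟫) {y : E} (hy : y ≠ 0) (τ : ℝ) (a : Fin 4 → ℝ) :
    ‖fderiv ℝ Φ y (lin A a (Tt A τ (Tt A τ y)))‖ ^ 2 = ‖lin A a (Tt A τ (Tt A τ y))‖ ^ 2 ∧
    ⟪om A (fderiv ℝ Φ y (lin A a (Tt A τ (Tt A τ y)))),
      fderiv ℝ Φ y (lin A a (Tt A τ (Tt A τ y)))⟫ =
      ⟪om A (lin A a (Tt A τ (Tt A τ y))), lin A a (Tt A τ (Tt A τ y))⟫ := by
  set y1 := Tt A τ y with hy1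
  have hy1n : y1 ≠ 0 := h.Tt_ne τ hy
  set y2 := Tt A τ y1 with hy2
  have hy2n : y2 ≠ 0 := h.Tt_ne τ hy1n
  -- the horizontal image
  obtain ⟨c, hc⟩ : ∃ c : Fin 4 → ℝ, fderiv ℝ Φ y1 (lin A a y1) = lin A c (Φ y1) := by
    refine ⟨fun l => ∑ k, a k * Rm A Φ y1 l k, ?_⟩
    rw [lin_apply, lin_apply, map_sum]
    simp only [map_smul, s.hor' h hy1n, Finset.smul_sum, smul_smul, Finset.sum_smul]
    rw [Finset.sum_comm]
  have hca : ∑ k, c k ^ 2 = ∑ k, a k ^ 2 := by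
    have h1 := s.iso y1 hy1n a
    rw [← lin_apply, hc] at h1
    have h2 := congrArg (· ^ 2) h1
    simp only [h.lin_norm, s.norm] at h2
    exact mul_right_cancel₀ (pow_ne_zero 2 (norm_ne_zero_iff.2 hy1n)) h2
  have hD : fderiv ℝ Φ y (lin A a y2) = lin A c (Φ y2) := by
    have h1 : Tt A τ (lin A a y2) = lin A a y1 := by
      rw [h.lin_Tt, hy2, h.Tt_neg]
    have h2 := s.flow_D h t hp hy τ (lin A a y2)
    rw [h1, ← hy1, hc] at h2
    have h3 : Tt A (-τ) (Tt A τ (fderiv ℝ Φ y (lin A a y2))) = Tt A (-τ) (lin A c (Φ y1)) := by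
      rw [← h2]
    rw [h.Tt_neg, h.lin_Tt, neg_neg, ← s.flow h t hp hy1n τ] at h3
    exact h3
  rw [hD]
  constructor
  · rw [h.lin_norm, h.lin_norm, hca, s.norm]
  · rw [h.om_lin_inner, h.om_lin_inner, hca, hp]

end SRHom

end Pool.Agent.Q185.SR
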