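import Pool.Agent.Q185.SR.Hom3

/-! The differential is orthogonal, hence the map is linear. -/

set_option linter.unusedSimpArgs false

namespace Pool.Agent.Q185.SR

open scoped RealInnerProductSpace ContDiff Topology

variable {E : Type*} [NormedAddCommGroup E] [InnerProductSpace ℝ E]

theorem Tt_two (A : Fin 4 → E →L[ℝ] E) (h : IsCl A) (τ : ℝ) (x : E) :
    Tt A τ (Tt A τ x) = (Real.exp (2 * τ)) • ((1 / 2 : ℝ) • (x + om A x)) +
      (Real.exp (-(2 * τ))) • ((1 / 2 : ℝ) • (x - om A x)) := by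
  have h1 : Real.exp (2 * τ) = Real.cosh (2 * τ) + Real.sinh (2 * τ) := (Real.cosh_add_sinh _).symm
  have h2 : Real.exp (-(2 * τ)) = Real.cosh (2 * τ) - Real.sinh (2 * τ) :=
    (Real.cosh_sub_sinh _).symm
  rw [h1, h2, Tt_apply, Tt_apply, map_add, map_smul, map_smul, h.om_sq, Real.cosh_two_mul,
    Real.sinh_two_mul]
  module

namespace SRHom

variable {A : Fin 4 → E →L[ℝ] E} {Φ : E → E} {b : OrthonormalBasis (Fin 8) ℝ E}

theorem quad_pm (s : SRHom A Φ) (h : IsCl A) (t : Tab A b)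
    (hp : ∀ y, ⟪om A (Φ y), Φ y⟫ = ⟪om A y, y⟫) {y : E} (hy : y ≠ 0) (a : Fin 4 → ℝ) {u : E}
    (hu : u = (1 / 2 : ℝ) • (y + om A y) ∨ u = (1 / 2 : ℝ) • (y - om A y)) :
    ‖fderiv ℝ Φ y (lin A a u)‖ ^ 2 = ‖lin A a u‖ ^ 2 ∧
    ⟪om A (fderiv ℝ Φ y (lin A a u)), fderiv ℝ Φ y (lin A a u)⟫ =
      ⟪om A (lin A a u), lin A a u⟫ := by
  set p := (1 / 2 : ℝ) • (y + om A y) with hpd
  set q := (1 / 2 : ℝ) • (y - om A y) with hqd
  set D := fderiv ℝ Φ y with hD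
  clear_value p q
  have H1 : ∀ r : ℝ, Real.exp r * (‖D (lin A a p)‖ ^ 2 - ‖lin A a p‖ ^ 2) +
      2 * (⟪D (lin A a p), D (lin A a q)⟫ - ⟪lin A a p, lin A a q⟫) +
      Real.exp (-r) * (‖D (lin A a q)‖ ^ 2 - ‖lin A a q‖ ^ 2) = 0 := by
    intro r
    have h1 := (s.flow_quad h t hp hy (r / 4) a).1
    rw [Tt_two A h] at h1
    rw [← hpd, ← hqd] at h1
    rw [← real_inner_self_eq_norm_sq, ← real_inner_self_eq_norm_sq, ← real_inner_self_eq_norm_sq,
      ← real_inner_self_eq_norm_sq]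
    rw [← real_inner_self_eq_norm_sq, ← real_inner_self_eq_norm_sq] at h1
    simp only [map_add, map_smul, inner_add_left, inner_add_right, inner_smul_left,
      inner_smul_right, RCLike.conj_to_real] at h1
    have c1 : ⟪D (lin A a q), D (lin A a p)⟫ = ⟪D (lin A a p), D (lin A a q)⟫ :=
      real_inner_comm _ _
    have c2 : ⟪lin A a q, lin A a p⟫ = ⟪lin A a p, lin A a q⟫ := real_inner_comm _ _
    rw [c1, c2] at h1
    have e1 : Real.exp (2 * (r / 4)) * Real.exp (2 * (r / 4)) = Real.exp r := by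
      rw [← Real.exp_add]; congr 1; ring
    have e2 : Real.exp (-(2 * (r / 4))) * Real.exp (-(2 * (r / 4))) = Real.exp (-r) := by
      rw [← Real.exp_add]; congr 1; ring
    have e3 : Real.exp (2 * (r / 4)) * Real.exp (-(2 * (r / 4))) = 1 := by
      rw [← Real.exp_add]; rw [show 2 * (r / 4) + -(2 * (r / 4)) = 0 by ring, Real.exp_zero]
    rw [← e1, ← e2]
    linear_combination h1 + (2 * (⟪lin A a p, lin A a q⟫ - ⟪D (lin A a p), D (lin A a q)⟫)) * e3
  have H2 : ∀ r : ℝ, Real.exp r * (⟪om A (D (lin A a p)), D (lin A a p)⟫ -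
        ⟪om A (lin A a p), lin A a p⟫) +
      2 * (⟪om A (D (lin A a p)), D (lin A a q)⟫ - ⟪om A (lin A a p), lin A a q⟫) +
      Real.exp (-r) * (⟪om A (D (lin A a q)), D (lin A a q)⟫ -
        ⟪om A (lin A a q), lin A a q⟫) = 0 := by
    intro r
    have h1 := (s.flow_quad h t hp hy (r / 4) a).2
    rw [Tt_two A h] at h1
    rw [← hpd, ← hqd] at h1
    simp only [map_add, map_smul, inner_add_left, inner_add_right, inner_smul_left,
      inner_smul_right, RCLike.conj_to_real] at h1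
    have c1 : ⟪om A (fderiv ℝ Φ y (lin A a q)), fderiv ℝ Φ y (lin A a p)⟫ =
        ⟪om A (fderiv ℝ Φ y (lin A a p)), fderiv ℝ Φ y (lin A a q)⟫ := by
      rw [h.om_symm, real_inner_comm]
    have c2 : ⟪om A (lin A a q), lin A a p⟫ = ⟪om A (lin A a p), lin A a q⟫ := by
      rw [h.om_symm, real_inner_comm]
    rw [c1, c2] at h1
    have e1 : Real.exp (2 * (r / 4)) * Real.exp (2 * (r / 4)) = Real.exp r := by
      rw [← Real.exp_add]; congr 1; ring
    have e2 : Real.exp (-(2 * (r / 4))) * Real.exp (-(2 * (r / 4))) = Real.exp (-r) := by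
      rw [← Real.exp_add]; congr 1; ring
    have e3 : Real.exp (2 * (r / 4)) * Real.exp (-(2 * (r / 4))) = 1 := by
      rw [← Real.exp_add]; rw [show 2 * (r / 4) + -(2 * (r / 4)) = 0 by ring, Real.exp_zero]
    rw [← e1, ← e2]
    linear_combination h1 + (2 * (⟪om A (lin A a p), lin A a q⟫ -
      ⟪om A (D (lin A a p)), D (lin A a q)⟫)) * e3
  obtain ⟨a1, a2⟩ := quad_zero H1
  obtain ⟨b1, b2⟩ := quad_zero H2
  rcases hu with hu | hu
  · rw [hu]; exact ⟨by linarith, by linarith⟩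
  · rw [hu]; exact ⟨by linarith, by linarith⟩

theorem D_minus (s : SRHom A Φ) (h : IsCl A) (t : Tab A b)
    (hp : ∀ y, ⟪om A (Φ y), Φ y⟫ = ⟪om A y, y⟫) {y : E} (hy : y ≠ 0) (hy1 : y + om A y ≠ 0)
    {x : E} (hx : om A x = - x) :
    ‖fderiv ℝ Φ y x‖ ^ 2 = ‖x‖ ^ 2 ∧ om A (fderiv ℝ Φ y x) = - fderiv ℝ Φ y x := by
  set u := (1 / 2 : ℝ) • (y + om A y) with hu
  have hun : u ≠ 0 := smul_ne_zero (by norm_num) hy1
  have huom : om A u = u := by rw [hu, map_smul, map_add, h.om_sq, add_comm]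
  have hn : ‖u‖ ^ 2 ≠ 0 := pow_ne_zero 2 (norm_ne_zero_iff.2 hun)
  have hx2 : x = lin A (fun k => (‖u‖ ^ 2)⁻¹ * ⟪x, A k u⟫) u := by
    have h1 := t.span_minus h huom hx
    rw [lin_apply, Fin.sum_univ_four]
    simp only [mul_smul]
    rw [← smul_add, ← smul_add, ← smul_add, ← h1, smul_smul, inv_mul_cancel₀ hn, one_smul]
  have h2 := s.quad_pm h t hp hy (fun k => (‖u‖ ^ 2)⁻¹ * ⟪x, A k u⟫) (Or.inl hu)
  rw [← hx2] at h2
  refine ⟨h2.1, ?_⟩
  have h3 : ‖om A (fderiv ℝ Φ y x) + fderiv ℝ Φ y x‖ ^ 2 = 0 := by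
    rw [norm_add_sq_real, h.om_norm, h2.2, hx, inner_neg_left, real_inner_self_eq_norm_sq, h2.1]
    ring
  have h4 : om A (fderiv ℝ Φ y x) + fderiv ℝ Φ y x = 0 := norm_eq_zero.1 (by simpa using h3)
  exact eq_neg_of_add_eq_zero_left h4

theorem D_plus (s : SRHom A Φ) (h : IsCl A) (t : Tab A b)
    (hp : ∀ y, ⟪om A (Φ y), Φ y⟫ = ⟪om A y, y⟫) {y : E} (hy : y ≠ 0) (hy1 : y - om A y ≠ 0)
    {x : E} (hx : om A x = x) :
    ‖fderiv ℝ Φ y x‖ ^ 2 = ‖x‖ ^ 2 ∧ om A (fderiv ℝ Φ y x) = fderiv ℝ Φ y x := by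
  set u := (1 / 2 : ℝ) • (y - om A y) with hu
  have hun : u ≠ 0 := smul_ne_zero (by norm_num) hy1
  have huom : om A u = -u := by rw [hu, map_smul, map_sub, h.om_sq]; module
  have hn : ‖u‖ ^ 2 ≠ 0 := pow_ne_zero 2 (norm_ne_zero_iff.2 hun)
  have hx2 : x = lin A (fun k => (‖u‖ ^ 2)⁻¹ * ⟪x, A k u⟫) u := by
    have h1 := t.span_plus h huom hx
    rw [lin_apply, Fin.sum_univ_four]
    simp only [mul_smul]
    rw [← smul_add, ← smul_add, ← smul_add, ← h1, smul_smul, inv_mul_cancel₀ hn, one_smul]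
  have h2 := s.quad_pm h t hp hy (fun k => (‖u‖ ^ 2)⁻¹ * ⟪x, A k u⟫) (Or.inr hu)
  rw [← hx2] at h2
  refine ⟨h2.1, ?_⟩
  have h3 : ‖om A (fderiv ℝ Φ y x) - fderiv ℝ Φ y x‖ ^ 2 = 0 := by
    rw [norm_sub_sq_real, h.om_norm, h2.2, hx, real_inner_self_eq_norm_sq, h2.1]
    ring
  have h4 : om A (fderiv ℝ Φ y x) - fderiv ℝ Φ y x = 0 := norm_eq_zero.1 (by simpa using h3)
  exact sub_eq_zero.1 h4

theorem D_norm_generic (s : SRHom A Φ) (h : IsCl A) (t : Tab A b)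
    (hp : ∀ y, ⟪om A (Φ y), Φ y⟫ = ⟪om A y, y⟫) {y : E} (hy : y ≠ 0) (hy1 : y + om A y ≠ 0)
    (hy2 : y - om A y ≠ 0) (η : E) : ‖fderiv ℝ Φ y η‖ ^ 2 = ‖η‖ ^ 2 := by
  set p := (1 / 2 : ℝ) • (η + om A η) with hpd
  set q := (1 / 2 : ℝ) • (η - om A η) with hqd
  have hpo : om A p = p := by rw [hpd, map_smul, map_add, h.om_sq, add_comm]
  have hqo : om A q = -q := by rw [hqd, map_smul, map_sub, h.om_sq]; module
  have hη : η = p + q := by rw [hpd, hqd]; module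
  obtain ⟨p1, p2⟩ := s.D_plus h t hp hy hy2 hpo
  obtain ⟨q1, q2⟩ := s.D_minus h t hp hy hy1 hqo
  have orth : ∀ u v : E, om A u = u → om A v = - v → ⟪u, v⟫ = 0 := by
    intro u v hu hv
    have h1 : ⟪om A u, v⟫ = ⟪u, om A v⟫ := h.om_symm u v
    rw [hu, hv, inner_neg_right] at h1
    linarith
  rw [hη, map_add, norm_add_sq_real, norm_add_sq_real, orth _ _ p2 q2, orth _ _ hpo hqo, p1, q1]

theorem D_norm (s : SRHom A Φ) (h : IsCl A) (t : Tab A b)
    (hp : ∀ y, ⟪om A (Φ y), Φ y⟫ = ⟪om A y, y⟫) {y : E} (hy : y ≠ 0) (η : E) :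
    ‖fderiv ℝ Φ y η‖ ^ 2 = ‖η‖ ^ 2 := by
  by_cases hgen : y + om A y ≠ 0 ∧ y - om A y ≠ 0
  · exact s.D_norm_generic h t hp hy hgen.1 hgen.2 η
  -- perturb in the direction `A 0 y`
  have hw : A 0 y ≠ 0 := by
    rw [← norm_ne_zero_iff, h.norm_eq]; exact norm_ne_zero_iff.2 hy
  have hcont : Filter.Tendsto (fun τ : ℝ => ‖fderiv ℝ Φ (y + τ • A 0 y) η‖ ^ 2) (𝓝[≠] 0)
      (𝓝 (‖fderiv ℝ Φ y η‖ ^ 2)) := by
    have h1 : ContinuousAt (fun τ : ℝ => y + τ • A 0 y) 0 := by fun_prop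
    have h2 : ContinuousAt (fderiv ℝ Φ) (y + (0 : ℝ) • A 0 y) := by
      rw [zero_smul, add_zero]
      exact (s.smooth_fderiv hy).continuousAt
    have h3 : ContinuousAt (fun τ : ℝ => fderiv ℝ Φ (y + τ • A 0 y)) 0 :=
      ContinuousAt.comp (f := fun τ : ℝ => y + τ • A 0 y) h2 h1
    have h4 : ContinuousAt (fun τ : ℝ => ‖fderiv ℝ Φ (y + τ • A 0 y) η‖ ^ 2) 0 :=
      ((h3.clm_apply continuousAt_const).norm).pow 2
    have h5 := h4.tendsto
    simp only [zero_smul, add_zero] at h5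
    exact h5.mono_left nhdsWithin_le_nhds
  have hev : (fun τ : ℝ => ‖fderiv ℝ Φ (y + τ • A 0 y) η‖ ^ 2) =ᶠ[𝓝[≠] 0] fun _ => ‖η‖ ^ 2 := by
    filter_upwards [self_mem_nhdsWithin] with τ hτ
    have hτ0 : τ ≠ 0 := hτ
    have e0 : om A (y + τ • A 0 y) = om A y - τ • A 0 (om A y) := by
      rw [map_add, map_smul, h.om_anti]; module
    have hind : ∀ u : E, (u = y ∨ u = -y) → om A y = u →
        (y + τ • A 0 y) + om A (y + τ • A 0 y) ≠ 0 ∧
        (y + τ • A 0 y) - om A (y + τ • A 0 y) ≠ 0 := by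
      intro u hu ho
      rcases hu with hu | hu
      · rw [e0, ho, hu]
        constructor
        · have : y + τ • A 0 y + (y - τ • A 0 y) = (2 : ℝ) • y := by module
          rw [this]; exact smul_ne_zero two_ne_zero hy
        · have : y + τ • A 0 y - (y - τ • A 0 y) = (2 * τ) • A 0 y := by module
          rw [this]; exact smul_ne_zero (mul_ne_zero two_ne_zero hτ0) hw
      · rw [e0, ho, hu, map_neg]
        constructor
        · have : y + τ • A 0 y + (-y - τ • -(A 0 y)) = (2 * τ) • A 0 y := by module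
          rw [this]; exact smul_ne_zero (mul_ne_zero two_ne_zero hτ0) hw
        · have : y + τ • A 0 y - (-y - τ • -(A 0 y)) = (2 : ℝ) • y := by module
          rw [this]; exact smul_ne_zero two_ne_zero hy
    have hcase : om A y = y ∨ om A y = - y := by
      by_contra hcon
      rw [not_or] at hcon
      apply hgen
      refine ⟨fun h0 => hcon.2 (eq_neg_of_add_eq_zero_right h0), fun h0 => hcon.1 ?_⟩
      exact (sub_eq_zero.1 h0).symm
    have hkey : (y + τ • A 0 y) + om A (y + τ • A 0 y) ≠ 0 ∧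
        (y + τ • A 0 y) - om A (y + τ • A 0 y) ≠ 0 := by
      rcases hcase with hc | hc
      · exact hind y (Or.inl rfl) hc
      · exact hind (-y) (Or.inr rfl) hc
    have hne : y + τ • A 0 y ≠ 0 := by
      intro h0
      apply hkey.1
      rw [h0, map_zero, add_zero]
    exact s.D_norm_generic h t hp hne hkey.1 hkey.2 η
  exact tendsto_nhds_unique (hcont.congr' hev) tendsto_const_nhds |>.symm ▸ rfl

end SRHom

end Pool.Agent.Q185.SR
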