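import Pool.Agent.Q185.SR.Hom4

/-! Linearity and the normaliser property. -/

set_option linter.unusedSimpArgs false

namespace Pool.Agent.Q185.SR

open scoped RealInnerProductSpace ContDiff Topology

variable {E : Type*} [NormedAddCommGroup E] [InnerProductSpace ℝ E]

namespace SRHom

variable {A : Fin 4 → E →L[ℝ] E} {Φ : E → E} {b : OrthonormalBasis (Fin 8) ℝ E}

theorem D_inner (s : SRHom A Φ) (h : IsCl A) (t : Tab A b)
    (hp : ∀ y, ⟪om A (Φ y), Φ y⟫ = ⟪om A y, y⟫) {y : E} (hy : y ≠ 0) (η ζ : E) :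
    ⟪fderiv ℝ Φ y η, fderiv ℝ Φ y ζ⟫ = ⟪η, ζ⟫ := by
  have h1 := s.D_norm h t hp hy (η + ζ)
  rw [map_add, norm_add_sq_real, norm_add_sq_real, s.D_norm h t hp hy, s.D_norm h t hp hy] at h1
  linarith

theorem D2_zero (s : SRHom A Φ) (h : IsCl A) (t : Tab A b)
    (hp : ∀ y, ⟪om A (Φ y), Φ y⟫ = ⟪om A y, y⟫) {y : E} (hy : y ≠ 0) :
    fderiv ℝ (fderiv ℝ Φ) y = 0 := by
  have : FiniteDimensional ℝ E := b.toBasis.finiteDimensional_of_finite
  have hD : HasFDerivAt (fderiv ℝ Φ) (fderiv ℝ (fderiv ℝ Φ) y) y :=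
    ((s.smooth_fderiv hy).differentiableAt (by simp)).hasFDerivAt
  have hsym : IsSymmSndFDerivAt ℝ Φ y :=
    (s.smooth y hy).isSymmSndFDerivAt (by simp; exact WithTop.coe_le_coe.2 le_top)
  set D := fderiv ℝ Φ y with hDd
  set D2 := fderiv ℝ (fderiv ℝ Φ) y with hD2d
  have hsym' : ∀ u v, D2 u v = D2 v u := fun u v => hsym u v
  have key : ∀ ζ η η' : E, ⟪D2 ζ η, D η'⟫ + ⟪D η, D2 ζ η'⟫ = 0 := by
    intro ζ η η'
    have e1 : HasFDerivAt (fun y => fderiv ℝ Φ y η) (D2.flip η) y := by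
      have := hD.clm_apply (hasFDerivAt_const η y)
      simpa using this
    have e2 : HasFDerivAt (fun y => fderiv ℝ Φ y η') (D2.flip η') y := by
      have := hD.clm_apply (hasFDerivAt_const η' y)
      simpa using this
    have e3 := e1.inner ℝ e2
    have e4 : HasFDerivAt (fun _ : E => ⟪η, η'⟫) (0 : E →L[ℝ] ℝ) y := hasFDerivAt_const _ _
    have e5 : (fun y => ⟪fderiv ℝ Φ y η, fderiv ℝ Φ y η'⟫) =ᶠ[𝓝 y] fun _ => ⟪η, η'⟫ := by
      filter_upwards [isOpen_ne.mem_nhds hy] with y' hy'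
      exact s.D_inner h t hp hy' η η'
    have e6 := congrArg (fun L : E →L[ℝ] ℝ => L ζ) (e3.unique (e4.congr_of_eventuallyEq e5))
    simp only [ContinuousLinearMap.comp_apply, ContinuousLinearMap.prod_apply,
      fderivInnerCLM_apply, ContinuousLinearMap.flip_apply, zero_apply] at e6
    linarith
  -- the braid argument
  have T0 : ∀ ζ η η' : E, ⟪D2 ζ η, D η'⟫ = 0 := by
    have anti : ∀ ζ η η', ⟪D2 ζ η, D η'⟫ = - ⟪D2 ζ η', D η⟫ := by
      intro ζ η η'
      have := key ζ η η'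
      rw [real_inner_comm (D2 ζ η') (D η)] at this
      linarith
    intro ζ η η'
    have h1 : ⟪D2 ζ η, D η'⟫ = - ⟪D2 ζ η, D η'⟫ := by
      calc ⟪D2 ζ η, D η'⟫ = ⟪D2 η ζ, D η'⟫ := by rw [hsym' ζ η]
        _ = - ⟪D2 η η', D ζ⟫ := anti _ _ _
        _ = - ⟪D2 η' η, D ζ⟫ := by rw [hsym' η η']
        _ = ⟪D2 η' ζ, D η⟫ := by rw [anti η' η ζ, neg_neg]
        _ = ⟪D2 ζ η', D η⟫ := by rw [hsym' η' ζ]
        _ = - ⟪D2 ζ η, D η'⟫ := anti _ _ _
    linarith
  have hinj : Function.Injective D.toLinearMap := by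
    rw [injective_iff_map_eq_zero]
    intro u hu
    have h1 := s.D_norm h t hp hy u
    have h2 : fderiv ℝ Φ y u = 0 := hu
    rw [h2, norm_zero] at h1
    exact norm_eq_zero.1 (by
      have : ‖u‖ ^ 2 = 0 := by rw [← h1]; norm_num
      simpa using this)
  have hsurj : Function.Surjective D.toLinearMap := LinearMap.injective_iff_surjective.1 hinj
  ext ζ η
  obtain ⟨η', hη'⟩ := hsurj (D2 ζ η)
  have h1 := T0 ζ η η'
  have h2 : D η' = D2 ζ η := hη'
  rw [h2] at h1
  rw [zero_apply, zero_apply]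
  exact inner_self_eq_zero.1 h1

theorem linear_plus (s : SRHom A Φ) (h : IsCl A) (t : Tab A b)
    (hp : ∀ y, ⟪om A (Φ y), Φ y⟫ = ⟪om A y, y⟫) : ∃ L : E →L[ℝ] E, ∀ y, Φ y = L y := by
  have : FiniteDimensional ℝ E := b.toBasis.finiteDimensional_of_finite
  have h8 : Module.finrank ℝ E = 8 := by
    rw [Module.finrank_eq_card_basis b.toBasis]; simp
  have : Nontrivial E := Module.nontrivial_of_finrank_pos (R := ℝ) (by rw [h8]; norm_num)
  have hrank : 1 < Module.rank ℝ E := by
    rw [← Module.finrank_eq_rank, h8]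
    norm_num
  have hpc : IsPreconnected ({(0 : E)}ᶜ) :=
    (isPathConnected_compl_singleton_of_one_lt_rank hrank 0).isConnected.isPreconnected
  obtain ⟨y0, hy0⟩ := exists_ne (0 : E)
  refine ⟨fderiv ℝ Φ y0, fun y => ?_⟩
  by_cases hy : y = 0
  · rw [hy, map_zero]
    exact norm_eq_zero.1 (by rw [s.norm, norm_zero])
  · have h1 : fderiv ℝ Φ y = fderiv ℝ Φ y0 := by
      refine isOpen_compl_singleton.is_const_of_fderiv_eq_zero hpc (𝕜 := ℝ) (f := fderiv ℝ Φ) ?_ ?_
        hy hy0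
      · intro z hz
        exact ((s.smooth_fderiv hz).differentiableAt (by simp)).differentiableWithinAt
      · intro z hz
        exact s.D2_zero h t hp hz
    rw [← h1, s.euler hy]

/-- Composition with the first operator. -/
theorem comp_A (s : SRHom A Φ) (h : IsCl A) : SRHom A (fun y => A 0 (Φ y)) := by
  have hfd : ∀ y, y ≠ 0 → fderiv ℝ (fun y => A 0 (Φ y)) y = (A 0).comp (fderiv ℝ Φ y) :=
    fun y hy => ((A 0).hasFDerivAt.comp y (s.hasFDerivAt hy)).fderiv
  refine ⟨fun y hy => ?_, fun r hr y => ?_, fun y => ?_, fun y hy k => ?_, fun y hy a => ?_⟩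
  · exact (A 0).contDiff.contDiffAt.comp y (s.smooth y hy)
  · simp only [s.homog r hr, map_smul]
  · simp only [h.norm_eq, s.norm]
  · obtain ⟨c, hc⟩ := s.hor y hy k
    refine ⟨![c 0, - c 1, - c 2, - c 3], ?_⟩
    rw [hfd y hy, ContinuousLinearMap.comp_apply, hc, Fin.sum_univ_four, Fin.sum_univ_four]
    simp only [map_add, map_smul, h.sq, h.s10, h.s20, h.s30, Matrix.cons_val_zero,
      Matrix.cons_val_one, Matrix.cons_val]
    module
  · rw [hfd y hy, ContinuousLinearMap.comp_apply, h.norm_eq]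
    exact s.iso y hy a

theorem linear (s : SRHom A Φ) (h : IsCl A) (t : Tab A b) : ∃ L : E →L[ℝ] E, ∀ y, Φ y = L y := by
  rcases s.sign_const h t with hp | hm
  · exact s.linear_plus h t hp
  · obtain ⟨L, hL⟩ := (s.comp_A h).linear_plus h t (fun y => by
      rw [h.om_anti, inner_neg_left, h.isom, hm, neg_neg])
    refine ⟨-((A 0).comp L), fun y => ?_⟩
    have h1 := hL y
    rw [neg_apply, ContinuousLinearMap.comp_apply, ← h1, h.sq, neg_neg]

end SRHom

/-- A linear map which preserves the horizontal space at every point and commutes with `om`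
normalises the span of the four operators. -/
theorem normalise_plus {A : Fin 4 → E →L[ℝ] E} (h : IsCl A) {L : E →L[ℝ] E}
    (hL : ∀ x, L x = 0 → x = 0) (hom : ∀ x, L (om A x) = om A (L x))
    (hne : ∃ e : E, e ≠ 0 ∧ om A e = e) (k : Fin 4)
    (hhor : ∀ y, ∃ c : Fin 4 → ℝ, L (A k y) = lin A c (L y)) :
    ∃ c : Fin 4 → ℝ, ∀ y, L (A k y) = lin A c (L y) := by
  obtain ⟨e, he, heo⟩ := hne
  -- splitting the relation
  have split : ∀ u v : E, om A u = u → om A v = - v → ∀ c : Fin 4 → ℝ,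
      L (A k (u + v)) = lin A c (L (u + v)) → L (A k u) = lin A c (L u) ∧
        L (A k v) = lin A c (L v) := by
    intro u v hu hv c hc
    rw [map_add, map_add, map_add, map_add] at hc
    have e1 := congrArg (om A) hc
    rw [map_add, map_add, ← hom, ← hom, h.om_anti, h.om_anti, hu, hv, h.om_lin, h.om_lin,
      ← hom, ← hom, hu, hv] at e1
    simp only [map_neg, neg_neg] at e1
    constructor
    · have e2 : (2 : ℝ) • L (A k u) = (2 : ℝ) • lin A c (L u) := by
        have : (2 : ℝ) • L (A k u) = (L (A k u) + L (A k v)) - (-(L (A k u)) + L (A k v)) := by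
          module
        rw [this, hc, e1]; module
      exact smul_right_injective E two_ne_zero e2
    · have e2 : (2 : ℝ) • L (A k v) = (2 : ℝ) • lin A c (L v) := by
        have : (2 : ℝ) • L (A k v) = (L (A k u) + L (A k v)) + (-(L (A k u)) + L (A k v)) := by
          module
        rw [this, hc, e1]; module
      exact smul_right_injective E two_ne_zero e2
  have uniq : ∀ x : E, x ≠ 0 → ∀ c d : Fin 4 → ℝ, lin A c (L x) = lin A d (L x) → c = d := by
    intro x hx c d hcd
    have h1 : lin A (c - d) (L x) = 0 := by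
      have : lin A (c - d) (L x) = lin A c (L x) - lin A d (L x) := by
        simp only [lin_apply, Pi.sub_apply, sub_smul, Finset.sum_sub_distrib]
      rw [this, hcd, sub_self]
    have h2 := h.lin_norm (c - d) (L x)
    rw [h1, norm_zero] at h2
    have h3 : ‖L x‖ ^ 2 ≠ 0 := pow_ne_zero 2 (norm_ne_zero_iff.2 fun h0 => hx (hL x h0))
    have h4 : ∑ k, (c - d) k ^ 2 = 0 := by
      rcases mul_eq_zero.1 (h2.symm.trans (by norm_num)) with h5 | h5
      · exact h5
      · exact absurd h5 h3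
    funext j
    have h5 := (Finset.sum_eq_zero_iff_of_nonneg (fun i _ => sq_nonneg ((c - d) i))).1 h4 j
      (Finset.mem_univ j)
    have h6 : (c - d) j = 0 := by simpa using h5
    exact sub_eq_zero.1 h6
  set e' := A 0 e with he'
  have he'0 : e' ≠ 0 := by rw [← norm_ne_zero_iff, he', h.norm_eq]; exact norm_ne_zero_iff.2 he
  have he'o : om A e' = - e' := by rw [he', h.om_anti, heo]
  obtain ⟨c, hc⟩ := hhor (e + e')
  obtain ⟨hc1, hc2⟩ := split e e' heo he'o c hc
  refine ⟨c, fun y => ?_⟩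
  -- plus part
  have hplus : ∀ u : E, om A u = u → L (A k u) = lin A c (L u) := by
    intro u hu
    obtain ⟨d, hd⟩ := hhor (u + e')
    obtain ⟨hd1, hd2⟩ := split u e' hu he'o d hd
    have : d = c := uniq e' he'0 d c (by rw [← hd2, ← hc2])
    rw [hd1, this]
  have hminus : ∀ v : E, om A v = - v → L (A k v) = lin A c (L v) := by
    intro v hv
    obtain ⟨d, hd⟩ := hhor (e + v)
    obtain ⟨hd1, hd2⟩ := split e v heo hv d hd
    have : d = c := uniq e he d c (by rw [← hd1, ← hc1])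
    rw [hd2, this]
  have hy : y = (1 / 2 : ℝ) • (y + om A y) + (1 / 2 : ℝ) • (y - om A y) := by module
  rw [hy, map_add, map_add, map_add, map_add, hplus, hminus]
  · rw [map_smul, map_sub, h.om_sq]; module
  · rw [map_smul, map_add, h.om_sq, add_comm]

theorem SRHom.rigid {A : Fin 4 → E →L[ℝ] E} {Φ : E → E} {b : OrthonormalBasis (Fin 8) ℝ E}
    (s : SRHom A Φ) (h : IsCl A) (t : Tab A b) :
    ∃ L : E →L[ℝ] E, (∀ y, Φ y = L y) ∧ (∀ y, ‖L y‖ = ‖y‖) ∧
      ∀ k, ∃ c : Fin 4 → ℝ, ∀ y, L (A k y) = lin A c (L y) := by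
  have h8 : Module.finrank ℝ E = 8 := by
    rw [Module.finrank_eq_card_basis b.toBasis]; simp
  have : Nontrivial E := Module.nontrivial_of_finrank_pos (R := ℝ) (by rw [h8]; norm_num)
  obtain ⟨e, hen, heo⟩ := h.exists_fix
  have he0 : e ≠ 0 := by rw [← norm_ne_zero_iff, hen]; exact one_ne_zero
  have main : ∀ (Ψ : E → E) (M : E →L[ℝ] E), SRHom A Ψ →
      (∀ y, ⟪om A (Ψ y), Ψ y⟫ = ⟪om A y, y⟫) → (∀ y, Ψ y = M y) →
      ∀ k, ∃ c : Fin 4 → ℝ, ∀ y, M (A k y) = lin A c (M y) := by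
    intro Ψ M s hp hM k
    have hfun : Ψ = M := funext hM
    have hfd : ∀ y, fderiv ℝ Ψ y = M := fun y => by rw [hfun]; exact M.fderiv
    refine normalise_plus h (fun x hx => ?_) (fun x => ?_) ⟨e, he0, heo⟩ k (fun y => ?_)
    · have h1 := s.norm x
      rw [hM, hx, norm_zero] at h1
      exact norm_eq_zero.1 h1.symm
    · by_cases hx : x = 0
      · rw [hx]; simp
      · have h1 := s.D_om h t hp hx
        rw [hfd, hM] at h1
        exact h1
    · by_cases hy : y = 0
      · exact ⟨0, by rw [hy]; simp⟩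
      · obtain ⟨c, hc⟩ := s.hor y hy k
        refine ⟨c, ?_⟩
        rw [hfd, hM] at hc
        rw [hc, lin_apply]
  obtain ⟨L, hL⟩ := s.linear h t
  refine ⟨L, hL, fun y => by rw [← hL, s.norm], ?_⟩
  rcases s.sign_const h t with hp | hm
  · exact main Φ L s hp hL
  · intro k
    obtain ⟨c, hc⟩ := main (fun y => A 0 (Φ y)) ((A 0).comp L) (s.comp_A h) (fun y => by
      rw [h.om_anti, inner_neg_left, h.isom, hm, neg_neg]) (fun y => by
        rw [ContinuousLinearMap.comp_apply, hL]) k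
    refine ⟨![c 0, - c 1, - c 2, - c 3], fun y => ?_⟩
    have h1 := congrArg (A 0) (hc y)
    rw [ContinuousLinearMap.comp_apply, h.sq, ContinuousLinearMap.comp_apply, lin_apply,
      Fin.sum_univ_four] at h1
    simp only [map_add, map_smul, h.sq, h.s10, h.s20, h.s30, map_neg, smul_neg, neg_neg] at h1
    rw [lin_apply, Fin.sum_univ_four]
    simp only [Matrix.cons_val_zero, Matrix.cons_val_one, Matrix.cons_val]
    have h2 : L (A k y) = -(-(L (A k y))) := by rw [neg_neg]
    rw [h2, h1]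
    module

end Pool.Agent.Q185.SR
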