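import Pool.Agent.Q185.SR.Hom5

/-! The group of orthogonal maps normalising the quadruple and its Lie algebra. -/

set_option linter.unusedSimpArgs false

namespace Pool.Agent.Q185.SR

open scoped RealInnerProductSpace ContDiff Topology

variable {E : Type*} [NormedAddCommGroup E] [InnerProductSpace ℝ E]

/-- Linear isometries `O` with `O A_k = (combination of the A_l) O`. -/
def GSet (A : Fin 4 → E →L[ℝ] E) : Set (E →L[ℝ] E) :=
  {O | (∀ x, ‖O x‖ = ‖x‖) ∧
    ∀ k, ∃ c : Fin 4 → ℝ, ∀ x, O (A k x) = ∑ l, c l • A l (O x)}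

/-- Skew maps `B` whose commutators with the `A_k` are combinations of the `A_l`. -/
def gAlg (A : Fin 4 → E →L[ℝ] E) : Submodule ℝ (E →L[ℝ] E) where
  carrier := {B | (∀ x, ⟪B x, x⟫ = 0) ∧
    ∀ k, ∃ c : Fin 4 → ℝ, ∀ x, B (A k x) - A k (B x) = ∑ l, c l • A l x}
  zero_mem' := by
    refine ⟨fun x => by simp, fun k => ⟨0, fun x => by simp⟩⟩
  add_mem' := by
    rintro B C ⟨hB1, hB2⟩ ⟨hC1, hC2⟩
    refine ⟨fun x => ?_, fun k => ?_⟩
    · rw [add_apply, inner_add_left, hB1, hC1, add_zero]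
    · obtain ⟨c, hc⟩ := hB2 k
      obtain ⟨d, hd⟩ := hC2 k
      refine ⟨c + d, fun x => ?_⟩
      rw [add_apply, add_apply, map_add]
      simp only [Pi.add_apply, add_smul, Finset.sum_add_distrib]
      rw [← hc, ← hd]
      abel
  smul_mem' := by
    rintro r B ⟨hB1, hB2⟩
    refine ⟨fun x => ?_, fun k => ?_⟩
    · rw [smul_apply, inner_smul_left, hB1, mul_zero]
    · obtain ⟨c, hc⟩ := hB2 k
      refine ⟨r • c, fun x => ?_⟩
      rw [smul_apply, smul_apply, map_smul, ← smul_sub, hc, Finset.smul_sum]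
      simp only [Pi.smul_apply, smul_eq_mul, mul_smul]

theorem mem_gAlg {A : Fin 4 → E →L[ℝ] E} {B : E →L[ℝ] E} : B ∈ gAlg A ↔
    (∀ x, ⟪B x, x⟫ = 0) ∧
    ∀ k, ∃ c : Fin 4 → ℝ, ∀ x, B (A k x) - A k (B x) = ∑ l, c l • A l x := Iff.rfl

theorem gAlg_skew {A : Fin 4 → E →L[ℝ] E} {B : E →L[ℝ] E} (hB : B ∈ gAlg A) (x y : E) :
    ⟪B x, y⟫ = - ⟪x, B y⟫ := by
  have h1 := hB.1 (x + y)
  rw [map_add, inner_add_left, inner_add_right, inner_add_right, hB.1 x, hB.1 y,
    real_inner_comm x (B y)] at h1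
  linarith

/-- The commutator coefficients. -/
noncomputable def cc (A : Fin 4 → E →L[ℝ] E) (e : E) (B : E →L[ℝ] E) (l k : Fin 4) : ℝ :=
  ⟪A l e, B (A k e) - A k (B e)⟫

theorem cc_eq {A : Fin 4 → E →L[ℝ] E} (h : IsCl A) {B : E →L[ℝ] E} (hB : B ∈ gAlg A) {e : E}
    (he : ‖e‖ = 1) (k : Fin 4) (x : E) :
    B (A k x) - A k (B x) = ∑ l, cc A e B l k • A l x := by
  obtain ⟨c, hc⟩ := hB.2 k
  have h1 : ∀ l, cc A e B l k = c l := by
    intro l
    unfold cc
    rw [hc, inner_sum]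
    simp only [inner_smul_right, h.inner_ite, mul_ite, mul_zero, Finset.sum_ite_eq,
      Finset.mem_univ, if_true, he]
    norm_num
  simp only [h1]
  exact hc x

theorem cc_anti {A : Fin 4 → E →L[ℝ] E} (h : IsCl A) {B : E →L[ℝ] E} (hB : B ∈ gAlg A) (e : E)
    (l k : Fin 4) : cc A e B l k = - cc A e B k l := by
  unfold cc
  rw [inner_sub_right, inner_sub_right]
  have h1 : ⟪A k e, B (A l e)⟫ = - ⟪A l e, B (A k e)⟫ := by
    have := gAlg_skew hB (A k e) (A l e)
    rw [real_inner_comm] at this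
    linarith
  have h2 : ⟪A l e, A k (B e)⟫ = - ⟪A k (A l e), B e⟫ := by
    have := h.skew k (A l e) (B e)
    linarith
  have h3 : ⟪A k e, A l (B e)⟫ = - ⟪A l (A k e), B e⟫ := by
    have := h.skew l (A k e) (B e)
    linarith
  have h4 : ⟪A k (A l e), B e⟫ + ⟪A l (A k e), B e⟫ = 0 := by
    rw [← inner_add_left, h.rel k l e]
    split_ifs
    · rw [inner_smul_left, real_inner_comm, hB.1, mul_zero]
    · rw [inner_zero_left]
  rw [h1, h2, h3]
  linarith

/-- A skew map given by a table. -/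
noncomputable def el (b : OrthonormalBasis (Fin 8) ℝ E) (i j : Fin 8) : E →L[ℝ] E :=
  (innerSL ℝ (b i)).smulRight (b j)

theorem el_apply (b : OrthonormalBasis (Fin 8) ℝ E) (i j : Fin 8) (x : E) :
    el b i j x = ⟪b i, x⟫ • b j := rfl

noncomputable def J1 (b : OrthonormalBasis (Fin 8) ℝ E) : E →L[ℝ] E :=
  el b 0 1 - el b 1 0 + el b 2 3 - el b 3 2 - el b 4 5 + el b 5 4 + el b 6 7 - el b 7 6

noncomputable def J2 (b : OrthonormalBasis (Fin 8) ℝ E) : E →L[ℝ] E :=
  el b 0 2 - el b 1 3 - el b 2 0 + el b 3 1 - el b 4 6 - el b 5 7 + el b 6 4 + el b 7 5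

noncomputable def J3 (b : OrthonormalBasis (Fin 8) ℝ E) : E →L[ℝ] E :=
  el b 0 3 + el b 1 2 - el b 2 1 - el b 3 0 - el b 4 7 + el b 5 6 - el b 6 5 + el b 7 4

section

variable {A : Fin 4 → E →L[ℝ] E} {b : OrthonormalBasis (Fin 8) ℝ E}

theorem J1_comm (t : Tab A b) (h : IsCl A) (k : Fin 4) (x : E) : J1 b (A k x) = A k (J1 b x) := by
  fin_cases k <;>
  simp only [Fin.zero_eta, Fin.mk_one, Fin.reduceFinMk, J1, add_apply, sub_apply, el_apply,
    map_add, map_sub, map_smul,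
    t.c00 h, t.c01 h, t.c02 h, t.c03 h, t.c04 h, t.c05 h, t.c06 h, t.c07 h,
    t.c10 h, t.c11 h, t.c12 h, t.c13 h, t.c14 h, t.c15 h, t.c16 h, t.c17 h,
    t.c20 h, t.c21 h, t.c22 h, t.c23 h, t.c24 h, t.c25 h, t.c26 h, t.c27 h,
    t.c30 h, t.c31 h, t.c32 h, t.c33 h, t.c34 h, t.c35 h, t.c36 h, t.c37 h,
    t.a00, t.a01, t.a02, t.a03, t.a04, t.a05, t.a06, t.a07,
    t.a10, t.a11, t.a12, t.a13, t.a14, t.a15, t.a16, t.a17,
    t.a20, t.a21, t.a22, t.a23, t.a24, t.a25, t.a26, t.a27,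
    t.a30, t.a31, t.a32, t.a33, t.a34, t.a35, t.a36, t.a37] <;> module

theorem J2_comm (t : Tab A b) (h : IsCl A) (k : Fin 4) (x : E) : J2 b (A k x) = A k (J2 b x) := by
  fin_cases k <;>
  simp only [Fin.zero_eta, Fin.mk_one, Fin.reduceFinMk, J2, add_apply, sub_apply, el_apply,
    map_add, map_sub, map_smul,
    t.c00 h, t.c01 h, t.c02 h, t.c03 h, t.c04 h, t.c05 h, t.c06 h, t.c07 h,
    t.c10 h, t.c11 h, t.c12 h, t.c13 h, t.c14 h, t.c15 h, t.c16 h, t.c17 h,
    t.c20 h, t.c21 h, t.c22 h, t.c23 h, t.c24 h, t.c25 h, t.c26 h, t.c27 h,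
    t.c30 h, t.c31 h, t.c32 h, t.c33 h, t.c34 h, t.c35 h, t.c36 h, t.c37 h,
    t.a00, t.a01, t.a02, t.a03, t.a04, t.a05, t.a06, t.a07,
    t.a10, t.a11, t.a12, t.a13, t.a14, t.a15, t.a16, t.a17,
    t.a20, t.a21, t.a22, t.a23, t.a24, t.a25, t.a26, t.a27,
    t.a30, t.a31, t.a32, t.a33, t.a34, t.a35, t.a36, t.a37] <;> module

theorem J3_comm (t : Tab A b) (h : IsCl A) (k : Fin 4) (x : E) : J3 b (A k x) = A k (J3 b x) := by
  fin_cases k <;>
  simp only [Fin.zero_eta, Fin.mk_one, Fin.reduceFinMk, J3, add_apply, sub_apply, el_apply,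
    map_add, map_sub, map_smul,
    t.c00 h, t.c01 h, t.c02 h, t.c03 h, t.c04 h, t.c05 h, t.c06 h, t.c07 h,
    t.c10 h, t.c11 h, t.c12 h, t.c13 h, t.c14 h, t.c15 h, t.c16 h, t.c17 h,
    t.c20 h, t.c21 h, t.c22 h, t.c23 h, t.c24 h, t.c25 h, t.c26 h, t.c27 h,
    t.c30 h, t.c31 h, t.c32 h, t.c33 h, t.c34 h, t.c35 h, t.c36 h, t.c37 h,
    t.a00, t.a01, t.a02, t.a03, t.a04, t.a05, t.a06, t.a07,
    t.a10, t.a11, t.a12, t.a13, t.a14, t.a15, t.a16, t.a17,
    t.a20, t.a21, t.a22, t.a23, t.a24, t.a25, t.a26, t.a27,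
    t.a30, t.a31, t.a32, t.a33, t.a34, t.a35, t.a36, t.a37] <;> module

theorem bb (b : OrthonormalBasis (Fin 8) ℝ E) (i j : Fin 8) :
    ⟪b i, b j⟫ = if i = j then 1 else 0 := orthonormal_iff_ite.1 b.orthonormal i j

theorem J1_skew (b : OrthonormalBasis (Fin 8) ℝ E) (x : E) : ⟪J1 b x, x⟫ = 0 := by
  simp only [J1, add_apply, sub_apply, el_apply, inner_add_left, inner_sub_left, inner_smul_left,
    RCLike.conj_to_real]
  ring

theorem J2_skew (b : OrthonormalBasis (Fin 8) ℝ E) (x : E) : ⟪J2 b x, x⟫ = 0 := by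
  simp only [J2, add_apply, sub_apply, el_apply, inner_add_left, inner_sub_left, inner_smul_left,
    RCLike.conj_to_real]
  ring

theorem J3_skew (b : OrthonormalBasis (Fin 8) ℝ E) (x : E) : ⟪J3 b x, x⟫ = 0 := by
  simp only [J3, add_apply, sub_apply, el_apply, inner_add_left, inner_sub_left, inner_smul_left,
    RCLike.conj_to_real]
  ring

theorem comm_mem {J : E →L[ℝ] E} (hs : ∀ x, ⟪J x, x⟫ = 0) (hc : ∀ k x, J (A k x) = A k (J x)) :
    J ∈ gAlg A := by
  refine ⟨hs, fun k => ⟨0, fun x => ?_⟩⟩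
  rw [hc, sub_self]
  simp

theorem J1_mem (t : Tab A b) (h : IsCl A) : J1 b ∈ gAlg A := comm_mem (J1_skew b) (J1_comm t h)
theorem J2_mem (t : Tab A b) (h : IsCl A) : J2 b ∈ gAlg A := comm_mem (J2_skew b) (J2_comm t h)
theorem J3_mem (t : Tab A b) (h : IsCl A) : J3 b ∈ gAlg A := comm_mem (J3_skew b) (J3_comm t h)

theorem J1_b0 (b : OrthonormalBasis (Fin 8) ℝ E) : J1 b (b 0) = b 1 := by
  simp [J1, add_apply, sub_apply, el_apply, bb]

theorem J2_b0 (b : OrthonormalBasis (Fin 8) ℝ E) : J2 b (b 0) = b 2 := by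
  simp [J2, add_apply, sub_apply, el_apply, bb]

theorem J3_b0 (b : OrthonormalBasis (Fin 8) ℝ E) : J3 b (b 0) = b 3 := by
  simp [J3, add_apply, sub_apply, el_apply, bb]

theorem AA_mem (h : IsCl A) {i j : Fin 4} (hij : i ≠ j) : (A i).comp (A j) ∈ gAlg A := by
  refine ⟨fun x => ?_, fun k => ?_⟩
  · rw [ContinuousLinearMap.comp_apply, h.skew, real_inner_comm, h.cross hij, neg_zero]
  · refine ⟨fun l => (if l = j ∧ k = i then 2 else 0) - (if l = i ∧ k = j then 2 else 0), fun x => ?_⟩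
    rw [ContinuousLinearMap.comp_apply, ContinuousLinearMap.comp_apply]
    by_cases hki : k = i
    · subst hki
      have hkj : ¬ (k = j) := hij
      simp only [hkj, and_false, if_false, sub_zero, and_true]
      rw [Finset.sum_eq_single j]
      · rw [if_pos rfl, h.sq, h.anti (Ne.symm hij), map_neg, h.sq]
        module
      · intro l _ hl
        rw [if_neg hl, zero_smul]
      · intro hj
        exact absurd (Finset.mem_univ j) hj
    · by_cases hkj : k = j
      · subst hkj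
        simp only [hki, and_false, if_false, zero_sub, and_true]
        rw [Finset.sum_eq_single i]
        · rw [if_pos rfl, h.sq, h.anti (Ne.symm hij), h.sq, map_neg]
          module
        · intro l _ hl
          rw [if_neg hl, neg_zero, zero_smul]
        · intro hj
          exact absurd (Finset.mem_univ i) hj
      · simp only [hki, hkj, and_false, if_false, sub_zero, zero_smul, Finset.sum_const_zero]
        rw [h.anti (Ne.symm hkj), map_neg, h.anti (Ne.symm hki), neg_neg, sub_self]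

/-- The nine coordinates of an element of the algebra. -/
noncomputable def coord9 (A : Fin 4 → E →L[ℝ] E) (b : OrthonormalBasis (Fin 8) ℝ E) :
    gAlg A →ₗ[ℝ] (Fin 9 → ℝ) where
  toFun B := ![cc A (b 0) B 0 1, cc A (b 0) B 0 2, cc A (b 0) B 0 3, cc A (b 0) B 1 2,
    cc A (b 0) B 1 3, cc A (b 0) B 2 3, ⟪b 1, (B : E →L[ℝ] E) (b 0)⟫,
    ⟪b 2, (B : E →L[ℝ] E) (b 0)⟫, ⟪b 3, (B : E →L[ℝ] E) (b 0)⟫]
  map_add' B C := by
    ext i
    fin_cases i <;>
    simp [cc, inner_add_right, inner_sub_right] <;> ring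
  map_smul' r B := by
    ext i
    fin_cases i <;>
    simp [cc, inner_smul_right, inner_sub_right] <;> ring

theorem coord9_inj (t : Tab A b) (h : IsCl A) : Function.Injective (coord9 A b) := by
  rw [injective_iff_map_eq_zero]
  rintro ⟨B, hB⟩ hz
  have hb0 : ‖b 0‖ = 1 := b.orthonormal.norm_eq_one 0
  have z : ∀ i, coord9 A b ⟨B, hB⟩ i = 0 := fun i => by rw [hz]; rfl
  have z01 : cc A (b 0) B 0 1 = 0 := z 0
  have z02 : cc A (b 0) B 0 2 = 0 := z 1
  have z03 : cc A (b 0) B 0 3 = 0 := z 2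
  have z12 : cc A (b 0) B 1 2 = 0 := z 3
  have z13 : cc A (b 0) B 1 3 = 0 := z 4
  have z23 : cc A (b 0) B 2 3 = 0 := z 5
  have y1 : ⟪b 1, B (b 0)⟫ = 0 := z 6
  have y2 : ⟪b 2, B (b 0)⟫ = 0 := z 7
  have y3 : ⟪b 3, B (b 0)⟫ = 0 := z 8
  have y0 : ⟪b 0, B (b 0)⟫ = 0 := by rw [real_inner_comm]; exact hB.1 (b 0)
  have anti := cc_anti h hB (b 0)
  have hc : ∀ l k, cc A (b 0) B l k = 0 := by
    have d0 : ∀ k, cc A (b 0) B k k = 0 := fun k => by have := anti k k; linarith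
    intro l k
    fin_cases l <;> fin_cases k
    · exact d0 0
    · exact z01
    · exact z02
    · exact z03
    · exact (anti 1 0).trans (by rw [z01, neg_zero])
    · exact d0 1
    · exact z12
    · exact z13
    · exact (anti 2 0).trans (by rw [z02, neg_zero])
    · exact (anti 2 1).trans (by rw [z12, neg_zero])
    · exact d0 2
    · exact z23
    · exact (anti 3 0).trans (by rw [z03, neg_zero])
    · exact (anti 3 1).trans (by rw [z13, neg_zero])
    · exact (anti 3 2).trans (by rw [z23, neg_zero])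
    · exact d0 3
  have hcomm : ∀ k x, B (A k x) = A k (B x) := by
    intro k x
    have h1 := cc_eq h hB hb0 k x
    simp only [hc, zero_smul, Finset.sum_const_zero] at h1
    exact sub_eq_zero.1 h1
  have hom : B (om A (b 0)) = om A (B (b 0)) := by
    simp only [om_apply, hcomm]
  have hob : om A (b 0) = b 0 := by
    simp only [om_apply, t.a30, t.a27, t.a11, t.a04, map_neg, neg_neg]
  rw [hob] at hom
  have y4 : ⟪b 4, B (b 0)⟫ = 0 := by
    have := t.w4 h (B (b 0)); rw [← hom] at this; linarith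
  have y5 : ⟪b 5, B (b 0)⟫ = 0 := by
    have := t.w5 h (B (b 0)); rw [← hom] at this; linarith
  have y6 : ⟪b 6, B (b 0)⟫ = 0 := by
    have := t.w6 h (B (b 0)); rw [← hom] at this; linarith
  have y7 : ⟪b 7, B (b 0)⟫ = 0 := by
    have := t.w7 h (B (b 0)); rw [← hom] at this; linarith
  have hB0 : B (b 0) = 0 := by
    refine ext_coord b fun i => ?_
    rw [inner_zero_right]
    fin_cases i
    · exact y0
    · exact y1
    · exact y2
    · exact y3
    · exact y4
    · exact y5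
    · exact y6
    · exact y7
  have B4 : B (b 4) = 0 := by rw [← t.a00, hcomm, hB0, map_zero]
  have B5 : B (b 5) = 0 := by rw [← t.a10, hcomm, hB0, map_zero]
  have B6 : B (b 6) = 0 := by rw [← t.a20, hcomm, hB0, map_zero]
  have B7 : B (b 7) = 0 := by rw [← t.a30, hcomm, hB0, map_zero]
  have B1 : B (b 1) = 0 := by rw [← t.a05, hcomm, B5, map_zero]
  have B2 : B (b 2) = 0 := by rw [← t.a06, hcomm, B6, map_zero]
  have B3 : B (b 3) = 0 := by rw [← t.a07, hcomm, B7, map_zero]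
  have hBz : B = 0 := by
    have h1 : (B : E →ₗ[ℝ] E) = 0 := by
      refine b.toBasis.ext fun i => ?_
      rw [OrthonormalBasis.coe_toBasis]
      fin_cases i
      · exact hB0
      · exact B1
      · exact B2
      · exact B3
      · exact B4
      · exact B5
      · exact B6
      · exact B7
    ext x
    exact congrArg (fun L : E →ₗ[ℝ] E => L x) h1
  exact Subtype.ext hBz

end

end Pool.Agent.Q185.SR
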