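import Pool.Agent.Q185.SR.Lie

/-! The Lie algebra has dimension nine; exponentials. -/

set_option linter.unusedSimpArgs false

namespace Pool.Agent.Q185.SR

open scoped RealInnerProductSpace ContDiff Topology

variable {E : Type*} [NormedAddCommGroup E] [InnerProductSpace ℝ E]

section

variable {A : Fin 4 → E →L[ℝ] E} {b : OrthonormalBasis (Fin 8) ℝ E}

theorem coord9_surj (t : Tab A b) (h : IsCl A) : Function.Surjective (coord9 A b) := by
  intro v
  set B0 : E →L[ℝ] E := (-(v 0) / 2) • (A 0).comp (A 1) + (-(v 1) / 2) • (A 0).comp (A 2) +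
    (-(v 2) / 2) • (A 0).comp (A 3) + (-(v 3) / 2) • (A 1).comp (A 2) +
    (-(v 4) / 2) • (A 1).comp (A 3) + (-(v 5) / 2) • (A 2).comp (A 3) with hB0
  have hB0m : B0 ∈ gAlg A := by
    rw [hB0]
    refine add_mem (add_mem (add_mem (add_mem (add_mem ?_ ?_) ?_) ?_) ?_) ?_
    · exact Submodule.smul_mem _ _ (AA_mem h (by decide))
    · exact Submodule.smul_mem _ _ (AA_mem h (by decide))
    · exact Submodule.smul_mem _ _ (AA_mem h (by decide))
    · exact Submodule.smul_mem _ _ (AA_mem h (by decide))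
    · exact Submodule.smul_mem _ _ (AA_mem h (by decide))
    · exact Submodule.smul_mem _ _ (AA_mem h (by decide))
  set B : E →L[ℝ] E := B0 + (v 6 - ⟪b 1, B0 (b 0)⟫) • J1 b + (v 7 - ⟪b 2, B0 (b 0)⟫) • J2 b +
    (v 8 - ⟪b 3, B0 (b 0)⟫) • J3 b with hBd
  have hB : B ∈ gAlg A := by
    rw [hBd]
    refine add_mem (add_mem (add_mem hB0m ?_) ?_) ?_
    · exact Submodule.smul_mem _ _ (J1_mem t h)
    · exact Submodule.smul_mem _ _ (J2_mem t h)
    · exact Submodule.smul_mem _ _ (J3_mem t h)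
  refine ⟨⟨B, hB⟩, ?_⟩
  have hcB : ∀ l k, cc A (b 0) B l k = cc A (b 0) B0 l k := by
    intro l k
    unfold cc
    congr 1
    rw [hBd]
    simp only [add_apply, smul_apply, map_add, map_smul, J1_comm t h, J2_comm t h, J3_comm t h]
    module
  have hc0 : ∀ l k, cc A (b 0) B0 l k = ⟪A l (b 0), B0 (A k (b 0)) - A k (B0 (b 0))⟫ :=
    fun l k => rfl
  have e6 : ⟪b 1, B (b 0)⟫ = v 6 := by
    rw [hBd]
    simp only [add_apply, smul_apply, J1_b0, J2_b0, J3_b0, inner_add_right, inner_smul_right]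
    rw [bb, bb, bb]
    simp
  have e7 : ⟪b 2, B (b 0)⟫ = v 7 := by
    rw [hBd]
    simp only [add_apply, smul_apply, J1_b0, J2_b0, J3_b0, inner_add_right, inner_smul_right]
    rw [bb, bb, bb]
    simp
  have e8 : ⟪b 3, B (b 0)⟫ = v 8 := by
    rw [hBd]
    simp only [add_apply, smul_apply, J1_b0, J2_b0, J3_b0, inner_add_right, inner_smul_right]
    rw [bb, bb, bb]
    simp
  have hd : ∀ i j : Fin 8, ⟪b i, b j⟫ = if i = j then 1 else 0 := bb b
  have main : ∀ l k : Fin 4, ∀ r : ℝ, ⟪A l (b 0), B0 (A k (b 0)) - A k (B0 (b 0))⟫ = r →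
      cc A (b 0) B l k = r := by
    intro l k r hr
    rw [hcB, hc0, hr]
  have tabs : ∀ x : E, B0 x = (-(v 0) / 2) • A 0 (A 1 x) + (-(v 1) / 2) • A 0 (A 2 x) +
    (-(v 2) / 2) • A 0 (A 3 x) + (-(v 3) / 2) • A 1 (A 2 x) +
    (-(v 4) / 2) • A 1 (A 3 x) + (-(v 5) / 2) • A 2 (A 3 x) := fun x => rfl
  have c01 : cc A (b 0) B 0 1 = v 0 := by
    apply main
    simp only [tabs, map_add, map_smul, map_neg, smul_neg, inner_sub_right, inner_add_right,
      inner_smul_right, inner_neg_right,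
      t.a00, t.a01, t.a02, t.a03, t.a04, t.a05, t.a06, t.a07,
      t.a10, t.a11, t.a12, t.a13, t.a14, t.a15, t.a16, t.a17,
      t.a20, t.a21, t.a22, t.a23, t.a24, t.a25, t.a26, t.a27,
      t.a30, t.a31, t.a32, t.a33, t.a34, t.a35, t.a36, t.a37, hd, Fin.reduceEq, if_true, if_false]
    ring
  have c02 : cc A (b 0) B 0 2 = v 1 := by
    apply main
    simp only [tabs, map_add, map_smul, map_neg, smul_neg, inner_sub_right, inner_add_right,
      inner_smul_right, inner_neg_right,
      t.a00, t.a01, t.a02, t.a03, t.a04, t.a05, t.a06, t.a07,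
      t.a10, t.a11, t.a12, t.a13, t.a14, t.a15, t.a16, t.a17,
      t.a20, t.a21, t.a22, t.a23, t.a24, t.a25, t.a26, t.a27,
      t.a30, t.a31, t.a32, t.a33, t.a34, t.a35, t.a36, t.a37, hd, Fin.reduceEq, if_true, if_false]
    ring
  have c03 : cc A (b 0) B 0 3 = v 2 := by
    apply main
    simp only [tabs, map_add, map_smul, map_neg, smul_neg, inner_sub_right, inner_add_right,
      inner_smul_right, inner_neg_right,
      t.a00, t.a01, t.a02, t.a03, t.a04, t.a05, t.a06, t.a07,
      t.a10, t.a11, t.a12, t.a13, t.a14, t.a15, t.a16, t.a17,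
      t.a20, t.a21, t.a22, t.a23, t.a24, t.a25, t.a26, t.a27,
      t.a30, t.a31, t.a32, t.a33, t.a34, t.a35, t.a36, t.a37, hd, Fin.reduceEq, if_true, if_false]
    ring
  have c12 : cc A (b 0) B 1 2 = v 3 := by
    apply main
    simp only [tabs, map_add, map_smul, map_neg, smul_neg, inner_sub_right, inner_add_right,
      inner_smul_right, inner_neg_right,
      t.a00, t.a01, t.a02, t.a03, t.a04, t.a05, t.a06, t.a07,
      t.a10, t.a11, t.a12, t.a13, t.a14, t.a15, t.a16, t.a17,
      t.a20, t.a21, t.a22, t.a23, t.a24, t.a25, t.a26, t.a27,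
      t.a30, t.a31, t.a32, t.a33, t.a34, t.a35, t.a36, t.a37, hd, Fin.reduceEq, if_true, if_false]
    ring
  have c13 : cc A (b 0) B 1 3 = v 4 := by
    apply main
    simp only [tabs, map_add, map_smul, map_neg, smul_neg, inner_sub_right, inner_add_right,
      inner_smul_right, inner_neg_right,
      t.a00, t.a01, t.a02, t.a03, t.a04, t.a05, t.a06, t.a07,
      t.a10, t.a11, t.a12, t.a13, t.a14, t.a15, t.a16, t.a17,
      t.a20, t.a21, t.a22, t.a23, t.a24, t.a25, t.a26, t.a27,
      t.a30, t.a31, t.a32, t.a33, t.a34, t.a35, t.a36, t.a37, hd, Fin.reduceEq, if_true, if_false]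
    ring
  have c23 : cc A (b 0) B 2 3 = v 5 := by
    apply main
    simp only [tabs, map_add, map_smul, map_neg, smul_neg, inner_sub_right, inner_add_right,
      inner_smul_right, inner_neg_right,
      t.a00, t.a01, t.a02, t.a03, t.a04, t.a05, t.a06, t.a07,
      t.a10, t.a11, t.a12, t.a13, t.a14, t.a15, t.a16, t.a17,
      t.a20, t.a21, t.a22, t.a23, t.a24, t.a25, t.a26, t.a27,
      t.a30, t.a31, t.a32, t.a33, t.a34, t.a35, t.a36, t.a37, hd, Fin.reduceEq, if_true, if_false]
    ring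
  funext i
  fin_cases i
  · exact c01
  · exact c02
  · exact c03
  · exact c12
  · exact c13
  · exact c23
  · exact e6
  · exact e7
  · exact e8

theorem finrank_gAlg (t : Tab A b) (h : IsCl A) : Module.finrank ℝ (gAlg A) = 9 := by
  rw [(LinearEquiv.ofBijective (coord9 A b) ⟨coord9_inj t h, coord9_surj t h⟩).finrank_eq]
  simp

end

end Pool.Agent.Q185.SR
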