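import Pool.Agent.Q185.SR.Ext

/-! Every sub-Riemannian isometry is linear; the dimension of the isometry group is nine. -/

namespace Pool.Agent.Q185.SR

open scoped RealInnerProductSpace ContDiff Topology Manifold
open NormedSpace (exp)

theorem exists_tangent (x : S7) {η : E8} (h : ⟪(x : E8), η⟫ = 0) :
    ∃ ξ : TangentSpace (𝓡 7) x, ambient x ξ = η := by
  have h1 : η ∈ (ℝ ∙ (x : E8))ᗮ := Submodule.mem_orthogonal_singleton_iff_inner_right.2 h
  rw [← range_mvfderiv_subtypeVal (n := 7) x] at h1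
  obtain ⟨ξ, hξ⟩ := h1
  exact ⟨ξ, hξ⟩

theorem coe_ne (x : S7) : (x : E8) ≠ 0 := by
  rw [← norm_ne_zero_iff]; simp

theorem coe_norm (x : S7) : ‖(x : E8)‖ = 1 := by simp

theorem ext_D_homog (φ : S7 ≃ₘ^∞⟮𝓡 7, 𝓡 7⟯ S7) {x : E8} (hx : x ≠ 0) {r : ℝ} (hr : 0 < r) :
    fderiv ℝ (ext φ) (r • x) = fderiv ℝ (ext φ) x := by
  have hrx : r • x ≠ 0 := smul_ne_zero hr.ne' hx
  have h1 : HasFDerivAt (ext φ) (fderiv ℝ (ext φ) x) x :=
    ((ext_smooth φ hx).differentiableAt (by simp)).hasFDerivAt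
  have h2 : HasFDerivAt (ext φ) (fderiv ℝ (ext φ) (r • x)) (r • x) :=
    ((ext_smooth φ hrx).differentiableAt (by simp)).hasFDerivAt
  have h3 : HasFDerivAt (fun z : E8 => r • z) (r • ContinuousLinearMap.id ℝ E8) x :=
    (hasFDerivAt_id x).const_smul r
  have h4 : HasFDerivAt (fun z : E8 => ext φ (r • z))
      ((fderiv ℝ (ext φ) (r • x)).comp (r • ContinuousLinearMap.id ℝ E8)) x := h2.comp x h3
  have h5 : HasFDerivAt (fun z : E8 => r • ext φ z) (r • fderiv ℝ (ext φ) x) x := h1.const_smul r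
  have h6 : (fun z : E8 => ext φ (r • z)) = fun z : E8 => r • ext φ z :=
    funext fun z => ext_homog φ hr z
  rw [h6] at h4
  have h7 := h4.unique h5
  ext η : 1
  have h8 := congrArg (fun L : E8 →L[ℝ] E8 => L η) h7
  simp only [ContinuousLinearMap.comp_apply, smul_apply, ContinuousLinearMap.id_apply,
    map_smul] at h8
  exact smul_right_injective E8 hr.ne' h8

theorem ext_SRHom {A : Fin 4 → Matrix (Fin 8) (Fin 8) ℝ} (hA : CliffordQuadruple A)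
    {φ : S7 ≃ₘ^∞⟮𝓡 7, 𝓡 7⟯ S7} (hφ : IsSRIsometry A φ) :
    SRHom (fun k => act (A k)) (ext φ) := by
  have hcl := isCl_act hA
  have key : ∀ y : E8, y ≠ 0 → ∀ a : Fin 4 → ℝ,
      (∃ c : Fin 4 → ℝ, fderiv ℝ (ext φ) y (∑ k, a k • act (A k) y) =
        ∑ l, c l • act (A l) (ext φ y)) ∧
      ‖fderiv ℝ (ext φ) y (∑ k, a k • act (A k) y)‖ = ‖∑ k, a k • act (A k) y‖ := by
    intro y hy a
    set x := nrm y with hx
    have hn : 0 < ‖y‖ := norm_pos_iff.2 hy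
    have hyx : y = ‖y‖ • (x : E8) := by
      rw [hx, nrm_coe hy, smul_smul, mul_inv_cancel₀ hn.ne', one_smul]
    have hD : fderiv ℝ (ext φ) y = fderiv ℝ (ext φ) (x : E8) := by
      conv_lhs => rw [hyx]
      exact ext_D_homog φ (coe_ne x) hn
    have hsum : ∑ k, a k • act (A k) y = ‖y‖ • ∑ k, a k • act (A k) (x : E8) := by
      conv_lhs => rw [hyx]
      rw [Finset.smul_sum]
      refine Finset.sum_congr rfl fun k _ => ?_
      rw [map_smul, smul_comm]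
    obtain ⟨ξ, hξ⟩ := exists_tangent x (η := ∑ k, a k • act (A k) (x : E8)) (by
      rw [inner_sum]
      refine Finset.sum_eq_zero fun k _ => ?_
      rw [inner_smul_right]
      have : ⟪(x : E8), act (A k) (x : E8)⟫ = 0 := hcl.inner_self k (x : E8)
      rw [this, mul_zero])
    obtain ⟨⟨c, hc⟩, hiso⟩ := hφ x ξ ⟨a, hξ⟩
    have h1 := ext_D φ x ξ
    rw [hξ] at h1
    rw [← h1] at hc hiso
    rw [hξ] at hiso
    rw [hD, hsum, map_smul]
    constructor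
    · refine ⟨c, ?_⟩
      rw [hc, Finset.smul_sum]
      refine Finset.sum_congr rfl fun l _ => ?_
      have : ext φ y = ‖y‖ • (φ x : E8) := rfl
      rw [this, map_smul, smul_comm]
    · rw [norm_smul, norm_smul, hiso]
  refine ⟨fun y hy => ext_smooth φ hy, fun r hr y => ext_homog φ hr y, fun y => ext_norm φ y,
    fun y hy k => ?_, fun y hy a => (key y hy a).2⟩
  obtain ⟨c, hc⟩ := (key y hy (Pi.single k 1)).1
  refine ⟨c, ?_⟩
  rw [← hc]
  congr 1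
  rw [Finset.sum_eq_single k]
  · rw [Pi.single_eq_same, one_smul]
  · intro m _ hm
    rw [Pi.single_eq_of_ne hm, zero_smul]
  · intro hk
    exact absurd (Finset.mem_univ k) hk

theorem normaliser_eq (A : Fin 4 → Matrix (Fin 8) (Fin 8) ℝ) :
    Normaliser A = GSet (fun k => act (A k)) := rfl

theorem isometry_linear {A : Fin 4 → Matrix (Fin 8) (Fin 8) ℝ} (hA : CliffordQuadruple A)
    {φ : S7 ≃ₘ^∞⟮𝓡 7, 𝓡 7⟯ S7} (hφ : IsSRIsometry A φ) :
    ∃ O ∈ Normaliser A, ∀ x : S7, (φ x : E8) = O x := by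
  have hcl := isCl_act hA
  obtain ⟨b, t⟩ := hcl.exists_tab finrank_E8
  obtain ⟨L, hL1, hL2, hL3⟩ := (ext_SRHom hA hφ).rigid hcl t
  refine ⟨L, ⟨hL2, fun k => ?_⟩, fun x => ?_⟩
  · obtain ⟨c, hc⟩ := hL3 k
    refine ⟨c, fun y => ?_⟩
    rw [hc, lin_apply]
  · rw [← hL1, ext_coe]

theorem ambient_D {φ : S7 ≃ₘ^∞⟮𝓡 7, 𝓡 7⟯ S7} {O : E8 →L[ℝ] E8} (h : ∀ x : S7, (φ x : E8) = O x)
    (x : S7) (ξ : TangentSpace (𝓡 7) x) :
    ambient (φ x) (mfderiv (𝓡 7) (𝓡 7) φ x ξ) = O (ambient x ξ) := by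
  have h1 : O ∘ (Subtype.val : S7 → E8) = (Subtype.val : S7 → E8) ∘ φ := by
    funext z
    exact (h z).symm
  have d1 : MDifferentiableAt 𝓘(ℝ, E8) 𝓘(ℝ, E8) O (x : E8) :=
    O.differentiableAt.mdifferentiableAt
  have d2 : MDifferentiableAt (𝓡 7) 𝓘(ℝ, E8) (Subtype.val : S7 → E8) x :=
    (contMDiff_coe_sphere (m := 1)).mdifferentiable one_ne_zero x
  have d3 : MDifferentiableAt (𝓡 7) (𝓡 7) φ x := φ.mdifferentiable (by simp) x
  have d4 : MDifferentiableAt (𝓡 7) 𝓘(ℝ, E8) (Subtype.val : S7 → E8) (φ x) :=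
    (contMDiff_coe_sphere (m := 1)).mdifferentiable one_ne_zero (φ x)
  have e1 := mfderiv_comp_apply x d1 d2 ξ
  have e2 := mfderiv_comp_apply x d4 d3 ξ
  rw [h1] at e1
  have e3 := e1.symm.trans e2
  rw [mfderiv_eq_fderiv, O.fderiv] at e3
  exact e3.symm

theorem linear_isometry {A : Fin 4 → Matrix (Fin 8) (Fin 8) ℝ}
    {φ : S7 ≃ₘ^∞⟮𝓡 7, 𝓡 7⟯ S7} {O : E8 →L[ℝ] E8} (hO : O ∈ Normaliser A)
    (h : ∀ x : S7, (φ x : E8) = O x) : IsSRIsometry A φ := by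
  rintro x ξ ⟨c, hc⟩
  rw [ambient_D h]
  refine ⟨?_, hO.1 _⟩
  choose d hd using hO.2
  refine ⟨fun l => ∑ k, c k * d k l, ?_⟩
  rw [ambient_D h, hc, map_sum, h x]
  simp only [map_smul, hd, Finset.smul_sum, smul_smul, Finset.sum_smul]
  rw [Finset.sum_comm]

/-- The diffeomorphism of the sphere given by a linear isometry. -/
theorem exists_diffeo {O : E8 →L[ℝ] E8} (hO : ∀ x, ‖O x‖ = ‖x‖) :
    ∃ φ : S7 ≃ₘ^∞⟮𝓡 7, 𝓡 7⟯ S7, ∀ x : S7, (φ x : E8) = O x := by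
  let L : E8 →ₗᵢ[ℝ] E8 := ⟨O.toLinearMap, hO⟩
  let e : E8 ≃ₗᵢ[ℝ] E8 := L.toLinearIsometryEquiv rfl
  have he : ∀ x, e x = O x := fun x => rfl
  have m1 : ∀ x : S7, e (x : E8) ∈ Metric.sphere (0 : E8) 1 := fun x => by
    rw [mem_sphere_zero_iff_norm, e.norm_map, coe_norm]
  have m2 : ∀ x : S7, e.symm (x : E8) ∈ Metric.sphere (0 : E8) 1 := fun x => by
    rw [mem_sphere_zero_iff_norm, e.symm.norm_map, coe_norm]
  have c1 : ContMDiff (𝓡 7) (𝓡 7) ∞ (Set.codRestrict (fun x : S7 => e (x : E8)) _ m1 : S7 → S7) :=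
    ContMDiff.codRestrict_sphere (n := 7) (e.contDiff.contMDiff.comp contMDiff_coe_sphere) m1
  have c2 : ContMDiff (𝓡 7) (𝓡 7) ∞
      (Set.codRestrict (fun x : S7 => e.symm (x : E8)) _ m2 : S7 → S7) :=
    ContMDiff.codRestrict_sphere (n := 7) (e.symm.contDiff.contMDiff.comp contMDiff_coe_sphere) m2
  refine ⟨⟨⟨Set.codRestrict (fun x : S7 => e (x : E8)) _ m1,
    Set.codRestrict (fun x : S7 => e.symm (x : E8)) _ m2, fun x => ?_, fun x => ?_⟩, c1, c2⟩,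
    fun x => rfl⟩
  · apply Subtype.ext
    exact e.symm_apply_apply _
  · apply Subtype.ext
    exact e.apply_symm_apply _

theorem lin_ext {O P : E8 →L[ℝ] E8} (h : ∀ x : S7, O (x : E8) = P x) : O = P := by
  ext y : 1
  by_cases hy : y = 0
  · rw [hy, map_zero, map_zero]
  · have hn : 0 < ‖y‖ := norm_pos_iff.2 hy
    have hyx : y = ‖y‖ • (nrm y : E8) := by
      rw [nrm_coe hy, smul_smul, mul_inv_cancel₀ hn.ne', one_smul]
    rw [hyx, map_smul, map_smul, h]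

theorem closed_normaliser {A : Fin 4 → Matrix (Fin 8) (Fin 8) ℝ} (hA : CliffordQuadruple A) :
    IsClosed (Normaliser A) := by
  have hcl := isCl_act hA
  set e : S7 := nrm 0
  have he : ‖(e : E8)‖ = 1 := coe_norm e
  have h1 : Normaliser A = {O | ∀ x, ‖O x‖ = ‖x‖} ∩ ⋂ k, ⋂ x : E8,
      {O | O (act (A k) x) = ∑ l, ⟪act (A l) (O e), O (act (A k) e)⟫ • act (A l) (O x)} := by
    ext O
    simp only [Set.mem_inter_iff, Set.mem_iInter]
    constructor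
    · rintro ⟨hO1, hO2⟩
      refine ⟨hO1, fun k x => ?_⟩
      obtain ⟨c, hc⟩ := hO2 k
      have h2 : ∀ l, ⟪act (A l) (O e), O (act (A k) e)⟫ = c l := by
        intro l
        rw [hc, inner_sum]
        simp only [inner_smul_right]
        have h3 : ∀ m, ⟪act (A l) (O e), act (A m) (O e)⟫ = if l = m then ‖O e‖ ^ 2 else 0 :=
          fun m => hcl.inner_ite l m (O e)
        simp only [h3, mul_ite, mul_zero, Finset.sum_ite_eq, Finset.mem_univ, if_true, hO1, he]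
        norm_num
      change O (act (A k) x) = _
      simp only [h2]
      exact hc x
    · rintro ⟨hO1, hO2⟩
      exact ⟨hO1, fun k => ⟨_, fun x => hO2 k x⟩⟩
  rw [h1]
  refine IsClosed.inter ?_ (isClosed_iInter fun k => isClosed_iInter fun x => ?_)
  · have : {O : E8 →L[ℝ] E8 | ∀ x, ‖O x‖ = ‖x‖} = ⋂ x : E8, {O | ‖O x‖ = ‖x‖} := by
      ext O
      simp only [Set.mem_iInter]
      exact Iff.rfl
    rw [this]
    refine isClosed_iInter fun x => isClosed_eq ?_ continuous_const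
    fun_prop
  · refine isClosed_eq (by fun_prop) ?_
    fun_prop

/-- Linear one-parameter group attached to a continuous one-parameter group of isometries. -/
theorem oneParam_exp {A : Fin 4 → Matrix (Fin 8) (Fin 8) ℝ} (hA : CliffordQuadruple A)
    {Θ : ℝ → S7 ≃ₘ^∞⟮𝓡 7, 𝓡 7⟯ S7} (hΘ : IsOneParam A Θ) :
    ∃ B : E8 →L[ℝ] E8, (∀ t : ℝ, exp (t • B) ∈ Normaliser A) ∧
      ∀ (t : ℝ) (x : S7), (Θ t x : E8) = exp (t • B) (x : E8) := by
  choose O hO1 hO2 using fun t => isometry_linear hA (hΘ.isom t)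
  have h0 : O 0 = 1 := lin_ext fun x => by rw [← hO2, hΘ.zero]; rfl
  have hadd : ∀ s t, O (s + t) = O s * O t := fun s t => lin_ext fun x => by
    rw [← hO2, hΘ.add, hO2, hO2]; rfl
  have hcont : Continuous O := by
    rw [continuous_clm_apply]
    intro y
    by_cases hy : y = 0
    · simp only [hy, map_zero]; exact continuous_const
    · have hn : 0 < ‖y‖ := norm_pos_iff.2 hy
      have hyx : y = ‖y‖ • (nrm y : E8) := by
        rw [nrm_coe hy, smul_smul, mul_inv_cancel₀ hn.ne', one_smul]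
      have h1 : (fun t => O t y) = fun t => ‖y‖ • (Θ t (nrm y) : E8) := by
        funext t
        rw [hO2, ← map_smul, ← hyx]
      rw [h1]
      have h2 : Continuous fun t => (Θ t (nrm y) : E8) :=
        continuous_subtype_val.comp (hΘ.cont (nrm y))
      exact h2.const_smul ‖y‖
  obtain ⟨B, hB⟩ := one_param hcont h0 hadd
  refine ⟨B, fun t => ?_, fun t x => ?_⟩
  · rw [← hB]; exact hO1 t
  · rw [← hB]; exact hO2 t x

theorem exp_oneParam {A : Fin 4 → Matrix (Fin 8) (Fin 8) ℝ} {B : E8 →L[ℝ] E8}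
    (hB : ∀ t : ℝ, exp (t • B) ∈ Normaliser A) :
    ∃ Θ : ℝ → S7 ≃ₘ^∞⟮𝓡 7, 𝓡 7⟯ S7, IsOneParam A Θ ∧
      ∀ (t : ℝ) (x : S7), (Θ t x : E8) = exp (t • B) (x : E8) := by
  choose Θ hΘ using fun t => exists_diffeo (hB t).1
  refine ⟨Θ, ⟨fun t => linear_isometry (hB t) (hΘ t), fun x => ?_, fun s t x => ?_, fun x => ?_⟩,
    hΘ⟩
  · apply Subtype.ext
    rw [hΘ, exp_zero_apply]
  · apply Subtype.ext
    rw [hΘ, hΘ, hΘ, exp_smul_add]
    rfl
  · rw [continuous_induced_rng]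
    have h1 : (Subtype.val ∘ fun t => Θ t x) = fun t : ℝ => exp (t • B) (x : E8) := by
      funext t
      exact hΘ t x
    rw [h1]
    exact continuous_iff_continuousAt.2 fun t => (hasDerivAt_exp_apply B t (x : E8)).continuousAt

def M0 : Matrix (Fin 8) (Fin 8) ℤ :=
  !![0, 0, 0, 0, -1, 0, 0, 0;
    0, 0, 0, 0, 0, 1, 0, 0;
    0, 0, 0, 0, 0, 0, 1, 0;
    0, 0, 0, 0, 0, 0, 0, 1;
    1, 0, 0, 0, 0, 0, 0, 0;
    0, -1, 0, 0, 0, 0, 0, 0;
    0, 0, -1, 0, 0, 0, 0, 0;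
    0, 0, 0, -1, 0, 0, 0, 0]

def M1 : Matrix (Fin 8) (Fin 8) ℤ :=
  !![0, 0, 0, 0, 0, -1, 0, 0;
    0, 0, 0, 0, -1, 0, 0, 0;
    0, 0, 0, 0, 0, 0, 0, 1;
    0, 0, 0, 0, 0, 0, -1, 0;
    0, 1, 0, 0, 0, 0, 0, 0;
    1, 0, 0, 0, 0, 0, 0, 0;
    0, 0, 0, 1, 0, 0, 0, 0;
    0, 0, -1, 0, 0, 0, 0, 0]

def M2 : Matrix (Fin 8) (Fin 8) ℤ :=
  !![0, 0, 0, 0, 0, 0, -1, 0;
    0, 0, 0, 0, 0, 0, 0, -1;
    0, 0, 0, 0, -1, 0, 0, 0;
    0, 0, 0, 0, 0, 1, 0, 0;
    0, 0, 1, 0, 0, 0, 0, 0;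
    0, 0, 0, -1, 0, 0, 0, 0;
    1, 0, 0, 0, 0, 0, 0, 0;
    0, 1, 0, 0, 0, 0, 0, 0]

def M3 : Matrix (Fin 8) (Fin 8) ℤ :=
  !![0, 0, 0, 0, 0, 0, 0, -1;
    0, 0, 0, 0, 0, 0, 1, 0;
    0, 0, 0, 0, 0, -1, 0, 0;
    0, 0, 0, 0, -1, 0, 0, 0;
    0, 0, 0, 1, 0, 0, 0, 0;
    0, 0, 1, 0, 0, 0, 0, 0;
    0, -1, 0, 0, 0, 0, 0, 0;
    1, 0, 0, 0, 0, 0, 0, 0]

/-- A quadruple with integer entries. -/
def MM : Fin 4 → Matrix (Fin 8) (Fin 8) ℤ := ![M0, M1, M2, M3]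

theorem exists_quadruple : ∃ A : Fin 4 → Matrix (Fin 8) (Fin 8) ℝ, CliffordQuadruple A := by
  have hskew : ∀ k, (MM k).transpose = - MM k := by decide
  have hrel : ∀ i j, MM i * MM j + MM j * MM i =
      if i = j then (-2 : ℤ) • (1 : Matrix (Fin 8) (Fin 8) ℤ) else 0 := by decide
  refine ⟨fun k => (MM k).map (Int.castRingHom ℝ), fun k => ?_, fun i j => ?_⟩
  · have h1 := congrArg (fun M : Matrix (Fin 8) (Fin 8) ℤ => M.map (Int.castRingHom ℝ)) (hskew k)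
    ext a b
    have h2 := congrFun (congrFun h1 a) b
    simpa using h2
  · have h1 := congrArg (fun M : Matrix (Fin 8) (Fin 8) ℤ => (Int.castRingHom ℝ).mapMatrix M)
      (hrel i j)
    simp only [map_add, map_mul] at h1
    have h3 : ∀ k, (MM k).map (Int.castRingHom ℝ) = (Int.castRingHom ℝ).mapMatrix (MM k) :=
      fun k => rfl
    rw [h3, h3, h1]
    split_ifs
    · rw [map_zsmul, map_one]
      ext a b
      simp [Matrix.smul_apply]
    · rw [map_zero]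

end Pool.Agent.Q185.SR
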