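import Pool.Agent.Q185.SR.Main

/-! The definitions used in the statement about the isometry group of the trivializable
sub-Riemannian seven-sphere. -/

namespace Pool.Agent.Q185.SR.Stmt

open Pool.Agent.Q185.SR (E8 S7 Diff7 CliffordQuadruple act ambient)
open scoped RealInnerProductSpace
open scoped Manifold ContDiff

/-- The continuous linear maps of Euclidean eight-space to itself. -/
noncomputable abbrev Op8 : Type := E8 →L[ℝ] E8

/-- The tangent space of the unit sphere at `x`. -/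
noncomputable abbrev T7 (x : S7) : Type := TangentSpace (𝓡 7) x

/-- The value of a diffeomorphism at a point. -/
noncomputable def ev (φ : Diff7) (x : S7) : S7 := φ x

/-- The derivative at `x` in the direction of the tangent vector `ξ` of a map from the sphere to
`ℝ^8`. -/
noncomputable def D8 (F : S7 → E8) (x : S7) (ξ : T7 x) : E8 := mvfderiv (𝓡 7) F x ξ

/-- The vector of `ℝ^8` which the tangent vector `ξ` of the sphere is: its image under the
differential of the inclusion of the sphere. -/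
noncomputable def amb (x : S7) (ξ : T7 x) : E8 := D8 (fun z => (z : E8)) x ξ

/-- The image of the tangent vector `ξ` at `x` under the differential of the diffeomorphism `φ`,
as a vector of `ℝ^8`. -/
noncomputable def push (φ : Diff7) (x : S7) (ξ : T7 x) : E8 := D8 (fun z => (ev φ z : E8)) x ξ

/-- The vector `v` lies in the span of `A_1 x, ..., A_4 x`, the values at `x` of the vector
fields `X(A_1), ..., X(A_4)`. -/
def IsHorizontal (A : Fin 4 → Matrix (Fin 8) (Fin 8) ℝ) (x : S7) (v : E8) : Prop :=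
  ∃ c : Fin 4 → ℝ, v = ∑ k, c k • act (A k) (x : E8)

/-- Sub-Riemannian isometries: diffeomorphisms whose differential maps horizontal vectors to
horizontal vectors of the same length (the sub-Riemannian metric is the restriction of the round
metric). -/
def IsSRIsometry (A : Fin 4 → Matrix (Fin 8) (Fin 8) ℝ) (φ : Diff7) : Prop :=
  ∀ (x : S7) (ξ : T7 x), IsHorizontal A x (amb x ξ) →
    IsHorizontal A (ev φ x) (push φ x ξ) ∧ ‖push φ x ξ‖ = ‖amb x ξ‖

/-- The linear isometries `O` of `ℝ^8` which normalise the span of the quadruple. -/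
def Normaliser (A : Fin 4 → Matrix (Fin 8) (Fin 8) ℝ) : Set Op8 :=
  {O | (∀ x, ‖O x‖ = ‖x‖) ∧
    ∀ k, ∃ c : Fin 4 → ℝ, ∀ x, O (act (A k) x) = ∑ l, c l • act (A l) (O x)}

/-- The set of these linear isometries is closed. -/
def NormaliserClosed (A : Fin 4 → Matrix (Fin 8) (Fin 8) ℝ) : Prop := IsClosed (Normaliser A)

/-- The diffeomorphism `φ` of the sphere is the restriction of the linear map `O`. -/
def Restricts (φ : Diff7) (O : Op8) : Prop := ∀ x : S7, (ev φ x : E8) = O x

/-- The sub-Riemannian isometries are exactly the restrictions of the elements of the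
normaliser, each of a unique one. -/
def IsometriesAreNormaliser (A : Fin 4 → Matrix (Fin 8) (Fin 8) ℝ) : Prop :=
  (∀ φ : Diff7, IsSRIsometry A φ ↔ ∃! O : Op8, O ∈ Normaliser A ∧ Restricts φ O) ∧
  (∀ O ∈ Normaliser A, ∃ φ : Diff7, IsSRIsometry A φ ∧ Restricts φ O)

/-- A continuous one-parameter group of sub-Riemannian isometries. -/
structure IsOneParam (A : Fin 4 → Matrix (Fin 8) (Fin 8) ℝ) (Θ : ℝ → Diff7) : Prop where
  isom : ∀ t, IsSRIsometry A (Θ t)
  zero : ∀ x, ev (Θ 0) x = x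
  add : ∀ s t x, ev (Θ (s + t)) x = ev (Θ s) (ev (Θ t) x)
  cont : ∀ x, Continuous fun t => ev (Θ t) x

/-- The exponential of `t B`. -/
noncomputable def expt (t : ℝ) (B : Op8) : Op8 := NormedSpace.exp (t • B)

/-- The linear subspaces of the space of operators. -/
noncomputable abbrev Sub8 : Type := Submodule ℝ Op8

/-- Membership in a linear subspace. -/
def mem8 (B : Op8) (g : Sub8) : Prop := B ∈ g

/-- The dimension of a linear subspace. -/
noncomputable def dim8 (g : Sub8) : ℕ := Module.finrank ℝ g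

/-- `g` is the Lie algebra of the group of sub-Riemannian isometries: `B ∈ g` if and only if
`exp (t B)` is in the normaliser for all `t`, and `B ↦ exp (t B)` is a bijection of `g` with the
continuous one-parameter groups of sub-Riemannian isometries. -/
structure IsLieAlgebraOf (A : Fin 4 → Matrix (Fin 8) (Fin 8) ℝ) (g : Sub8) : Prop where
  mem_iff : ∀ B : Op8, mem8 B g ↔ ∀ t : ℝ, expt t B ∈ Normaliser A
  log : ∀ Θ : ℝ → Diff7, IsOneParam A Θ →
    ∃! B : Op8, mem8 B g ∧ ∀ t : ℝ, Restricts (Θ t) (expt t B)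
  exp : ∀ B, mem8 B g → ∃ Θ : ℝ → Diff7, IsOneParam A Θ ∧ ∀ t : ℝ, Restricts (Θ t) (expt t B)

theorem push_eq (φ : Diff7) (x : S7) (ξ : T7 x) :
    push φ x ξ = ambient (φ x) (mfderiv (𝓡 7) (𝓡 7) φ x ξ) := by
  have d3 : MDifferentiableAt (𝓡 7) (𝓡 7) φ x := φ.mdifferentiable (by simp) x
  have d4 : MDifferentiableAt (𝓡 7) 𝓘(ℝ, E8) (Subtype.val : S7 → E8) (φ x) :=
    (contMDiff_coe_sphere (m := 1)).mdifferentiable one_ne_zero (φ x)
  have h1 := mfderiv_comp_apply x d4 d3 ξ
  exact h1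

theorem isometry_iff (A : Fin 4 → Matrix (Fin 8) (Fin 8) ℝ) (φ : Diff7) :
    IsSRIsometry A φ ↔ Pool.Agent.Q185.SR.IsSRIsometry A φ := by
  constructor
  · intro h x ξ hξ
    have h1 := h x ξ hξ
    rw [push_eq] at h1
    exact h1
  · intro h x ξ hξ
    rw [push_eq]
    exact h x ξ hξ

theorem oneParam_iff (A : Fin 4 → Matrix (Fin 8) (Fin 8) ℝ) (Θ : ℝ → Diff7) :
    IsOneParam A Θ ↔ Pool.Agent.Q185.SR.IsOneParam A Θ :=
  ⟨fun h => ⟨fun t => (isometry_iff A _).1 (h.isom t), h.zero, h.add, h.cont⟩,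
    fun h => ⟨fun t => (isometry_iff A _).2 (h.isom t), h.zero, h.add, h.cont⟩⟩

theorem main (A : Fin 4 → Matrix (Fin 8) (Fin 8) ℝ) (hA : CliffordQuadruple A) :
    IsometriesAreNormaliser A ∧ NormaliserClosed A ∧
      ∃ g : Sub8, IsLieAlgebraOf A g ∧ dim8 g = 9 := by
  have hcl := isCl_act hA
  obtain ⟨b, tb⟩ := hcl.exists_tab finrank_E8
  have hb0 : ‖b 0‖ = 1 := b.orthonormal.norm_eq_one 0
  refine ⟨⟨fun φ => ⟨fun hφ => ?_, ?_⟩, fun O hO => ?_⟩, closed_normaliser hA, ?_⟩
  · obtain ⟨O, hO, hφO⟩ := isometry_linear hA ((isometry_iff A φ).1 hφ)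
    refine ⟨O, ⟨hO, hφO⟩, ?_⟩
    rintro P ⟨-, hP⟩
    refine lin_ext fun x => ?_
    have h1 : ((φ x : S7) : E8) = P x := hP x
    rw [← h1, ← hφO]
  · rintro ⟨O, ⟨hO, hφO⟩, -⟩
    exact (isometry_iff A φ).2 (linear_isometry hO hφO)
  · obtain ⟨φ, hφ⟩ := exists_diffeo hO.1
    exact ⟨φ, (isometry_iff A φ).2 (linear_isometry hO hφ), hφ⟩
  · refine ⟨gAlg (fun k => act (A k)), ⟨fun B => ?_, fun Θ hΘ => ?_, fun B hB => ?_⟩,
      finrank_gAlg tb hcl⟩
    · exact mem_gAlg_iff_exp hcl hb0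
    · obtain ⟨B, hB1, hB2⟩ := oneParam_exp hA ((oneParam_iff A Θ).1 hΘ)
      refine ⟨B, ⟨(mem_gAlg_iff_exp hcl hb0).2 hB1, hB2⟩, ?_⟩
      rintro C ⟨-, hC⟩
      refine exp_inj fun t => lin_ext fun x => ?_
      have h1 : ((Θ t x : S7) : E8) = NormedSpace.exp (t • C) (x : E8) := hC t x
      rw [← h1, ← hB2]
    · obtain ⟨Θ, h1, h2⟩ := exp_oneParam ((mem_gAlg_iff_exp hcl hb0).1 hB)
      exact ⟨Θ, (oneParam_iff A Θ).2 h1, h2⟩

end Pool.Agent.Q185.SR.Stmt
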